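import Mathlib

/-! Arithmetic of real quadratic units attached to Markov numbers. -/

set_option autoImplicit false

namespace Pool.Agent.Q185.ML

noncomputable section

/-- traces of powers -/
def tr (t : ℤ) : ℕ → ℤ
  | 0 => 2
  | 1 => t
  | (n + 2) => t * tr t (n + 1) - tr t n

lemma tr_eq {x : ℝ} (hx : x ≠ 0) {t : ℤ} (h : x + x⁻¹ = t) : ∀ n : ℕ, x ^ n + x⁻¹ ^ n = tr t n ∧
    x ^ (n + 1) + x⁻¹ ^ (n + 1) = tr t (n + 1) := by
  intro n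
  induction n with
  | zero =>
    refine ⟨by simp [tr]; norm_num, by simp [tr]; exact h⟩
  | succ n ih =>
    obtain ⟨i1, i2⟩ := ih
    refine ⟨i2, ?_⟩
    show _ = ((t * tr t (n + 1) - tr t n : ℤ) : ℝ)
    push_cast
    rw [← i1, ← i2, ← h]
    have hxx : x * x⁻¹ = 1 := mul_inv_cancel₀ hx
    have e1 : x ^ (n + 1 + 1) = x * (x * x ^ n) := by ring
    have e2 : x⁻¹ ^ (n + 1 + 1) = x⁻¹ * (x⁻¹ * x⁻¹ ^ n) := by ring
    have e3 : x ^ (n + 1) = x * x ^ n := by ring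
    have e4 : x⁻¹ ^ (n + 1) = x⁻¹ * x⁻¹ ^ n := by ring
    rw [e1, e2, e3, e4]
    linear_combination (-(x ^ n + x⁻¹ ^ n)) * hxx

lemma pow_trace {x : ℝ} (hx : x ≠ 0) {t : ℤ} (h : x + x⁻¹ = t) (n : ℕ) : ∃ T : ℤ, x ^ n + (x ^ n)⁻¹ = T :=
  ⟨tr t n, by rw [← inv_pow]; exact (tr_eq hx h n).1⟩

/-- two numbers with integral traces which are very close are equal -/
lemma exact_eq {A B δ : ℝ} (hA : 1 ≤ A) (hB : 1 ≤ B) {S T : ℤ} (hS : A + A⁻¹ = S) (hT : B + B⁻¹ = T)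
    (hd : |Real.log A - Real.log B| ≤ δ) (hδ : 4 * δ * A < 1) : A = B := by
  have hA0 : 0 < A := by linarith
  have hB0 : 0 < B := by linarith
  have hδ0 : 0 ≤ δ := (abs_nonneg _).trans hd
  have hδ1 : δ < 1 := by nlinarith
  have hsmall : |A - B| ≤ 2 * δ * A := by
    have h1 : B = A * Real.exp (Real.log B - Real.log A) := by
      rw [Real.exp_sub, Real.exp_log hA0, Real.exp_log hB0]; field_simp
    have h2 : |Real.log B - Real.log A| ≤ δ := by rw [abs_sub_comm]; exact hd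
    have h3 : |Real.exp (Real.log B - Real.log A) - 1| ≤ 2 * |Real.log B - Real.log A| := by
      apply Real.abs_exp_sub_one_le
      linarith
    have h4 : |A - B| = A * |Real.exp (Real.log B - Real.log A) - 1| := by
      conv_lhs => rw [h1]
      rw [show A - A * Real.exp (Real.log B - Real.log A) = -(A * (Real.exp (Real.log B - Real.log A) - 1)) by ring,
        abs_neg, abs_mul, abs_of_pos hA0]
    rw [h4]
    nlinarith
  have hlt : |A - B| < 1 / 2 := by nlinarith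
  have hinv : |A⁻¹ - B⁻¹| < 1 / 2 := by
    have h1 : A⁻¹ - B⁻¹ = -(A - B) / (A * B) := by field_simp; ring
    rw [h1, abs_div, abs_neg, abs_of_pos (mul_pos hA0 hB0), div_lt_iff₀ (mul_pos hA0 hB0)]
    nlinarith
  have hST : S = T := by
    have h1 : |((S - T : ℤ) : ℝ)| < 1 := by
      push_cast
      rw [← hS, ← hT, show A + A⁻¹ - (B + B⁻¹) = (A - B) + (A⁻¹ - B⁻¹) by ring]
      exact (abs_add_le _ _).trans_lt (by linarith)
    have h2 : |S - T| < 1 := by exact_mod_cast h1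
    have h3 := Int.abs_lt_one_iff.mp h2
    omega
  have h5 : A + A⁻¹ = B + B⁻¹ := by rw [hS, hT, hST]
  have h6 : (A - B) * (A * B - 1) = 0 := by
    have h7 : (A + A⁻¹) * (A * B) = (B + B⁻¹) * (A * B) := by rw [h5]
    have e1 : (A + A⁻¹) * (A * B) = A * A * B + B := by field_simp
    have e2 : (B + B⁻¹) * (A * B) = A * B * B + A := by field_simp
    rw [e1, e2] at h7
    linear_combination h7
  rcases mul_eq_zero.mp h6 with h | h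
  · linarith
  · have h8 : A * B = 1 := by linarith
    have h9 : A = 1 := by nlinarith
    rw [h9] at h8 ⊢
    linarith

/-- the leading constants determine the number -/
lemma nu_eq {a b : ℤ} (ha : 1 ≤ a) (hb : 1 ≤ b) (ha3 : ¬ (3 : ℤ) ∣ a) (hb3 : ¬ (3 : ℤ) ∣ b) {y z : ℕ} (hy : 1 ≤ y)
    (h : (9 * (a : ℝ) ^ 2 / (9 * (a : ℝ) ^ 2 - 4)) ^ y = (9 * (b : ℝ) ^ 2 / (9 * (b : ℝ) ^ 2 - 4)) ^ z) :
    y = z ∧ a = b := by
  have har : (1 : ℝ) ≤ a := by exact_mod_cast ha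
  have hbr : (1 : ℝ) ≤ b := by exact_mod_cast hb
  have hA : (0 : ℝ) < 9 * (a : ℝ) ^ 2 - 4 := by nlinarith
  have hB : (0 : ℝ) < 9 * (b : ℝ) ^ 2 - 4 := by nlinarith
  rw [div_pow, div_pow, div_eq_div_iff (by positivity) (by positivity)] at h
  have h1 : (9 * a ^ 2) ^ y * (9 * b ^ 2 - 4) ^ z = (9 * b ^ 2) ^ z * (9 * a ^ 2 - 4) ^ y := by exact_mod_cast h
  obtain ⟨A, rfl⟩ := Int.eq_ofNat_of_zero_le (by omega : 0 ≤ a)
  obtain ⟨B, rfl⟩ := Int.eq_ofNat_of_zero_le (by omega : 0 ≤ b)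
  have hA1 : 1 ≤ A := by exact_mod_cast ha
  have hB1 : 1 ≤ B := by exact_mod_cast hb
  have hA3 : ¬ 3 ∣ A := by intro h; exact ha3 (by exact_mod_cast h)
  have hB3 : ¬ 3 ∣ B := by intro h; exact hb3 (by exact_mod_cast h)
  obtain ⟨P, hP⟩ : ∃ P : ℕ, 9 * A ^ 2 = P + 4 := ⟨9 * A ^ 2 - 4, by have : 1 ≤ A ^ 2 := Nat.one_le_pow _ _ hA1; omega⟩
  obtain ⟨Q, hQ⟩ : ∃ Q : ℕ, 9 * B ^ 2 = Q + 4 := ⟨9 * B ^ 2 - 4, by have : 1 ≤ B ^ 2 := Nat.one_le_pow _ _ hB1; omega⟩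
  have eP : (9 * (A : ℤ) ^ 2 - 4) = (P : ℤ) := by
    have : (9 * (A : ℤ) ^ 2) = (P : ℤ) + 4 := by exact_mod_cast hP
    rw [this]; ring
  have eQ : (9 * (B : ℤ) ^ 2 - 4) = (Q : ℤ) := by
    have : (9 * (B : ℤ) ^ 2) = (Q : ℤ) + 4 := by exact_mod_cast hQ
    rw [this]; ring
  rw [eP, eQ] at h1
  have h2 : (9 * A ^ 2) ^ y * Q ^ z = (9 * B ^ 2) ^ z * P ^ y := by exact_mod_cast h1
  have hP3 : ¬ 3 ∣ P := by
    intro h; omega
  have hQ3 : ¬ 3 ∣ Q := by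
    intro h; omega
  have hP0 : P ≠ 0 := by rintro rfl; exact hP3 (dvd_zero 3)
  have hQ0 : Q ≠ 0 := by rintro rfl; exact hQ3 (dvd_zero 3)
  have : Fact (Nat.Prime 3) := ⟨Nat.prime_three⟩
  have v9 : ∀ x : ℕ, x ≠ 0 → ¬ 3 ∣ x → ∀ n : ℕ, padicValNat 3 ((9 * x ^ 2) ^ n) = 2 * n := by
    intro x hx h3 n
    rw [padicValNat.pow, padicValNat.mul (by norm_num) (by positivity), padicValNat.pow,
      padicValNat.eq_zero_of_not_dvd h3]
    have : padicValNat 3 9 = 2 := by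
      rw [show (9 : ℕ) = 3 ^ 2 by norm_num, padicValNat.prime_pow]
    rw [this]; ring
  have v0 : ∀ x : ℕ, x ≠ 0 → ¬ 3 ∣ x → ∀ n : ℕ, padicValNat 3 (x ^ n) = 0 := by
    intro x hx h3 n
    rw [padicValNat.pow, padicValNat.eq_zero_of_not_dvd h3, mul_zero]
  have h3 := congrArg (padicValNat 3) h2
  rw [padicValNat.mul (by positivity) (by positivity), padicValNat.mul (by positivity) (by positivity),
    v9 A (by omega) hA3, v9 B (by omega) hB3, v0 Q hQ0 hQ3, v0 P hP0 hP3] at h3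
  have hyz : y = z := by omega
  refine ⟨hyz, ?_⟩
  rw [← hyz, ← mul_pow, ← mul_pow] at h2
  have h4 : 9 * A ^ 2 * Q = 9 * B ^ 2 * P := Nat.pow_left_injective (by omega : y ≠ 0) h2
  have h5 : (9 * (A : ℤ) ^ 2) * (9 * (B : ℤ) ^ 2 - 4) = (9 * (B : ℤ) ^ 2) * (9 * (A : ℤ) ^ 2 - 4) := by
    rw [eP, eQ]; exact_mod_cast h4
  have h6 : (A : ℤ) ^ 2 = (B : ℤ) ^ 2 := by linarith
  have h7 : A ^ 2 = B ^ 2 := by exact_mod_cast h6
  have h8 : A = B := Nat.pow_left_injective (by norm_num : (2 : ℕ) ≠ 0) h7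
  rw [h8]

/-! ### pairs of conjugate numbers -/

/-- the pair `(z, w)` is `(p + q L, p + q / L)` with rational `p`, `q` -/
def Qp (L : ℝ) (z w : ℝ) : Prop := ∃ p q : ℚ, z = p + q * L ∧ w = p + q * L⁻¹

lemma Qp.mul {L : ℝ} (hL : L ≠ 0) {t : ℤ} (ht : L + L⁻¹ = t) {z w z' w' : ℝ} (h : Qp L z w) (h' : Qp L z' w') :
    Qp L (z * z') (w * w') := by
  obtain ⟨p, q, rfl, rfl⟩ := h
  obtain ⟨p', q', rfl, rfl⟩ := h'
  have hLL : L * L⁻¹ = 1 := mul_inv_cancel₀ hL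
  have h1 : L * L = t * L - 1 := by rw [← ht]; linear_combination (-1 : ℝ) * hLL
  have h2 : L⁻¹ * L⁻¹ = t * L⁻¹ - 1 := by rw [← ht]; linear_combination (-1 : ℝ) * hLL
  refine ⟨p * p' - q * q', p * q' + q * p' + t * (q * q'), ?_, ?_⟩
  · push_cast
    linear_combination ((q : ℝ) * q') * h1
  · push_cast
    linear_combination ((q : ℝ) * q') * h2

lemma Qp.swap {L : ℝ} {t : ℤ} (ht : L + L⁻¹ = t) {z w : ℝ} (h : Qp L z w) : Qp L w z := by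
  obtain ⟨p, q, rfl, rfl⟩ := h
  refine ⟨p + t * q, -q, ?_, ?_⟩
  · push_cast; rw [← ht]; ring
  · push_cast; rw [← ht]; ring

lemma Qp.smul {L : ℝ} {z w : ℝ} (h : Qp L z w) (c : ℚ) : Qp L (c * z) (c * w) := by
  obtain ⟨p, q, rfl, rfl⟩ := h
  exact ⟨c * p, c * q, by push_cast; ring, by push_cast; ring⟩

lemma Qp.trace {L : ℝ} {t : ℤ} (ht : L + L⁻¹ = t) {z w : ℝ} (h : Qp L z w) : ∃ r : ℚ, z + w = r := by
  obtain ⟨p, q, rfl, rfl⟩ := h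
  refine ⟨2 * p + t * q, ?_⟩
  push_cast; rw [← ht]; ring

lemma Qp.one (L : ℝ) : Qp L 1 1 := ⟨1, 0, by push_cast; ring, by push_cast; ring⟩

lemma Qp.self (L : ℝ) : Qp L L L⁻¹ := ⟨0, 1, by push_cast; ring, by push_cast; ring⟩

lemma Qp.pow {L : ℝ} (hL : L ≠ 0) {t : ℤ} (ht : L + L⁻¹ = t) {z : ℝ} (h : Qp L z z⁻¹) (n : ℕ) :
    Qp L (z ^ n) (z ^ n)⁻¹ := by
  induction n with
  | zero => simpa using Qp.one L
  | succ n ih =>
    rw [pow_succ, mul_inv]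
    exact ih.mul hL ht h

lemma Qp.zpow {L : ℝ} (hL : L ≠ 0) {t : ℤ} (ht : L + L⁻¹ = t) {z : ℝ} (h : Qp L z z⁻¹) (n : ℤ) :
    Qp L (z ^ n) (z ^ n)⁻¹ := by
  obtain ⟨m, rfl | rfl⟩ := n.eq_nat_or_neg
  · rw [zpow_natCast]; exact h.pow hL ht m
  · rw [zpow_neg, zpow_natCast, inv_inv]; exact (h.pow hL ht m).swap ht

/-- the sequence `u 0 = 0`, `u 1 = 1`, `u (n + 2) = d u (n + 1) - u n` -/
def us (d : ℤ) : ℕ → ℤ
  | 0 => 0
  | 1 => 1
  | (n + 2) => d * us d (n + 1) - us d n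

lemma us_eq {x : ℝ} (hx : x ≠ 0) {d : ℤ} (h : x + x⁻¹ = d) : ∀ n : ℕ,
    (us d n : ℝ) * (x - x⁻¹) = x ^ n - x⁻¹ ^ n ∧ (us d (n + 1) : ℝ) * (x - x⁻¹) = x ^ (n + 1) - x⁻¹ ^ (n + 1) := by
  intro n
  induction n with
  | zero =>
    refine ⟨by simp [us], by simp [us]⟩
  | succ n ih =>
    obtain ⟨i1, i2⟩ := ih
    refine ⟨i2, ?_⟩
    show (((d * us d (n + 1) - us d n : ℤ)) : ℝ) * _ = _
    push_cast
    have hxx : x * x⁻¹ = 1 := mul_inv_cancel₀ hx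
    have e1 : x ^ (n + 1 + 1) = x * (x * x ^ n) := by ring
    have e2 : x⁻¹ ^ (n + 1 + 1) = x⁻¹ * (x⁻¹ * x⁻¹ ^ n) := by ring
    have e3 : x ^ (n + 1) = x * x ^ n := by ring
    have e4 : x⁻¹ ^ (n + 1) = x⁻¹ * x⁻¹ ^ n := by ring
    rw [e1, e2]
    rw [e3, e4] at i2
    rw [← h]
    linear_combination (x + x⁻¹) * i2 - i1 + (x ^ n - x⁻¹ ^ n) * hxx

lemma us_mono {d : ℤ} (hd : 3 ≤ d) : ∀ n : ℕ, 0 ≤ us d n ∧ us d n < us d (n + 1) ∧ (1 ≤ n → 2 * us d n < us d (n + 1)) := by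
  intro n
  induction n with
  | zero => exact ⟨le_refl _, by simp [us], by omega⟩
  | succ n ih =>
    obtain ⟨i1, i2, i3⟩ := ih
    have e : us d (n + 1 + 1) = d * us d (n + 1) - us d n := rfl
    have h1 : 3 * us d (n + 1) ≤ d * us d (n + 1) := by nlinarith
    refine ⟨by omega, by rw [e]; omega, fun _ => by rw [e]; omega⟩

lemma us_mono' {d : ℤ} (hd : 3 ≤ d) {j y : ℕ} (hj : 1 ≤ j) (h : j < y) : 2 * us d j < us d y := by
  obtain ⟨k, rfl⟩ := Nat.exists_eq_add_of_lt h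
  have h1 := (us_mono hd j).2.2 hj
  have h2 : us d (j + 1) ≤ us d (j + k + 1) := by
    clear h
    induction k with
    | zero => exact le_refl _
    | succ k ih => exact ih.trans (us_mono hd (j + k + 1)).2.1.le
  linarith

/-- the final step in integers -/
lemma int_end {a d m w U W : ℤ} (hDU : 9 * a ^ 2 - 4 = U ^ 2 * (d ^ 2 - 4))
    (h2 : (W ^ 2 * (3 * m) ^ 2 - d * W * (3 * m) * w + w ^ 2) * U ^ 2 = -(3 * a * W) ^ 2) : U ∣ 2 * W := by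
  have hdvd : U ^ 2 ∣ (3 * a * W) ^ 2 := by
    rw [← dvd_neg, ← h2]
    exact dvd_mul_left _ _
  have hdvd2 : U ∣ 3 * a * W := (Int.pow_dvd_pow_iff (by norm_num)).mp hdvd
  have hg2 : (Int.gcd U (3 * a) : ℤ) ∣ 2 := by
    have h2 : (Int.gcd U (3 * a) : ℤ) ^ 2 ∣ 2 ^ 2 := by
      have h3 : (Int.gcd U (3 * a) : ℤ) ^ 2 ∣ U ^ 2 := pow_dvd_pow_of_dvd (Int.gcd_dvd_left ..) 2
      have h4 : (Int.gcd U (3 * a) : ℤ) ^ 2 ∣ (3 * a) ^ 2 := pow_dvd_pow_of_dvd (Int.gcd_dvd_right ..) 2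
      have h5 : (2 : ℤ) ^ 2 = (3 * a) ^ 2 - U ^ 2 * (d ^ 2 - 4) := by rw [← hDU]; ring
      rw [h5]
      exact dvd_sub h4 (Dvd.dvd.mul_right h3 _)
    exact (Int.pow_dvd_pow_iff (by norm_num)).mp h2
  have h2 : U ∣ (Int.gcd U (3 * a) : ℤ) * W := by
    have h3 : (Int.gcd U (3 * a) : ℤ) = U * Int.gcdA U (3 * a) + 3 * a * Int.gcdB U (3 * a) := Int.gcd_eq_gcd_ab _ _
    rw [h3]
    have h4 : (U * Int.gcdA U (3 * a) + 3 * a * Int.gcdB U (3 * a)) * W =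
      U * (Int.gcdA U (3 * a) * W) + (3 * a * W) * Int.gcdB U (3 * a) := by ring
    rw [h4]
    exact dvd_add (dvd_mul_right _ _) (Dvd.dvd.mul_right hdvd2 _)
  obtain ⟨c, hc⟩ := hg2
  have h3 : (2 : ℤ) * W = ((Int.gcd U (3 * a) : ℤ) * W) * c := by
    calc (2 : ℤ) * W = ((Int.gcd U (3 * a) : ℤ) * c) * W := by rw [← hc]
      _ = _ := by ring
  rw [h3]
  exact Dvd.dvd.mul_right h2 _

lemma alg1 {η E P R X V W u : ℝ} (hηη : η * E = 1) (uj : W * (η - E) = P * η - R * E) (uj0 : u * (η - E) = P - R)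
    (hs : η - E ≠ 0) : W * (η * X + E * V) = (P * η * X + R * E * V) + u * (X + V) := by
  have e2 : (W * (η * X + E * V)) * (η - E) = ((P * η * X + R * E * V) + u * (X + V)) * (η - E) := by
    linear_combination (η * X + E * V) * uj - (X + V) * uj0 + ((P - R) * (X + V)) * hηη
  exact mul_right_cancel₀ hs e2

lemma alg2 {η E X V : ℝ} (hηη : η * E = 1) :
    (X + V) ^ 2 - (η + E) * (X + V) * (η * X + E * V) + (η * X + E * V) ^ 2 = (4 - (η + E) ^ 2) * (X * V) := by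
  linear_combination (-(X ^ 2 + V ^ 2) + 2 * (X * V)) * hηη

lemma alg3 {m w d W a U ν q : ℝ} (hD : 9 * a ^ 2 - 4 = U ^ 2 * (d ^ 2 - 4)) (hU : U ^ 2 ≠ 0) (hd : d ^ 2 - 4 ≠ 0)
    (hν : ν = 9 * a ^ 2 / (9 * a ^ 2 - 4)) (hw : W * q = w)
    (hq : (3 * m) ^ 2 - d * (3 * m) * q + q ^ 2 = (4 - d ^ 2) * ν) :
    (W ^ 2 * (3 * m) ^ 2 - d * W * (3 * m) * w + w ^ 2) * U ^ 2 = -(3 * a * W) ^ 2 := by
  have h1 : W ^ 2 * (3 * m) ^ 2 - d * W * (3 * m) * w + w ^ 2 = W ^ 2 * ((4 - d ^ 2) * ν) := by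
    rw [← hw, ← hq]; ring
  have hU' : U ≠ 0 := by
    intro h; exact hU (by rw [h]; ring)
  rw [h1, hν, hD]
  field_simp
  ring

/-- the key contradiction, in terms of the root `η` -/
lemma frac_key {a : ℤ} (ha : 1 ≤ a) {L : ℝ} (hL : 1 < L) (hLa : L + L⁻¹ = ((3 * a : ℤ) : ℝ)) {ν : ℝ}
    (hν : ν = 9 * (a : ℝ) ^ 2 / (9 * (a : ℝ) ^ 2 - 4)) {X V X' V' η : ℝ}
    (hV : X * V = ν) {m m' : ℤ} (h0 : X + V = ((3 * m : ℤ) : ℝ))
    (h0' : X' + V' = ((3 * m' : ℤ) : ℝ)) {i0 y : ℕ} (hjy : i0 + 1 < y) (hη1 : 1 < η) (hηy : η ^ y = L)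
    (hXX : X' = η ^ i0 * η * X) (hVV : V' = η⁻¹ ^ i0 * η⁻¹ * V) {d : ℤ} (hηd : η + η⁻¹ = (d : ℝ)) : False := by
  have hη0 : 0 < η := by linarith
  have hηη : η * η⁻¹ = 1 := mul_inv_cancel₀ hη0.ne'
  have har : (1 : ℝ) ≤ a := by exact_mod_cast ha
  have hD0 : (0 : ℝ) < 9 * (a : ℝ) ^ 2 - 4 := by nlinarith
  have hL0 : 0 < L := by linarith
  have hd3 : 3 ≤ d := by
    have h1 : (2 : ℝ) < d := by
      rw [← hηd]
      have h2 : 0 < (η - 1) ^ 2 := by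
        have : 0 < η - 1 := by linarith
        positivity
      have h3 : 0 < η⁻¹ := by positivity
      have h4 : η + η⁻¹ - 2 = (η - 1) ^ 2 * η⁻¹ := by
        have : (η - 1) ^ 2 * η⁻¹ = η * (η * η⁻¹) - 2 * (η * η⁻¹) + η⁻¹ := by ring
        rw [this, hηη]; ring
      nlinarith [mul_pos h2 h3]
    have h2 : (2 : ℤ) < d := by exact_mod_cast h1
    omega
  have hu := us_mono' hd3 (by omega : 1 ≤ i0 + 1) hjy
  have uj := (us_eq hη0.ne' hηd i0).2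
  have uy := (us_eq hη0.ne' hηd y).1
  have uj0 := (us_eq hη0.ne' hηd i0).1
  have hW0 : 0 < us d (i0 + 1) := by
    have := us_mono hd3 i0
    omega
  have hsη : 0 < η - η⁻¹ := by
    have : η⁻¹ < 1 := inv_lt_one_of_one_lt₀ hη1
    linarith
  have hηηsq : (η - η⁻¹) ^ 2 = (d : ℝ) ^ 2 - 4 := by
    have e : (η - η⁻¹) ^ 2 = (η + η⁻¹) ^ 2 - 4 * (η * η⁻¹) := by ring
    rw [e, hηη, hηd]; ring
  have hLL : L * L⁻¹ = 1 := mul_inv_cancel₀ hL0.ne'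
  have hsq : (L - L⁻¹) ^ 2 = 9 * (a : ℝ) ^ 2 - 4 := by
    have e : (L - L⁻¹) ^ 2 = (L + L⁻¹) ^ 2 - 4 * (L * L⁻¹) := by ring
    rw [e, hLL, hLa]; push_cast; ring
  have hDU : 9 * (a : ℝ) ^ 2 - 4 = (us d y : ℝ) ^ 2 * ((d : ℝ) ^ 2 - 4) := by
    rw [← hsq, ← hηηsq, ← mul_pow, uy, hηy, inv_pow, hηy]
  have hd4 : (0 : ℝ) < (d : ℝ) ^ 2 - 4 := by
    have : (3 : ℝ) ≤ d := by exact_mod_cast hd3
    nlinarith
  have hUpos : (us d y : ℝ) ^ 2 ≠ 0 := by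
    intro h
    rw [h, zero_mul] at hDU
    linarith
  rw [pow_succ, pow_succ] at uj
  have hw := alg1 (X := X) (V := V) hηη uj uj0 hsη.ne'
  rw [← hXX, ← hVV, h0', h0] at hw
  have hq := alg2 (X := X) (V := V) hηη
  rw [hηd, hV, h0] at hq
  push_cast at hq hw
  have h3 := alg3 (w := ((3 * m' + us d i0 * (3 * m) : ℤ) : ℝ)) hDU hUpos hd4.ne' hν (by rw [hw]; push_cast; ring) hq
  have h4 := int_end (a := a) (d := d) (m := m) (w := 3 * m' + us d i0 * (3 * m)) (U := us d y) (W := us d (i0 + 1))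
    (by exact_mod_cast hDU) (by exact_mod_cast h3)
  have h9 := Int.le_of_dvd (by omega) h4
  omega

lemma conj_pair {a : ℤ} (ha : 1 ≤ a) {L : ℝ} (hL : 1 < L) (hLa : L + L⁻¹ = ((3 * a : ℤ) : ℝ)) {X V : ℝ} {m m1 : ℤ}
    (h0 : X + V = ((3 * m : ℤ) : ℝ)) (h1 : L * X + L⁻¹ * V = ((3 * m1 : ℤ) : ℝ)) : Qp L X V := by
  have hL0 : 0 < L := by linarith
  have hLne : L ≠ 0 := hL0.ne'
  have hLL : L * L⁻¹ = 1 := mul_inv_cancel₀ hLne
  have har : (1 : ℝ) ≤ a := by exact_mod_cast ha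
  have hD0 : (0 : ℝ) < 9 * (a : ℝ) ^ 2 - 4 := by nlinarith
  have hsq : (L - L⁻¹) ^ 2 = 9 * (a : ℝ) ^ 2 - 4 := by
    have e : (L - L⁻¹) ^ 2 = (L + L⁻¹) ^ 2 - 4 * (L * L⁻¹) := by ring
    rw [e, hLL, hLa]; push_cast; ring
  have hsD : 0 < L - L⁻¹ := by
    have : L⁻¹ < 1 := inv_lt_one_of_one_lt₀ hL
    linarith
  have q1 : Qp L (3 * m1 - 9 * a * m + 3 * m * L) (3 * m1 - 9 * a * m + 3 * m * L⁻¹) :=
    ⟨3 * m1 - 9 * a * m, 3 * m, by push_cast; ring, by push_cast; ring⟩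
  have q2 : Qp L (-(3 * a) + 2 * L) (-(3 * a) + 2 * L⁻¹) := ⟨-(3 * a), 2, by push_cast; ring, by push_cast; ring⟩
  have q3 := (q1.mul hLne hLa q2).smul (1 / (9 * (a : ℚ) ^ 2 - 4))
  push_cast at q3 h0 h1 hLa
  have e3 : 3 * (a : ℝ) = L + L⁻¹ := hLa.symm
  have e1 : X = 1 / (9 * (a : ℝ) ^ 2 - 4) * ((3 * m1 - 9 * a * m + 3 * m * L) * (-(3 * a) + 2 * L)) := by
    rw [← hsq, eq_comm, div_mul_eq_mul_div, one_mul, div_eq_iff (by positivity)]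
    have e4 : 3 * (m1 : ℝ) - 9 * a * m + 3 * m * L = (L - L⁻¹) * X := by
      have : (9 : ℝ) * a * m = (3 * a) * (3 * m) := by ring
      rw [this, e3, ← h0, ← h1]; ring
    have e5 : -(3 * (a : ℝ)) + 2 * L = L - L⁻¹ := by rw [e3]; ring
    rw [e4, e5]; ring
  have e2 : V = 1 / (9 * (a : ℝ) ^ 2 - 4) * ((3 * m1 - 9 * a * m + 3 * m * L⁻¹) * (-(3 * a) + 2 * L⁻¹)) := by
    rw [← hsq, eq_comm, div_mul_eq_mul_div, one_mul, div_eq_iff (by positivity)]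
    have e4 : 3 * (m1 : ℝ) - 9 * a * m + 3 * m * L⁻¹ = -(L - L⁻¹) * V := by
      have : (9 : ℝ) * a * m = (3 * a) * (3 * m) := by ring
      rw [this, e3, ← h0, ← h1]; ring
    have e5 : -(3 * (a : ℝ)) + 2 * L⁻¹ = -(L - L⁻¹) := by rw [e3]; ring
    rw [e4, e5]; ring
  rw [← e1, ← e2] at q3
  exact q3

lemma unit_integral {L : ℝ} {t : ℤ} (hLL : L * L⁻¹ = 1) (hLa : L + L⁻¹ = (t : ℝ)) : IsIntegral ℤ L ∧ IsIntegral ℤ L⁻¹ := by
  have hm : (Polynomial.X ^ 2 - Polynomial.C t * Polynomial.X + 1 : Polynomial ℤ).Monic := by monicity!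
  have e : (algebraMap ℤ ℝ) t = (t : ℝ) := rfl
  refine ⟨⟨Polynomial.X ^ 2 - Polynomial.C t * Polynomial.X + 1, hm, ?_⟩,
    ⟨Polynomial.X ^ 2 - Polynomial.C t * Polynomial.X + 1, hm, ?_⟩⟩
  · simp only [Polynomial.eval₂_add, Polynomial.eval₂_sub, Polynomial.eval₂_mul, Polynomial.eval₂_pow,
      Polynomial.eval₂_X, Polynomial.eval₂_C, Polynomial.eval₂_one]
    rw [e, ← hLa]
    linear_combination (-1 : ℝ) * hLL
  · simp only [Polynomial.eval₂_add, Polynomial.eval₂_sub, Polynomial.eval₂_mul, Polynomial.eval₂_pow,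
      Polynomial.eval₂_X, Polynomial.eval₂_C, Polynomial.eval₂_one]
    rw [e, ← hLa]
    linear_combination (-1 : ℝ) * hLL

/-- existence of the root -/
lemma root_exists {L ξ : ℝ} (hL : 1 < L) {t : ℤ} (hLa : L + L⁻¹ = (t : ℝ)) (hξ0 : 0 < ξ) (qξ : Qp L ξ ξ⁻¹) {y j : ℕ}
    (hj : 1 ≤ j) (hjy : j < y) (hξy : ξ ^ y = L ^ j) : ∃ (η : ℝ) (d : ℤ) (i0 y1 : ℕ), 1 < η ∧ i0 + 1 < y1 ∧
      η ^ y1 = L ∧ η ^ i0 * η = ξ ∧ η + η⁻¹ = (d : ℝ) := by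
  have hL0 : 0 < L := by linarith
  have hLne : L ≠ 0 := hL0.ne'
  have hLL : L * L⁻¹ = 1 := mul_inv_cancel₀ hLne
  obtain ⟨g, hg⟩ : ∃ g, g = Nat.gcd j y := ⟨_, rfl⟩
  have hg0 : 0 < g := by rw [hg]; exact Nat.gcd_pos_of_pos_left _ hj
  obtain ⟨j1, hj1⟩ : g ∣ j := by rw [hg]; exact Nat.gcd_dvd_left _ _
  obtain ⟨y1, hy1⟩ : g ∣ y := by rw [hg]; exact Nat.gcd_dvd_right _ _
  have hcop : Nat.gcd j1 y1 = 1 := by
    have h1 := Nat.coprime_div_gcd_div_gcd (m := j) (n := y) (by rw [← hg]; exact hg0)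
    rw [← hg, hj1, hy1, Nat.mul_div_cancel_left _ hg0, Nat.mul_div_cancel_left _ hg0] at h1
    exact h1
  have hj1p : 1 ≤ j1 := by
    rcases Nat.eq_zero_or_pos j1 with h | h
    · rw [h, mul_zero] at hj1; omega
    · exact h
  have hjy1 : j1 < y1 := by
    rw [hj1, hy1] at hjy
    exact lt_of_mul_lt_mul_left hjy (by omega)
  have hξy1 : ξ ^ y1 = L ^ j1 := by
    have h1 : (ξ ^ y1) ^ g = (L ^ j1) ^ g := by
      rw [← pow_mul, ← pow_mul, mul_comm y1, mul_comm j1, ← hj1, ← hy1]; exact hξy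
    exact (pow_left_inj₀ (by positivity) (by positivity) hg0.ne').mp h1
  obtain ⟨s, r, hsr⟩ : ∃ s r : ℤ, s * j1 + r * y1 = 1 := by
    have h1 := Nat.gcd_eq_gcd_ab j1 y1
    rw [hcop] at h1
    refine ⟨Nat.gcdA j1 y1, Nat.gcdB j1 y1, ?_⟩
    push_cast at h1
    linarith
  have hξz : ξ ^ (y1 : ℤ) = L ^ (j1 : ℤ) := by rw [zpow_natCast, zpow_natCast]; exact hξy1
  obtain ⟨η, hη⟩ : ∃ η : ℝ, η = ξ ^ s * L ^ r := ⟨_, rfl⟩
  have hη0 : 0 < η := by rw [hη]; positivity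
  have hηy : η ^ y1 = L := by
    have h1 : η ^ (y1 : ℤ) = L := by
      rw [hη, mul_zpow, ← zpow_mul, ← zpow_mul, mul_comm s (y1 : ℤ), zpow_mul, hξz, ← zpow_mul, ← zpow_add₀ hLne]
      have : (j1 : ℤ) * s + r * y1 = 1 := by linarith
      rw [this, zpow_one]
    rwa [zpow_natCast] at h1
  have hηj : η ^ j1 = ξ := by
    have h1 : η ^ (j1 : ℤ) = ξ := by
      rw [hη, mul_zpow, ← zpow_mul, ← zpow_mul, mul_comm r (j1 : ℤ), zpow_mul L, ← hξz, ← zpow_mul, ← zpow_add₀ hξ0.ne']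
      have : s * (j1 : ℤ) + (y1 : ℤ) * r = 1 := by linarith
      rw [this, zpow_one]
    rwa [zpow_natCast] at h1
  have hη1 : 1 < η := by
    by_contra hcon
    push Not at hcon
    have : η ^ y1 ≤ 1 := pow_le_one₀ hη0.le hcon
    rw [hηy] at this
    linarith
  have qη : Qp L η η⁻¹ := by
    have q1 := (qξ.zpow hLne hLa s).mul hLne hLa ((Qp.self L).zpow hLne hLa r)
    rw [← mul_inv, ← hη] at q1
    exact q1
  obtain ⟨dq, hdq⟩ := qη.trace hLa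
  obtain ⟨hint, hint'⟩ := unit_integral hLL hLa
  have hy1p : 0 < y1 := by omega
  have iη : IsIntegral ℤ η := IsIntegral.of_pow hy1p (by rw [hηy]; exact hint)
  have iη' : IsIntegral ℤ η⁻¹ := IsIntegral.of_pow hy1p (by rw [inv_pow, hηy]; exact hint')
  have id1 : IsIntegral ℤ ((dq : ℚ) : ℝ) := by rw [← hdq]; exact iη.add iη'
  have id2 : IsIntegral ℤ dq := by
    have e : ((dq : ℚ) : ℝ) = algebraMap ℚ ℝ dq := rfl
    rw [e] at id1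
    exact (isIntegral_algebraMap_iff (algebraMap ℚ ℝ).injective).mp id1
  obtain ⟨d, hd⟩ := IsIntegrallyClosed.isIntegral_iff.mp id2
  obtain ⟨i0, hi0⟩ : ∃ i0, j1 = i0 + 1 := ⟨j1 - 1, by omega⟩
  refine ⟨η, d, i0, y1, hη1, by omega, hηy, ?_, ?_⟩
  · rw [← pow_succ, ← hi0]; exact hηj
  · rw [hdq, ← hd]; simp

/-- The arithmetic lemma: two numbers attached to chains of the same Markov number cannot differ by a proper
fractional power of the unit. -/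
theorem frac_power {a : ℤ} (ha : 1 ≤ a) {L : ℝ} (hL : 1 < L) (hLa : L + L⁻¹ = ((3 * a : ℤ) : ℝ)) {ν : ℝ}
    (hν : ν = 9 * (a : ℝ) ^ 2 / (9 * (a : ℝ) ^ 2 - 4)) {X V X' V' : ℝ} (hX : 0 < X) (hX' : 0 < X')
    (hV : X * V = ν) (hV' : X' * V' = ν) {m m1 m' m1' : ℤ} (h0 : X + V = ((3 * m : ℤ) : ℝ))
    (h1 : L * X + L⁻¹ * V = ((3 * m1 : ℤ) : ℝ)) (h0' : X' + V' = ((3 * m' : ℤ) : ℝ))
    (h1' : L * X' + L⁻¹ * V' = ((3 * m1' : ℤ) : ℝ)) {y j : ℕ} (hjy : j < y) (h : X' ^ y = X ^ y * L ^ j) : j = 0 := by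
  by_contra hj0
  have hj : 1 ≤ j := by omega
  have hL0 : 0 < L := by linarith
  have hLne : L ≠ 0 := hL0.ne'
  have har : (1 : ℝ) ≤ a := by exact_mod_cast ha
  have hD0 : (0 : ℝ) < 9 * (a : ℝ) ^ 2 - 4 := by nlinarith
  have hν0 : 0 < ν := by rw [hν]; positivity
  have qX := conj_pair ha hL hLa h0 h1
  have qX' := conj_pair ha hL hLa h0' h1'
  have hV0 : V = ν / X := by rw [← hV]; field_simp
  have hV0' : V' = ν / X' := by rw [← hV']; field_simp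
  have qξ : Qp L (X' / X) (X' / X)⁻¹ := by
    obtain ⟨c, hc⟩ : ∃ c : ℚ, (c : ℝ) = 1 / ν := ⟨(9 * (a : ℚ) ^ 2 - 4) / (9 * (a : ℚ) ^ 2), by
      rw [hν]; push_cast; rw [one_div_div]⟩
    have q1 := (qX'.mul hLne hLa (qX.swap hLa)).smul c
    have e1 : (c : ℝ) * (X' * V) = X' / X := by rw [hc, hV0]; field_simp
    have e2 : (c : ℝ) * (V' * X) = (X' / X)⁻¹ := by rw [hc, hV0']; field_simp
    rw [e1, e2] at q1
    exact q1
  have hξy : (X' / X) ^ y = L ^ j := by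
    rw [div_pow, h]; field_simp
  obtain ⟨η, d, i0, y1, hη1, hi, hηy, hηξ, hηd⟩ := root_exists hL hLa (by positivity) qξ hj hjy hξy
  have hη0 : 0 < η := by linarith
  refine frac_key ha hL hLa hν hV h0 h0' hi hη1 hηy ?_ ?_ hηd
  · rw [hηξ]; field_simp
  · rw [inv_pow, ← mul_inv, hηξ, hV0, hV0']; field_simp

end

end Pool.Agent.Q185.ML
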