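import Mathlib
import Pool.Agent.H253MB.MBChain
import Pool.Agent.Q185.ML.Arith

/-! The values along a line of words are Laurent polynomials in the powers of a quadratic unit. -/

set_option autoImplicit false

namespace Pool.Agent.Q185.ML

open Pool.Agent.H499R2 Pool.Agent.H609R3.MB Pool.Agent.H253MB Polynomial

noncomputable section

/-- the region which is kept by the letter `c` -/
def fa (c : Bool) (X : Nd) : ℤ := if c then X.a else X.b
/-- the other region -/
def ob (c : Bool) (X : Nd) : ℤ := if c then X.b else X.a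
/-- letters relative to `c` -/
def rel (c : Bool) (t : List Bool) : List Bool := t.map (fun e => e == c)
/-- the coordinate along the kept region -/
def off (c : Bool) (t : List Bool) : ℕ := if c then (pt t).1 else (pt t).2
/-- the level -/
def lvl (c : Bool) (t : List Bool) : ℕ := if c then (pt t).2 else (pt t).1

/-- the recursion of the triples -/
def ev (f o C : ℝ) : List Bool → ℝ × ℝ × ℝ
  | [] => (f, o, C)
  | true :: t => ev f C (3 * f * C - o) t
  | false :: t => ev C o (3 * o * C - f) t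

lemma ev_eq (c : Bool) (t : List Bool) : ∀ X : Nd,
    ev (fa c X) (ob c X) X.c (rel c t) = ((fa c (desc X t) : ℝ), (ob c (desc X t) : ℝ), ((desc X t).c : ℝ)) := by
  induction t with
  | nil => intro X; rfl
  | cons e t ih =>
    intro X
    cases c <;> cases e
    · have h := ih (rt X)
      simp only [rel, List.map_cons, desc]
      rw [← h]
      simp only [rel, fa, ob, H499R2.rt, ev, beq_self_eq_true, Bool.false_eq_true, if_false]
      push_cast
      rfl
    · have h := ih (lf X)
      simp only [rel, List.map_cons, desc]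
      rw [← h]
      simp only [rel, fa, ob, H499R2.lf, Bool.false_eq_true, if_false]
      push_cast
      rfl
    · have h := ih (rt X)
      simp only [rel, List.map_cons, desc]
      rw [← h]
      simp only [rel, fa, ob, H499R2.rt, if_true]
      push_cast
      rfl
    · have h := ih (lf X)
      simp only [rel, List.map_cons, desc]
      rw [← h]
      simp only [rel, fa, ob, H499R2.lf, if_true]
      push_cast
      rfl

lemma pt_rel (c : Bool) (t : List Bool) : pt (rel c t) = (off c t, lvl c t) := by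
  induction t with
  | nil => cases c <;> rfl
  | cons e t ih =>
    have h1 : (pt (rel c t)).1 = off c t := by rw [ih]
    have h2 : (pt (rel c t)).2 = lvl c t := by rw [ih]
    cases c <;> cases e <;> simp only [off, lvl, Bool.false_eq_true, if_false, if_true] at h1 h2 <;>
      simp only [rel, List.map_cons, off, lvl, pt, Bool.false_eq_true, if_false, if_true] at h1 h2 ⊢
    · show pt (true :: _) = _
      simp only [pt]; rw [h1, h2]
      ext <;> simp only [] ; omega
    · show pt (false :: _) = _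
      simp only [pt]; rw [h1, h2]
      ext <;> simp only [] ; omega
    · show pt (false :: _) = _
      simp only [pt]; rw [h1, h2]
    · show pt (true :: _) = _
      simp only [pt]; rw [h1, h2]

/-- weak polynomial representation -/
def PW (F : ℝ → ℝ) (β : ℕ) (Q : ℝ[X]) : Prop := Q.natDegree ≤ β ∧ ∀ x : ℝ, x ≠ 0 → 3 * F x * x ^ β = Q.eval (x ^ 2)

/-- polynomial representation with its extreme coefficients -/
def PR (K K' L : ℝ) (F : ℝ → ℝ) (α β : ℕ) : Prop := ∃ Q : ℝ[X], PW F β Q ∧ Q.coeff β = K ^ β * L ^ α ∧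
  Q.coeff 0 = K' ^ β * L⁻¹ ^ α

lemma PR_step {K K' L : ℝ} {A B C : ℝ → ℝ} {α β α' β' : ℕ} (hβ : 1 ≤ β) {Q : ℝ[X]}
    (hA : PR K K' L A α β) (hB : PW B β' Q) (hC : PR K K' L C (α + α') (β + β')) :
    PR K K' L (fun x => 3 * A x * C x - B x) (2 * α + α') (2 * β + β') := by
  obtain ⟨QA, ⟨dA, eA⟩, tA, zA⟩ := hA
  obtain ⟨QC, ⟨dC, eC⟩, tC, zC⟩ := hC
  obtain ⟨dB, eB⟩ := hB
  have e1 : 2 * β + β' = β + (β + β') := by ring
  have e2 : 2 * α + α' = α + (α + α') := by ring
  refine ⟨QA * QC - X ^ β * Q, ⟨?_, ?_⟩, ?_, ?_⟩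
  · refine (natDegree_sub_le _ _).trans (max_le ?_ ?_)
    · rw [e1]; exact natDegree_mul_le.trans (add_le_add dA dC)
    · refine natDegree_mul_le.trans ?_
      rw [natDegree_X_pow]; omega
  · intro x hx
    rw [eval_sub, eval_mul, eval_mul, eval_pow, eval_X, ← eA x hx, ← eC x hx, ← eB x hx, e1]
    ring
  · rw [coeff_sub, e1, coeff_mul_add_eq_of_natDegree_le dA dC, tA, tC, coeff_X_pow_mul', if_pos (by omega),
      coeff_eq_zero_of_natDegree_lt (by omega), sub_zero, e2]
    ring
  · rw [coeff_sub, mul_coeff_zero, zA, zC, coeff_X_pow_mul', if_neg (by omega), sub_zero, e1, e2]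
    ring

lemma PR_const {K K' L : ℝ} (hL : L * L⁻¹ = 1) {f B C : ℝ → ℝ} {α β : ℕ} (hf : ∀ x, 3 * f x = L + L⁻¹)
    (hB : PR K K' L B α β) (hC : PR K K' L C (1 + α) (0 + β)) :
    PR K K' L (fun x => 3 * f x * C x - B x) (2 + α) β := by
  rw [zero_add] at hC
  obtain ⟨QB, ⟨dB, eB⟩, tB, zB⟩ := hB
  obtain ⟨QC, ⟨dC, eC⟩, tC, zC⟩ := hC
  refine ⟨Polynomial.C (L + L⁻¹) * QC - QB, ⟨?_, ?_⟩, ?_, ?_⟩
  · refine (natDegree_sub_le _ _).trans (max_le ?_ dB)
    exact (natDegree_C_mul_le _ _).trans dC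
  · intro x hx
    rw [eval_sub, eval_mul, eval_C, ← eC x hx, ← eB x hx]
    rw [← hf x]; ring
  · rw [coeff_sub, coeff_C_mul, tC, tB]
    have e1 : L ^ (1 + α) = L * L ^ α := by ring
    have e2 : L ^ (2 + α) = L * (L * L ^ α) := by ring
    rw [e1, e2]
    linear_combination (K ^ β * L ^ α) * hL
  · rw [coeff_sub, coeff_C_mul, zC, zB]
    have e1 : L⁻¹ ^ (1 + α) = L⁻¹ * L⁻¹ ^ α := by ring
    have e2 : L⁻¹ ^ (2 + α) = L⁻¹ * (L⁻¹ * L⁻¹ ^ α) := by ring
    rw [e1, e2]
    linear_combination (K' ^ β * L⁻¹ ^ α) * hL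

theorem poly_ev {K K' L : ℝ} (hL : L * L⁻¹ = 1) (t : List Bool) : ∀ (f o C : ℝ → ℝ) (α1 β1 α2 β2 : ℕ), 1 ≤ β2 →
    PR K K' L o α2 β2 → PR K K' L C (α1 + α2) (β1 + β2) →
    ((β1 = 0 ∧ α1 = 1 ∧ ∀ x, 3 * f x = L + L⁻¹) ∨ (1 ≤ β1 ∧ PR K K' L f α1 β1)) →
    PR K K' L (fun x => (ev (f x) (o x) (C x) t).2.2) ((pt t).1 * α1 + (pt t).2 * α2)
      ((pt t).1 * β1 + (pt t).2 * β2) := by
  induction t with
  | nil =>
    intro f o C α1 β1 α2 β2 _ _ hC _
    simpa [pt, ev] using hC
  | cons e t ih =>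
    intro f o C α1 β1 α2 β2 hβ2 ho hC hf
    cases e
    · -- new triple (C, o, 3 o C - f)
      obtain ⟨Qf, hQf⟩ : ∃ Qf, PW f β1 Qf := by
        rcases hf with ⟨h1, _, h3⟩ | ⟨_, Q, hQ, _⟩
        · refine ⟨Polynomial.C (L + L⁻¹), ?_, ?_⟩
          · rw [natDegree_C]; omega
          · intro x _
            rw [h1, pow_zero, mul_one, eval_C, h3]
        · exact ⟨Q, hQ⟩
      have h2 := PR_step (α' := α1) (β' := β1) hβ2 ho hQf (by rwa [add_comm α2, add_comm β2])
      have h3 := ih C o (fun x => 3 * o x * C x - f x) (α1 + α2) (β1 + β2) α2 β2 hβ2 ho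
        (by convert h2 using 1 <;> ring) (Or.inr ⟨by omega, hC⟩)
      simp only [ev, pt]
      convert h3 using 1 <;> ring
    · -- new triple (f, C, 3 f C - o)
      have h2 : PR K K' L (fun x => 3 * f x * C x - o x) (α1 + (α1 + α2)) (β1 + (β1 + β2)) := by
        rcases hf with ⟨h1, h1', h3⟩ | ⟨h1, h3⟩
        · subst h1; subst h1'
          have := PR_const hL h3 ho hC
          convert this using 1 <;> ring
        · obtain ⟨Q, hQ, _⟩ := ho
          have := PR_step h1 h3 hQ hC
          convert this using 1 <;> ring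
      have h3 := ih f C (fun x => 3 * f x * C x - o x) α1 β1 (α1 + α2) (β1 + β2) (by omega) hC h2 hf
      simp only [ev, pt]
      convert h3 using 1 <;> ring

end

end Pool.Agent.Q185.ML
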