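import Mathlib
import Pool.Agent.H499R2.Dens6
import Pool.Agent.H609R3.MB.Chn
import Pool.Agent.Q185.ML.Poly

/-! Two lines of words with an exact relation of their units have few common values. -/

set_option autoImplicit false

namespace Pool.Agent.Q185.ML

open Pool.Agent.H499R2 Pool.Agent.H609R3.MB Pool.Agent.H253MB Polynomial

noncomputable section

/-- the words of a line -/
def wd (c : Bool) (j t : List Bool) (n : ℕ) : List Bool := j ++ List.replicate n c ++ t

/-- the Markov number kept along the line -/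
def fx (c : Bool) (j : List Bool) : ℤ := fa c (desc root j)
/-- the unit of the line -/
def un (c : Bool) (j : List Bool) : ℝ := lam (fx c j)
/-- the leading constants -/
def kk (c : Bool) (j : List Bool) : ℝ := kap (fx c j) (ob c (desc root j)) (desc root j).c
def kk' (c : Bool) (j : List Bool) : ℝ := kap' (fx c j) (ob c (desc root j)) (desc root j).c

lemma mt_rel (c : Bool) (j : List Bool) : MT (fx c j : ℝ) (ob c (desc root j)) (desc root j).c := by
  have h := (valid_root.desc j).mt
  cases c
  · exact h.swap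
  · exact h

lemma fx_one (c : Bool) (j : List Bool) : 1 ≤ fx c j := by exact_mod_cast (mt_rel c j).ha

lemma un_gt (c : Bool) (j : List Bool) : 1 < un c j := by
  have := lam_lower _ (mt_rel c j).ha
  have h2 := (mt_rel c j).ha
  unfold un; linarith

lemma un_trace (c : Bool) (j : List Bool) : un c j + (un c j)⁻¹ = ((3 * fx c j : ℤ) : ℝ) := by
  unfold un; rw [lam_sum _ (mt_rel c j).ha]; push_cast; ring

lemma un_mul (c : Bool) (j : List Bool) : un c j * (un c j)⁻¹ = 1 :=
  mul_inv_cancel₀ (by have := un_gt c j; linarith)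

lemma kk_pos (c : Bool) (j : List Bool) : 0 < kk c j ∧ 0 < kk' c j := ⟨kap_pos (mt_rel c j), kap'_pos (mt_rel c j)⟩

lemma kk_mul (c : Bool) (j : List Bool) : kk c j * kk' c j = 9 * (fx c j : ℝ) ^ 2 / (9 * (fx c j : ℝ) ^ 2 - 4) :=
  kap_mul (mt_rel c j)

lemma run_rel (c : Bool) (j : List Bool) (n : ℕ) :
    fa c (desc root (j ++ List.replicate n c)) = fx c j ∧
    3 * (ob c (desc root (j ++ List.replicate n c)) : ℝ) = kk c j * un c j ^ n + kk' c j * (un c j)⁻¹ ^ n ∧
    3 * ((desc root (j ++ List.replicate n c)).c : ℝ) =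
      kk c j * un c j ^ (n + 1) + kk' c j * (un c j)⁻¹ ^ (n + 1) := by
  rw [desc_append]
  have hv := valid_root.desc j
  cases c
  · exact runR hv n
  · exact runL hv n

/-- the Laurent polynomial of a line -/
theorem line_poly (c : Bool) (j t : List Bool) : ∃ Q : ℝ[X], Q.natDegree ≤ lvl c t ∧
    Q.coeff (lvl c t) = kk c j ^ lvl c t * un c j ^ off c t ∧ Q.coeff 0 = kk' c j ^ lvl c t * (un c j)⁻¹ ^ off c t ∧
    ∀ n : ℕ, 3 * (cc (wd c j t n) : ℝ) * (un c j ^ n) ^ lvl c t = Q.eval ((un c j ^ n) ^ 2) := by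
  set L := un c j with hLdef
  have hL := un_mul c j
  rw [← hLdef] at hL
  have hL0 : 0 < L := by have := un_gt c j; rw [← hLdef] at this; linarith
  have h := poly_ev (K := kk c j) (K' := kk' c j) hL (rel c t) (fun _ => (L + L⁻¹) / 3)
    (fun x => (kk c j * x + kk' c j * x⁻¹) / 3) (fun x => (kk c j * (L * x) + kk' c j * (L⁻¹ * x⁻¹)) / 3) 1 0 0 1 le_rfl
    ?_ ?_ ?_
  · obtain ⟨Q, ⟨h1, h2⟩, h3, h4⟩ := h
    simp only [pt_rel, mul_one, mul_zero, add_zero, zero_add] at h1 h2 h3 h4
    refine ⟨Q, h1, h3, h4, fun n => ?_⟩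
    rw [← h2 (L ^ n) (by positivity)]
    congr 2
    obtain ⟨r1, r2, r3⟩ := run_rel c j n
    rw [← hLdef] at r2 r3
    have e := ev_eq c t (desc root (j ++ List.replicate n c))
    have e1 : ((fa c (desc root (j ++ List.replicate n c)) : ℤ) : ℝ) = (L + L⁻¹) / 3 := by
      rw [r1, hLdef, un_trace]; push_cast; ring
    have e2 : ((ob c (desc root (j ++ List.replicate n c)) : ℤ) : ℝ) = (kk c j * L ^ n + kk' c j * (L ^ n)⁻¹) / 3 := by
      rw [← inv_pow]; linarith
    have e3 : (((desc root (j ++ List.replicate n c)).c : ℤ) : ℝ) =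
        (kk c j * (L * L ^ n) + kk' c j * (L⁻¹ * (L ^ n)⁻¹)) / 3 := by
      rw [← inv_pow, ← pow_succ', ← pow_succ']; linarith
    rw [e1, e2, e3] at e
    rw [e]
    unfold cc wd
    rw [desc_append root (j ++ List.replicate n c) t]
  · refine ⟨Polynomial.C (kk' c j) + Polynomial.C (kk c j) * X, ⟨?_, ?_⟩, ?_, ?_⟩
    · refine (natDegree_add_le _ _).trans (max_le ?_ ?_)
      · rw [natDegree_C]; omega
      · exact (natDegree_C_mul_le _ _).trans natDegree_X_le
    · intro x hx
      simp only [eval_add, eval_C, eval_mul, eval_X]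
      field_simp
      ring
    · simp
    · simp
  · refine ⟨Polynomial.C (kk' c j * L⁻¹) + Polynomial.C (kk c j * L) * X, ⟨?_, ?_⟩, ?_, ?_⟩
    · refine (natDegree_add_le _ _).trans (max_le ?_ ?_)
      · rw [natDegree_C]; omega
      · exact (natDegree_C_mul_le _ _).trans natDegree_X_le
    · intro x hx
      simp only [eval_add, eval_C, eval_mul, eval_X]
      field_simp
      ring
    · simp
    · simp
  · left
    exact ⟨rfl, rfl, fun _ => by ring⟩

/-- no Markov number is divisible by three -/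
lemma not_three (j : List Bool) : ¬ (3 : ℤ) ∣ (desc root j).a ∧ ¬ (3 : ℤ) ∣ (desc root j).b ∧ ¬ (3 : ℤ) ∣ (desc root j).c := by
  induction j using List.reverseRecOn with
  | nil => simp only [desc, root]; decide
  | append_singleton j b ih =>
    obtain ⟨h1, h2, h3⟩ := ih
    rw [desc_snoc]
    cases b
    · refine ⟨h3, h2, ?_⟩
      intro h
      simp only [step, H499R2.rt] at h
      apply h1
      have e : (desc root j).a = 3 * ((desc root j).b * (desc root j).c) -
        (3 * (desc root j).b * (desc root j).c - (desc root j).a) := by ring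
      rw [e]
      exact dvd_sub (dvd_mul_right _ _) h
    · refine ⟨h1, h3, ?_⟩
      intro h
      simp only [step, H499R2.lf] at h
      apply h2
      have e : (desc root j).b = 3 * ((desc root j).a * (desc root j).c) -
        (3 * (desc root j).a * (desc root j).c - (desc root j).b) := by ring
      rw [e]
      exact dvd_sub (dvd_mul_right _ _) h

lemma fx_three (c : Bool) (j : List Bool) : ¬ (3 : ℤ) ∣ fx c j := by
  have := not_three j
  cases c
  · exact this.2.1
  · exact this.1

lemma lvl_pos (c : Bool) (t : List Bool) : 1 ≤ lvl c t ∧ 1 ≤ off c t := by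
  have := pt_pos t
  cases c <;> simp only [lvl, off, Bool.false_eq_true, if_false, if_true] <;> omega

/-- equal chain data give equal words -/
lemma same_chain {c c' : Bool} {i i' : List Bool} (h1 : fa c (desc root i) = fa c' (desc root i'))
    (h3 : (desc root i).c = (desc root i').c) : i = i' ∧ c = c' := by
  have hP : Ph (desc root i) = Ph (desc root i') := by
    refine Ph_eq (zvd i) (zvd i') h3 (m := fa c (desc root i)) ?_ ?_
    · cases c
      · right; rfl
      · left; rfl
    · rw [h1]
      cases c'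
      · right; rfl
      · left; rfl
  have hi := Ph_inj' hP
  refine ⟨hi, ?_⟩
  subst hi
  have hne := (zvd i).ne
  cases c <;> cases c'
  · rfl
  · exact absurd h1.symm hne
  · exact absurd h1 hne
  · rfl

lemma word_eq_of {c : Bool} {t t' : List Bool} (h1 : lvl c t = lvl c t') (h2 : off c t = off c t') : t = t' := by
  have h3 : (pt t).1 = (pt t').1 ∧ (pt t).2 = (pt t').2 := by
    cases c <;> simp only [lvl, off, Bool.false_eq_true, if_false, if_true] at h1 h2
    · exact ⟨h1, h2⟩
    · exact ⟨h2, h1⟩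
  exact (em_inj t t' 1 1 one_pos one_pos (by rw [h3.1]) (by rw [h3.2])).1

/-- the algebraic part: from the equality of the extreme coefficients -/
theorem lines_eq {c c' : Bool} {j j' t t' : List Bool} (ho : off c t ≤ lvl c t) (ho' : off c' t' ≤ lvl c' t')
    {n m : ℕ} {s : ℝ} (hs : 0 < s) (hs2 : un c j ^ (lvl c t * n) = s * un c' j' ^ (lvl c' t' * m))
    (h1 : kk c j ^ lvl c t * un c j ^ off c t * s = kk c' j' ^ lvl c' t' * un c' j' ^ off c' t')
    (h2 : kk' c j ^ lvl c t * (un c j)⁻¹ ^ off c t = s * (kk' c' j' ^ lvl c' t' * (un c' j')⁻¹ ^ off c' t')) :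
    wd c j t n = wd c' j' t' m := by
  obtain ⟨y1, r1⟩ := lvl_pos c t
  obtain ⟨y1', r1'⟩ := lvl_pos c' t'
  obtain ⟨p1, p2⟩ := kk_pos c j
  obtain ⟨p1', p2'⟩ := kk_pos c' j'
  have hL1 := un_gt c j
  have hL1' := un_gt c' j'
  have hLL := un_mul c j
  have hLL' := un_mul c' j'
  -- the product of the extreme coefficients
  have hprod : (kk c j * kk' c j) ^ lvl c t = (kk c' j' * kk' c' j') ^ lvl c' t' := by
    have e1 : (kk c j ^ lvl c t * un c j ^ off c t * s) * (kk' c j ^ lvl c t * (un c j)⁻¹ ^ off c t) =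
        (kk c j * kk' c j) ^ lvl c t * (un c j * (un c j)⁻¹) ^ off c t * s := by rw [mul_pow, mul_pow]; ring
    have e2 : (kk c' j' ^ lvl c' t' * un c' j' ^ off c' t') *
        (s * (kk' c' j' ^ lvl c' t' * (un c' j')⁻¹ ^ off c' t')) =
        (kk c' j' * kk' c' j') ^ lvl c' t' * (un c' j' * (un c' j')⁻¹) ^ off c' t' * s := by rw [mul_pow, mul_pow]; ring
    rw [hLL, one_pow, mul_one] at e1
    rw [hLL', one_pow, mul_one] at e2
    rw [h1, h2, e2] at e1
    exact (mul_right_cancel₀ hs.ne' e1).symm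
  rw [kk_mul, kk_mul] at hprod
  obtain ⟨hy, hf⟩ := nu_eq (fx_one c j) (fx_one c' j') (fx_three c j) (fx_three c' j') y1 hprod
  have hun : un c' j' = un c j := by unfold un; rw [hf]
  rw [hun] at h1 hs2
  rw [← hy] at h1 hs2 ho'
  set L := un c j with hLdef
  set y := lvl c t with hydef
  have hL0 : 0 < L := by linarith
  -- the chain constants
  obtain ⟨f1, f2, f3⟩ := run_rel c j n
  obtain ⟨g1, g2, g3⟩ := run_rel c' j' m
  rw [hun] at g2 g3
  rw [← hLdef] at f2 f3
  have hXV : (kk c j * L ^ n) * (kk' c j * L⁻¹ ^ n) = 9 * (fx c j : ℝ) ^ 2 / (9 * (fx c j : ℝ) ^ 2 - 4) := by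
    rw [← kk_mul]
    have : L ^ n * L⁻¹ ^ n = 1 := by rw [← mul_pow, hLL, one_pow]
    linear_combination (kk c j * kk' c j) * this
  have hXV' : (kk c' j' * L ^ m) * (kk' c' j' * L⁻¹ ^ m) = 9 * (fx c j : ℝ) ^ 2 / (9 * (fx c j : ℝ) ^ 2 - 4) := by
    rw [hf, ← kk_mul]
    have : L ^ m * L⁻¹ ^ m = 1 := by rw [← mul_pow, hLL, one_pow]
    linear_combination (kk c' j' * kk' c' j') * this
  have hpow : (kk c j * L ^ n) ^ y * L ^ off c t = (kk c' j' * L ^ m) ^ y * L ^ off c' t' := by
    rw [mul_pow, mul_pow, ← pow_mul, ← pow_mul, mul_comm n y, mul_comm m y, hs2]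
    linear_combination (L ^ (y * m)) * h1
  have a0 : kk c j * L ^ n + kk' c j * L⁻¹ ^ n = ((3 * ob c (desc root (j ++ List.replicate n c)) : ℤ) : ℝ) := by
    push_cast; exact f2.symm
  have a1 : L * (kk c j * L ^ n) + L⁻¹ * (kk' c j * L⁻¹ ^ n) = ((3 * (desc root (j ++ List.replicate n c)).c : ℤ) : ℝ) := by
    push_cast; rw [f3, pow_succ, pow_succ]; ring
  have b0 : kk c' j' * L ^ m + kk' c' j' * L⁻¹ ^ m = ((3 * ob c' (desc root (j' ++ List.replicate m c')) : ℤ) : ℝ) := by
    push_cast; exact g2.symm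
  have b1 : L * (kk c' j' * L ^ m) + L⁻¹ * (kk' c' j' * L⁻¹ ^ m) =
      ((3 * (desc root (j' ++ List.replicate m c')).c : ℤ) : ℝ) := by
    push_cast; rw [g3, pow_succ, pow_succ]; ring
  have hLa : L + L⁻¹ = ((3 * fx c j : ℤ) : ℝ) := un_trace c j
  have hoff : off c t = off c' t' := by
    rcases le_total (off c t) (off c' t') with h | h
    · have h3 : (kk c j * L ^ n) ^ y = (kk c' j' * L ^ m) ^ y * L ^ (off c' t' - off c t) := by
        have e : L ^ off c' t' = L ^ (off c' t' - off c t) * L ^ off c t := by rw [← pow_add]; congr 1; omega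
        rw [e, ← mul_assoc] at hpow
        exact mul_right_cancel₀ (by positivity) hpow
      have := frac_power (fx_one c j) hL1 hLa rfl (X := kk c' j' * L ^ m) (X' := kk c j * L ^ n) (by positivity)
        (by positivity) hXV' hXV b0 b1 a0 a1 (y := y) (j := off c' t' - off c t) (by omega) h3
      omega
    · have h3 : (kk c' j' * L ^ m) ^ y = (kk c j * L ^ n) ^ y * L ^ (off c t - off c' t') := by
        have e : L ^ off c t = L ^ (off c t - off c' t') * L ^ off c' t' := by rw [← pow_add]; congr 1; omega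
        rw [e, ← mul_assoc] at hpow
        exact (mul_right_cancel₀ (by positivity) hpow).symm
      have := frac_power (fx_one c j) hL1 hLa rfl (X := kk c j * L ^ n) (X' := kk c' j' * L ^ m) (by positivity)
        (by positivity) hXV hXV' a0 a1 b0 b1 (y := y) (j := off c t - off c' t') (by omega) h3
      omega
  have hX : kk c j * L ^ n = kk c' j' * L ^ m := by
    rw [hoff] at hpow
    have h3 := mul_right_cancel₀ (by positivity) hpow
    exact (pow_left_inj₀ (by positivity) (by positivity) (by omega : y ≠ 0)).mp h3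
  have hV : kk' c j * L⁻¹ ^ n = kk' c' j' * L⁻¹ ^ m := by
    rw [← hXV', hX] at hXV
    exact mul_left_cancel₀ (by positivity) hXV
  have hC : (desc root (j ++ List.replicate n c)).c = (desc root (j' ++ List.replicate m c')).c := by
    rw [hX, hV, b1] at a1
    have : 3 * (desc root (j' ++ List.replicate m c')).c = 3 * (desc root (j ++ List.replicate n c)).c := by
      exact_mod_cast a1
    omega
  obtain ⟨hi, hcc⟩ := same_chain (c := c) (c' := c') (by rw [f1, g1, hf]) hC
  subst hcc
  have ht := word_eq_of (c := c) (by rw [← hydef]; exact hy) hoff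
  unfold wd
  rw [hi, ht]

end

end Pool.Agent.Q185.ML
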