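import Mathlib
import Pool.Agent.Q185.ML.Zero

/-! Counting the common values of two lines with an exact relation. -/

set_option autoImplicit false

namespace Pool.Agent.Q185.ML

open Pool.Agent.H499R2 Pool.Agent.H609R3.MB Pool.Agent.H253MB Polynomial

noncomputable section

lemma sv_le (n : ℕ) : ∀ P : ℝ[X], P.support.card ≤ n → P.signVariations ≤ n := by
  induction n with
  | zero =>
    intro P h
    have h0 : P = 0 := by
      rw [← Polynomial.support_eq_empty, ← Finset.card_eq_zero]; omega
    rw [h0, signVariations_zero]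
  | succ n ih =>
    intro P h
    by_cases hP : P = 0
    · rw [hP, signVariations_zero]; omega
    · have h1 := eraseLead_support_card_lt hP
      have h2 := ih P.eraseLead (by omega)
      have h3 : P.signVariations ≤ P.eraseLead.signVariations + 1 := signVariations_le_eraseLead_succ P
      omega

/-- the number of positive zeros is at most the number of terms -/
lemma pos_roots {P : ℝ[X]} (hP : P ≠ 0) (s : Finset ℝ) (hs : ∀ x ∈ s, 0 < x ∧ P.eval x = 0) : s.card ≤ P.support.card := by
  classical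
  have h1 := roots_countP_pos_le_signVariations (P := P)
  have h2 := sv_le _ P le_rfl
  refine le_trans ?_ (h1.trans h2)
  rw [Multiset.countP_eq_card_filter]
  have h3 : s.val ≤ P.roots.filter (fun x => 0 < x) := by
    rw [Finset.val_le_iff_val_subset]
    intro x hx
    have hx' : x ∈ s := hx
    rw [Multiset.mem_filter, mem_roots hP]
    exact ⟨(hs x hx').2, (hs x hx').1⟩
  exact Multiset.card_le_card h3

lemma expand_supp {Q : ℝ[X]} {y p n : ℕ} (hp : 0 < p) (hQ : Q.natDegree ≤ y) (h : (expand ℝ p Q).coeff n ≠ 0) :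
    n ∈ (Finset.range (y + 1)).image (fun k => p * k) := by
  rw [coeff_expand hp] at h
  split_ifs at h with hd
  · obtain ⟨k, rfl⟩ := hd
    rw [Nat.mul_div_cancel_left _ hp] at h
    rw [Finset.mem_image]
    refine ⟨k, Finset.mem_range.mpr ?_, rfl⟩
    have := le_natDegree_of_ne_zero h
    omega
  · exact absurd rfl h

/-- Two different lines with an exact relation have at most `y + y' + 2` common values. -/
theorem zero_bound {c c' : Bool} {j j' t t' : List Bool} (ho : off c t ≤ lvl c t) (ho' : off c' t' ≤ lvl c' t')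
    (S : Finset ℕ) (m : ℕ → ℕ) (hval : ∀ n ∈ S, cc (wd c j t n) = cc (wd c' j' t' (m n)))
    (hne : ∀ n ∈ S, wd c j t n ≠ wd c' j' t' (m n))
    (hex : ∀ n1 ∈ S, ∀ n2 ∈ S, un c j ^ (lvl c t * n1) * un c' j' ^ (lvl c' t' * m n2) =
      un c j ^ (lvl c t * n2) * un c' j' ^ (lvl c' t' * m n1)) :
    S.card ≤ lvl c t + lvl c' t' + 2 := by
  classical
  by_contra hcon
  push Not at hcon
  obtain ⟨y1, r1⟩ := lvl_pos c t
  obtain ⟨y1', r1'⟩ := lvl_pos c' t'
  have hne0 : S.Nonempty := by
    rw [← Finset.card_pos]; omega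
  obtain ⟨n0, hn0⟩ := hne0
  have hL1 := un_gt c j
  have hL1' := un_gt c' j'
  obtain ⟨Q, q1, q2, q3, q4⟩ := line_poly c j t
  obtain ⟨Q', q1', q2', q3', q4'⟩ := line_poly c' j' t'
  have hl := @lines_eq c c' j j' t t' ho ho' n0 (m n0)
  set L := un c j with hLdef
  set L' := un c' j' with hLdef'
  set y := lvl c t with hy
  set y' := lvl c' t' with hy'
  have hL0 : 0 < L := by linarith
  have hL0' : 0 < L' := by linarith
  obtain ⟨s, hsdef⟩ : ∃ s : ℝ, s = L ^ (y * n0) / L' ^ (y' * m n0) := ⟨_, rfl⟩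
  have hs : 0 < s := by rw [hsdef]; positivity
  have hrel : ∀ n ∈ S, L ^ (y * n) = s * L' ^ (y' * m n) := by
    intro n hn
    have h1 := hex n hn n0 hn0
    rw [hsdef, div_mul_eq_mul_div, eq_div_iff (by positivity)]
    exact h1
  obtain ⟨e, he0, hes⟩ : ∃ e : ℝ, 0 < e ∧ e ^ y' * s ^ 2 = 1 := by
    refine ⟨((s ^ 2)⁻¹) ^ ((1 : ℝ) / y'), by positivity, ?_⟩
    rw [← Real.rpow_natCast (((s ^ 2)⁻¹) ^ ((1 : ℝ) / y')) y', ← Real.rpow_mul (by positivity),
      one_div, inv_mul_cancel₀ (by positivity), Real.rpow_one, inv_mul_cancel₀ (by positivity)]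
  -- the points
  set ζ : ℕ → ℝ := fun n => ((L ^ n) ^ 2) ^ ((1 : ℝ) / y') with hζ
  have hζ0 : ∀ n, 0 < ζ n := by intro n; rw [hζ]; positivity
  have hζy' : ∀ n, ζ n ^ y' = (L ^ n) ^ 2 := by
    intro n
    rw [hζ]
    simp only
    rw [← Real.rpow_natCast ((((L ^ n) ^ 2)) ^ ((1 : ℝ) / y')) y', ← Real.rpow_mul (by positivity),
      one_div, inv_mul_cancel₀ (by positivity), Real.rpow_one]
  have hζinj : Function.Injective ζ := by
    intro n1 n2 h
    have h1 : (L ^ n1) ^ 2 = (L ^ n2) ^ 2 := by rw [← hζy' n1, ← hζy' n2, h]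
    have h2 : L ^ n1 = L ^ n2 := (pow_left_inj₀ (by positivity) (by positivity) (by norm_num)).mp h1
    exact (pow_right_strictMono₀ hL1).injective h2
  have hζ2 : ∀ n ∈ S, e * ζ n ^ y = (L' ^ m n) ^ 2 := by
    intro n hn
    have h1 : (e * ζ n ^ y) ^ y' = ((L' ^ m n) ^ 2) ^ y' := by
      have h2 : (e * ζ n ^ y) ^ y' = e ^ y' * (ζ n ^ y') ^ y := by rw [mul_pow, ← pow_mul, ← pow_mul, mul_comm y y']
      have h3 : ((L ^ n) ^ 2) ^ y = (L ^ (y * n)) ^ 2 := by rw [← pow_mul, ← pow_mul, ← pow_mul]; congr 1; ring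
      have h4 : ((L' ^ m n) ^ 2) ^ y' = (L' ^ (y' * m n)) ^ 2 := by rw [← pow_mul, ← pow_mul, ← pow_mul]; congr 1; ring
      rw [h2, hζy', h3, h4, hrel n hn]
      linear_combination ((L' ^ (y' * m n)) ^ 2) * hes
    exact (pow_left_inj₀ (by have := hζ0 n; positivity) (by positivity) (by omega)).mp h1
  -- the polynomial
  set P : ℝ[X] := expand ℝ y' Q - Polynomial.C s * expand ℝ y (Q'.comp (Polynomial.C e * X)) with hP
  have hPe : ∀ n ∈ S, P.eval (ζ n) = 0 := by
    intro n hn
    rw [hP, eval_sub, eval_mul, eval_C, expand_eval, expand_eval, eval_comp, eval_mul, eval_C, eval_X, hζy',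
      hζ2 n hn, ← q4 n, ← q4' (m n), hval n hn]
    have h1 : (L ^ n) ^ y = s * (L' ^ m n) ^ y' := by
      have := hrel n hn
      rw [← pow_mul, ← pow_mul, mul_comm n y, mul_comm (m n) y']; exact this
    rw [h1]; ring
  have hdegQ' : (Q'.comp (Polynomial.C e * X)).natDegree ≤ y' := by
    refine natDegree_comp_le.trans ?_
    have h1 : (Polynomial.C e * X : ℝ[X]).natDegree ≤ 1 := (natDegree_C_mul_le _ _).trans natDegree_X_le
    calc Q'.natDegree * (Polynomial.C e * X : ℝ[X]).natDegree ≤ y' * 1 := Nat.mul_le_mul q1' h1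
      _ = y' := mul_one _
  have hsupp : P.support.card ≤ y + y' + 2 := by
    have h1 : P.support ⊆ (Finset.range (y + 1)).image (fun k => y' * k) ∪ (Finset.range (y' + 1)).image (fun k => y * k) := by
      intro n hn
      rw [mem_support_iff] at hn
      rw [Finset.mem_union]
      by_contra hno
      rw [not_or] at hno
      apply hn
      have a1 : (expand ℝ y' Q).coeff n = 0 := by
        by_contra h
        exact hno.1 (expand_supp (by omega) q1 h)
      have a2 : (expand ℝ y (Q'.comp (Polynomial.C e * X))).coeff n = 0 := by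
        by_contra h
        exact hno.2 (expand_supp (by omega) hdegQ' h)
      rw [hP, coeff_sub, coeff_C_mul, a1, a2]; ring
    have h2 := Finset.card_le_card h1
    have h3 := Finset.card_union_le ((Finset.range (y + 1)).image (fun k => y' * k))
      ((Finset.range (y' + 1)).image (fun k => y * k))
    have h4 := Finset.card_image_le (s := Finset.range (y + 1)) (f := fun k => y' * k)
    have h5 := Finset.card_image_le (s := Finset.range (y' + 1)) (f := fun k => y * k)
    rw [Finset.card_range] at h4 h5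
    omega
  have hP0 : P = 0 := by
    by_contra hne
    have h1 := pos_roots hne (S.image ζ) (by
      intro x hx
      obtain ⟨n, hn, rfl⟩ := Finset.mem_image.mp hx
      exact ⟨hζ0 n, hPe n hn⟩)
    rw [Finset.card_image_of_injective _ hζinj] at h1
    omega
  -- the extreme coefficients
  have hc0 : Q.coeff 0 = s * Q'.coeff 0 := by
    have h1 : P.eval 0 = 0 := by rw [hP0, eval_zero]
    rw [hP, eval_sub, eval_mul, eval_C, expand_eval, expand_eval, eval_comp, eval_mul, eval_C, eval_X,
      zero_pow (by omega), zero_pow (by omega), mul_zero, ← coeff_zero_eq_eval_zero, ← coeff_zero_eq_eval_zero] at h1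
    linarith
  have hct : Q.coeff y = s * (Q'.coeff y' * e ^ y') := by
    have h1 : P.coeff (y * y') = 0 := by rw [hP0, coeff_zero]
    rw [hP, coeff_sub, coeff_C_mul, coeff_expand_mul (by omega), mul_comm y y', coeff_expand_mul (by omega),
      comp_C_mul_X_coeff] at h1
    linarith
  refine hne n0 hn0 (hl hs (hrel n0 hn0) ?_ ?_)
  · rw [← q2, ← q2', hct]
    linear_combination (Q'.coeff y') * hes
  · rw [← q3, ← q3', hc0]

end

end Pool.Agent.Q185.ML
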