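import Mathlib
import Pool.Agent.Q185.ML.Zero2

/-! Linear approximation of the values along a line, and exact relations. -/

set_option autoImplicit false

namespace Pool.Agent.Q185.ML

open Pool.Agent.H499R2 Pool.Agent.H609R3.MB Pool.Agent.H253MB

noncomputable section

/-- the other region at the index `n` -/
def oo (c : Bool) (j : List Bool) (n : ℕ) : ℤ := ob c (desc root (j ++ List.replicate n c))

lemma step_rel (c : Bool) (i : List Bool) : fx c (i ++ [c]) = fx c i ∧ ob c (desc root (i ++ [c])) = (desc root i).c ∧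
    (desc root (i ++ [c])).c = 3 * fx c i * (desc root i).c - ob c (desc root i) := by
  rw [fx, desc_snoc]
  cases c <;> exact ⟨rfl, rfl, rfl⟩

lemma kk_step (c : Bool) (i : List Bool) : kk c (i ++ [c]) = kk c i * un c i := by
  obtain ⟨h1, h2, h3⟩ := step_rel c i
  unfold kk un
  rw [h1, h2, h3]
  push_cast
  exact kap_shift (mt_rel c i).ha

lemma kk_run (c : Bool) (j : List Bool) (n : ℕ) : fx c (j ++ List.replicate n c) = fx c j ∧
    kk c (j ++ List.replicate n c) = kk c j * un c j ^ n := by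
  induction n with
  | zero => simp
  | succ n ih =>
    rw [List.replicate_succ', ← List.append_assoc]
    obtain ⟨i1, i2⟩ := ih
    refine ⟨(step_rel c _).1.trans i1, ?_⟩
    rw [kk_step, i2]
    have : un c (j ++ List.replicate n c) = un c j := by unfold un; rw [i1]
    rw [this, pow_succ]; ring

lemma oo_lt (c : Bool) (j : List Bool) (n : ℕ) : 1 ≤ oo c j n ∧ oo c j n < cc (j ++ List.replicate n c) ∧
    oo c j (n + 1) = cc (j ++ List.replicate n c) := by
  have hz := zvd (j ++ List.replicate n c)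
  refine ⟨?_, ?_, ?_⟩
  · unfold oo; cases c
    · exact hz.a1
    · exact hz.b1
  · unfold oo; cases c
    · exact hz.ac
    · exact hz.bc
  · unfold oo
    rw [List.replicate_succ', ← List.append_assoc]
    exact (step_rel c _).2.1

lemma oo_mono (c : Bool) (j : List Bool) : Monotone (oo c j) := by
  apply monotone_nat_of_le_succ
  intro n
  obtain ⟨h1, h2, h3⟩ := oo_lt c j n
  rw [h3]; exact h2.le

lemma oo_cast (c : Bool) (j : List Bool) (n : ℕ) : (1 : ℝ) ≤ oo c j n := by exact_mod_cast (oo_lt c j n).1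

lemma kk_lower (c : Bool) (j : List Bool) : 3 / 2 ≤ kk c j := by
  have h := kap_lower (mt_rel c j)
  have h2 := (mt_rel c j).hb
  unfold kk; linarith

lemma kk_oo (c : Bool) (j : List Bool) (n : ℕ) : kk c j * un c j ^ n ≤ 3 * oo c j n := by
  have h := (run_rel c j n).2.1
  have h2 := (kk_pos c j).2
  have h3 := un_gt c j
  have h4 : 0 ≤ kk' c j * (un c j)⁻¹ ^ n := by
    have : 0 < un c j := by linarith
    positivity
  unfold oo; linarith

/-- the value of the other region -/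
lemma g_oo (c : Bool) (j : List Bool) (n : ℕ) : n * g (fx c j) + Real.log (kk c j) ≤ g (oo c j n) ∧
    g (oo c j n) ≤ n * g (fx c j) + Real.log (kk c j) + 1 / (oo c j n : ℝ) ^ 2 := by
  obtain ⟨h1, h2⟩ := kk_run c j n
  have hm := mt_rel c (j ++ List.replicate n c)
  have e1 := log_kap_le hm
  have e2 := log_kap_ge hm
  have e3 : Real.log (kap (fx c (j ++ List.replicate n c)) (ob c (desc root (j ++ List.replicate n c)))
      (desc root (j ++ List.replicate n c)).c) = n * g (fx c j) + Real.log (kk c j) := by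
    show Real.log (kk c (j ++ List.replicate n c)) = _
    have hp := (kk_pos c j).1
    have hu : 0 < un c j := by have := un_gt c j; linarith
    rw [h2, Real.log_mul hp.ne' (by positivity), Real.log_pow]
    unfold un g; ring
  rw [e3] at e1 e2
  refine ⟨e1, ?_⟩
  have e4 : (1 : ℝ) / ((fx c (j ++ List.replicate n c) : ℝ) ^ 2 * (ob c (desc root (j ++ List.replicate n c)) : ℝ) ^ 2) ≤
      1 / (oo c j n : ℝ) ^ 2 := by
    have h5 := oo_cast c j n
    apply div_le_div_of_nonneg_left zero_le_one (by positivity)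
    have h6 : (1 : ℝ) ≤ (fx c (j ++ List.replicate n c) : ℝ) ^ 2 := one_le_pow₀ hm.ha
    have h7 : (0 : ℝ) ≤ (oo c j n : ℝ) ^ 2 := by positivity
    show (oo c j n : ℝ) ^ 2 ≤ _
    have : (oo c j n : ℝ) ^ 2 = 1 * (oo c j n : ℝ) ^ 2 := by ring
    rw [this]
    exact mul_le_mul_of_nonneg_right h6 h7
  unfold oo at e4 ⊢
  linarith

lemma dl_rel (c : Bool) (j : List Bool) (n : ℕ) : dl (desc root (j ++ List.replicate n c)) ≤ 1 / (oo c j n : ℝ) ^ 2 := by
  have hm := (valid_root.desc (j ++ List.replicate n c)).mt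
  have h5 := oo_cast c j n
  unfold dl
  apply div_le_div_of_nonneg_left zero_le_one (by positivity)
  have ha : (1 : ℝ) ≤ ((desc root (j ++ List.replicate n c)).a : ℝ) ^ 2 := one_le_pow₀ hm.ha
  have hb : (1 : ℝ) ≤ ((desc root (j ++ List.replicate n c)).b : ℝ) ^ 2 := one_le_pow₀ hm.hb
  cases c
  · show ((desc root (j ++ List.replicate n false)).a : ℝ) ^ 2 ≤ _
    nlinarith
  · show ((desc root (j ++ List.replicate n true)).b : ℝ) ^ 2 ≤ _
    nlinarith

lemma min_rel (c : Bool) (t : List Bool) (ho : off c t ≤ lvl c t) : min (pt t).1 (pt t).2 = off c t := by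
  cases c <;> simp only [lvl, off, Bool.false_eq_true, if_false, if_true] at ho ⊢
  · exact min_eq_right ho
  · exact min_eq_left ho

lemma lin_rel (c : Bool) (i t : List Bool) : (pt t).1 * al (desc root i) + (pt t).2 * be (desc root i) =
    off c t * g (fa c (desc root i)) + lvl c t * g (ob c (desc root i)) := by
  cases c
  · show _ = ((pt t).2 : ℝ) * be (desc root i) + ((pt t).1 : ℝ) * al (desc root i)
    ring
  · rfl

/-- the value of a word of a line -/
lemma FF_line (c : Bool) (j t : List Bool) (ho : off c t ≤ lvl c t) (n : ℕ) :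
    off c t * g (fx c j) + lvl c t * g (oo c j n) - 2 * off c t / (oo c j n : ℝ) ^ 2 ≤ FF (wd c j t n) ∧
    FF (wd c j t n) ≤ off c t * g (fx c j) + lvl c t * g (oo c j n) := by
  have hv := valid_root.desc (j ++ List.replicate n c)
  have h1 := ga_upper hv t
  have h2 := ga_lower' hv t
  rw [min_rel c t ho] at h2
  rw [lin_rel c] at h1 h2
  have e1 : fa c (desc root (j ++ List.replicate n c)) = fx c j := (run_rel c j n).1
  have e2 : FF (wd c j t n) = ga (desc (desc root (j ++ List.replicate n c)) t) := by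
    unfold FF wd; rw [desc_append]
  rw [e1] at h1 h2
  rw [e2]
  have h3 := dl_rel c j n
  have h4 : 2 * dl (desc root (j ++ List.replicate n c)) * (off c t : ℕ) ≤ 2 * off c t / (oo c j n : ℝ) ^ 2 := by
    have : 2 * (off c t : ℝ) / (oo c j n : ℝ) ^ 2 = 2 * (1 / (oo c j n : ℝ) ^ 2) * (off c t : ℝ) := by ring
    rw [this]
    exact mul_le_mul_of_nonneg_right (by linarith) (by positivity)
  unfold oo at *
  constructor <;> linarith

/-- linearity of the values of a line -/
theorem line_lin (c : Bool) (j t : List Bool) (ho : off c t ≤ lvl c t) (n : ℕ) :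
    |FF (wd c j t n) - (lvl c t * g (fx c j) * n + (off c t * g (fx c j) + lvl c t * Real.log (kk c j)))| ≤
      2 * lvl c t / (oo c j n : ℝ) ^ 2 := by
  obtain ⟨h1, h2⟩ := FF_line c j t ho n
  obtain ⟨h3, h4⟩ := g_oo c j n
  have hy : (0 : ℝ) ≤ lvl c t := by positivity
  have hr : (off c t : ℝ) ≤ lvl c t := by exact_mod_cast ho
  have ho1 := oo_cast c j n
  have h5 := mul_le_mul_of_nonneg_left h3 hy
  have h6 := mul_le_mul_of_nonneg_left h4 hy
  have e1 : (lvl c t : ℝ) * (n * g (fx c j) + Real.log (kk c j) + 1 / (oo c j n : ℝ) ^ 2) =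
      lvl c t * (n * g (fx c j) + Real.log (kk c j)) + lvl c t / (oo c j n : ℝ) ^ 2 := by ring
  have e2 : 2 * (off c t : ℝ) / (oo c j n : ℝ) ^ 2 ≤ 2 * (lvl c t : ℝ) / (oo c j n : ℝ) ^ 2 :=
    div_le_div_of_nonneg_right (by linarith) (by positivity)
  have e3 : (lvl c t : ℝ) / (oo c j n : ℝ) ^ 2 ≤ 2 * (lvl c t : ℝ) / (oo c j n : ℝ) ^ 2 :=
    div_le_div_of_nonneg_right (by linarith) (by positivity)
  rw [e1] at h6
  rw [abs_le]
  constructor <;> linarith

/-- the exact relation -/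
theorem exact_rel {c c' : Bool} {j j' t t' : List Bool} (ho : off c t ≤ lvl c t) (ho' : off c' t' ≤ lvl c' t')
    {n1 n2 m1 m2 : ℕ} {δ A : ℝ} (hn : n1 ≤ n2) (h1 : cc (wd c j t n1) = cc (wd c' j' t' m1))
    (h2 : cc (wd c j t n2) = cc (wd c' j' t' m2))
    (hδ : 4 * lvl c t / (oo c j n1 : ℝ) ^ 2 + 2 * lvl c' t' / (oo c' j' m1 : ℝ) ^ 2 +
      2 * lvl c' t' / (oo c' j' m2 : ℝ) ^ 2 ≤ δ)
    (hA : un c j ^ (lvl c t * (n2 - n1)) ≤ A) (hδA : 4 * δ * A < 1) :
    un c j ^ (lvl c t * n1) * un c' j' ^ (lvl c' t' * m2) = un c j ^ (lvl c t * n2) * un c' j' ^ (lvl c' t' * m1) := by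
  obtain ⟨y1, -⟩ := lvl_pos c t
  obtain ⟨y1', -⟩ := lvl_pos c' t'
  have hL := un_gt c j
  have hL' := un_gt c' j'
  have hA1 : 1 ≤ A := le_trans (one_le_pow₀ hL.le) hA
  have l1 := line_lin c j t ho n1
  have l2 := line_lin c j t ho n2
  have k1 := line_lin c' j' t' ho' m1
  have k2 := line_lin c' j' t' ho' m2
  have f1 : FF (wd c j t n1) = FF (wd c' j' t' m1) := by rw [FF_eq, FF_eq, h1]
  have f2 : FF (wd c j t n2) = FF (wd c' j' t' m2) := by rw [FF_eq, FF_eq, h2]
  have hoo : (oo c j n1 : ℝ) ≤ oo c j n2 := by exact_mod_cast oo_mono c j hn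
  have ho1 := oo_cast c j n1
  have hl2 : 2 * (lvl c t : ℝ) / (oo c j n2 : ℝ) ^ 2 ≤ 2 * lvl c t / (oo c j n1 : ℝ) ^ 2 := by
    apply div_le_div_of_nonneg_left (by positivity) (by positivity)
    exact pow_le_pow_left₀ (by linarith) hoo 2
  have hsum : 4 * (lvl c t : ℝ) / (oo c j n1 : ℝ) ^ 2 = 2 * lvl c t / (oo c j n1 : ℝ) ^ 2 + 2 * lvl c t / (oo c j n1 : ℝ) ^ 2 := by ring
  rw [abs_le] at l1 l2 k1 k2
  rw [f1] at l1
  rw [f2] at l2
  have hγ : 3 / 4 ≤ g (fx c j) := g_lower _ (mt_rel c j).ha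
  have hγ' : 3 / 4 ≤ g (fx c' j') := g_lower _ (mt_rel c' j').ha
  have hyr : (1 : ℝ) ≤ lvl c t := by exact_mod_cast y1
  have hyr' : (1 : ℝ) ≤ lvl c' t' := by exact_mod_cast y1'
  have hd : |(lvl c t : ℝ) * g (fx c j) * (n2 - n1) - lvl c' t' * g (fx c' j') * (m2 - m1)| ≤ δ := by
    rw [abs_le]
    constructor <;> linarith [l1.1, l1.2, l2.1, l2.2, k1.1, k1.2, k2.1, k2.2]
  have hδ0 : 0 ≤ δ := (abs_nonneg _).trans hd
  have hδ14 : δ < 1 / 4 := by nlinarith
  have hnr : (n1 : ℝ) ≤ n2 := by exact_mod_cast hn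
  have hm : m1 ≤ m2 := by
    by_contra hcon
    push Not at hcon
    have h5 : (m2 : ℝ) + 1 ≤ m1 := by exact_mod_cast hcon
    rw [abs_le] at hd
    have h6 : 0 ≤ (lvl c t : ℝ) * g (fx c j) * (n2 - n1) :=
      mul_nonneg (mul_nonneg (by linarith) (by linarith)) (by linarith)
    have h7 : 3 / 4 ≤ (lvl c' t' : ℝ) * g (fx c' j') := by nlinarith
    have h8 : 3 / 4 ≤ (lvl c' t' : ℝ) * g (fx c' j') * (m1 - m2) := by nlinarith
    linarith [hd.2]
  have hmr : (m1 : ℝ) ≤ m2 := by exact_mod_cast hm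
  obtain ⟨S, hS⟩ := pow_trace (x := un c j) (by linarith) (un_trace c j) (lvl c t * (n2 - n1))
  obtain ⟨T, hT⟩ := pow_trace (x := un c' j') (by linarith) (un_trace c' j') (lvl c' t' * (m2 - m1))
  have key := exact_eq (A := un c j ^ (lvl c t * (n2 - n1))) (B := un c' j' ^ (lvl c' t' * (m2 - m1))) (δ := δ)
    (one_le_pow₀ hL.le) (one_le_pow₀ hL'.le) hS hT ?_ ?_
  · have e1 : lvl c t * n2 = lvl c t * n1 + lvl c t * (n2 - n1) := by rw [← mul_add]; congr 1; omega
    have e2 : lvl c' t' * m2 = lvl c' t' * m1 + lvl c' t' * (m2 - m1) := by rw [← mul_add]; congr 1; omega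
    rw [e1, e2, pow_add, pow_add, key]; ring
  · rw [Real.log_pow, Real.log_pow]
    have e1 : Real.log (un c j) = g (fx c j) := rfl
    have e2 : Real.log (un c' j') = g (fx c' j') := rfl
    rw [e1, e2]
    push_cast [Nat.cast_sub hn, Nat.cast_sub hm]
    have e3 : (lvl c t : ℝ) * ((n2 : ℝ) - n1) * g (fx c j) - lvl c' t' * ((m2 : ℝ) - m1) * g (fx c' j') =
        (lvl c t : ℝ) * g (fx c j) * (n2 - n1) - lvl c' t' * g (fx c' j') * (m2 - m1) := by ring
    rw [e3]; exact hd
  · calc 4 * δ * un c j ^ (lvl c t * (n2 - n1)) ≤ 4 * δ * A := mul_le_mul_of_nonneg_left hA (by linarith)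
      _ < 1 := hδA

end

end Pool.Agent.Q185.ML
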