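import Mathlib
import Pool.Agent.Q185.ML.Lin

/-! The partners of the words of a line inside one cone. -/

set_option autoImplicit false

namespace Pool.Agent.Q185.ML

open Pool.Agent.H499R2 Pool.Agent.H609R3.MB Pool.Agent.H253MB

noncomputable section

/-- the approximate relation of two common values -/
lemma near_rel {c c' : Bool} {j j' t t' : List Bool} (ho : off c t ≤ lvl c t) (ho' : off c' t' ≤ lvl c' t')
    {n1 n2 m1 m2 N0 : ℕ} {D : ℝ} (hD : 0 < D) (hn1 : N0 ≤ n1) (hn2 : N0 ≤ n2)
    (h1 : cc (wd c j t n1) = cc (wd c' j' t' m1)) (h2 : cc (wd c j t n2) = cc (wd c' j' t' m2))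
    (hD1 : D ≤ (oo c' j' m1 : ℝ) ^ 2) (hD2 : D ≤ (oo c' j' m2 : ℝ) ^ 2) :
    |(lvl c t : ℝ) * g (fx c j) * (n2 - n1) - lvl c' t' * g (fx c' j') * (m2 - m1)| ≤
      4 * lvl c t / (oo c j N0 : ℝ) ^ 2 + 4 * lvl c' t' / D := by
  have l1 := line_lin c j t ho n1
  have l2 := line_lin c j t ho n2
  have k1 := line_lin c' j' t' ho' m1
  have k2 := line_lin c' j' t' ho' m2
  have f1 : FF (wd c j t n1) = FF (wd c' j' t' m1) := by rw [FF_eq, FF_eq, h1]
  have f2 : FF (wd c j t n2) = FF (wd c' j' t' m2) := by rw [FF_eq, FF_eq, h2]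
  have ho0 := oo_cast c j N0
  have e1 : ∀ n, N0 ≤ n → 2 * (lvl c t : ℝ) / (oo c j n : ℝ) ^ 2 ≤ 2 * lvl c t / (oo c j N0 : ℝ) ^ 2 := by
    intro n hn
    apply div_le_div_of_nonneg_left (by positivity) (by positivity)
    have : (oo c j N0 : ℝ) ≤ oo c j n := by exact_mod_cast oo_mono c j hn
    exact pow_le_pow_left₀ (by linarith) this 2
  have e2 : 2 * (lvl c' t' : ℝ) / (oo c' j' m1 : ℝ) ^ 2 ≤ 2 * lvl c' t' / D :=
    div_le_div_of_nonneg_left (by positivity) hD hD1
  have e3 : 2 * (lvl c' t' : ℝ) / (oo c' j' m2 : ℝ) ^ 2 ≤ 2 * lvl c' t' / D :=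
    div_le_div_of_nonneg_left (by positivity) hD hD2
  have e4 : 4 * (lvl c' t' : ℝ) / D = 2 * lvl c' t' / D + 2 * lvl c' t' / D := by ring
  have e5 : 4 * (lvl c t : ℝ) / (oo c j N0 : ℝ) ^ 2 = 2 * lvl c t / (oo c j N0 : ℝ) ^ 2 + 2 * lvl c t / (oo c j N0 : ℝ) ^ 2 := by
    ring
  have g1 := e1 n1 hn1
  have g2 := e1 n2 hn2
  rw [abs_le] at l1 l2 k1 k2
  rw [f1] at l1
  rw [f2] at l2
  rw [abs_le]
  constructor <;> linarith [l1.1, l1.2, l2.1, l2.2, k1.1, k1.2, k2.1, k2.2]

lemma log_form {L L' : ℝ} (hL : 0 < L) (hL' : 0 < L') (a b c d : ℕ) :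
    L ^ a * L' ^ b = L ^ c * L' ^ d ↔ (a : ℝ) * Real.log L + b * Real.log L' = c * Real.log L + d * Real.log L' := by
  have e1 : Real.log (L ^ a * L' ^ b) = (a : ℝ) * Real.log L + b * Real.log L' := by
    rw [Real.log_mul (by positivity) (by positivity), Real.log_pow, Real.log_pow]
  have e2 : Real.log (L ^ c * L' ^ d) = (c : ℝ) * Real.log L + d * Real.log L' := by
    rw [Real.log_mul (by positivity) (by positivity), Real.log_pow, Real.log_pow]
  constructor
  · intro h
    rw [← e1, ← e2, h]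
  · intro h
    rw [← e1, ← e2] at h
    have h1 : 0 < L ^ a * L' ^ b := by positivity
    have h2 : 0 < L ^ c * L' ^ d := by positivity
    exact Real.log_injOn_pos h1 h2 h

/-- one class -/
theorem class_bound {c c' : Bool} {j j' t t' : List Bool} (ho : off c t ≤ lvl c t) (ho' : off c' t' ≤ lvl c' t')
    (S : Finset ℕ) (m : ℕ → ℕ) (hval : ∀ n ∈ S, cc (wd c j t n) = cc (wd c' j' t' (m n)))
    (hne : ∀ n ∈ S, wd c j t n ≠ wd c' j' t' (m n)) {N0 : ℕ} (hN : ∀ n ∈ S, N0 ≤ n ∧ n < 2 * N0)
    {D : ℝ} (hD : 0 < D) (hDm : ∀ n ∈ S, D ≤ (oo c' j' (m n) : ℝ) ^ 2)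
    (hmR : ∀ n ∈ S, (m n : ℝ) ≤ Real.sqrt (2 * oo c j N0))
    (hc : 4 * (4 * lvl c t / (oo c j N0 : ℝ) ^ 2 + 4 * lvl c' t' / D) * Real.sqrt (2 * oo c j N0) < 1) :
    S.card ≤ 3 * lvl c t + lvl c' t' + 2 := by
  classical
  obtain ⟨y1, -⟩ := lvl_pos c t
  obtain ⟨y1', -⟩ := lvl_pos c' t'
  by_cases hblk : ∃ n1 ∈ S, ∃ n2 ∈ S, n1 < n2 ∧ 2 * (lvl c t * (n2 - n1)) ≤ N0
  · obtain ⟨n1, s1, n2, s2, h12, hw⟩ := hblk
    have hz : S.card ≤ lvl c t + lvl c' t' + 2 := by
      obtain ⟨δ, hδ⟩ : ∃ δ, δ = 4 * lvl c t / (oo c j N0 : ℝ) ^ 2 + 4 * lvl c' t' / D := ⟨_, rfl⟩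
      have near : ∀ n ∈ S, ∀ n' ∈ S, |(lvl c t : ℝ) * g (fx c j) * (n' - n) -
          lvl c' t' * g (fx c' j') * ((m n' : ℝ) - m n)| ≤ δ := by
        intro n hn n' hn'
        rw [hδ]
        exact near_rel ho ho' hD (hN n hn).1 (hN n' hn').1 (hval n hn) (hval n' hn') (hDm n hn) (hDm n' hn')
      rw [← hδ] at hc
      have hL := un_gt c j
      have hL' := un_gt c' j'
      have hL0 : 0 < un c j := by linarith
      have hL0' : 0 < un c' j' := by linarith
      have ho0 := oo_cast c j N0
      have hγ : 3 / 4 ≤ g (fx c j) := g_lower _ (mt_rel c j).ha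
      have hγ' : 3 / 4 ≤ g (fx c' j') := g_lower _ (mt_rel c' j').ha
      have hyr : (1 : ℝ) ≤ lvl c t := by exact_mod_cast y1
      have hyr' : (1 : ℝ) ≤ lvl c' t' := by exact_mod_cast y1'
      have hδ0 : 0 ≤ δ := by rw [hδ]; positivity
      have hex := exact_rel ho ho' (δ := δ) (A := Real.sqrt (2 * oo c j N0)) h12.le (hval n1 s1) (hval n2 s2) ?_ ?_ hc
      · rw [log_form hL0 hL0'] at hex
        have e1 : Real.log (un c j) = g (fx c j) := rfl
        have e2 : Real.log (un c' j') = g (fx c' j') := rfl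
        rw [e1, e2] at hex
        push_cast at hex
        -- the exact slope
        obtain ⟨w, hwd⟩ : ∃ w : ℤ, w = (n2 : ℤ) - n1 := ⟨_, rfl⟩
        obtain ⟨τ, hτ⟩ : ∃ τ : ℤ, τ = (m n2 : ℤ) - m n1 := ⟨_, rfl⟩
        have hwr : (w : ℝ) = (n2 : ℝ) - n1 := by rw [hwd]; push_cast; ring
        have hτr : (τ : ℝ) = (m n2 : ℝ) - m n1 := by rw [hτ]; push_cast; ring
        have hw1 : (1 : ℝ) ≤ w := by
          have : 1 ≤ w := by omega
          exact_mod_cast this
        have hs : (lvl c t : ℝ) * g (fx c j) * w = lvl c' t' * g (fx c' j') * τ := by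
          rw [hwr, hτr]; linarith
        have hpos : 0 < (lvl c t : ℝ) * g (fx c j) := by
          have : 0 < g (fx c j) := by linarith
          positivity
        have hpos' : 0 < (lvl c' t' : ℝ) * g (fx c' j') := by
          have : 0 < g (fx c' j') := by linarith
          positivity
        have hτ0 : (0 : ℝ) < τ := by
          by_contra hcon
          push Not at hcon
          have h1 : (lvl c' t' : ℝ) * g (fx c' j') * τ ≤ 0 := mul_nonpos_of_nonneg_of_nonpos hpos'.le hcon
          have h2 : 0 < (lvl c t : ℝ) * g (fx c j) * w := by positivity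
          linarith
        have hτR : (τ : ℝ) ≤ Real.sqrt (2 * oo c j N0) := by
          have h1 := hmR n2 s2
          have h2 : (0 : ℝ) ≤ m n1 := by positivity
          linarith
        have hall : ∀ n ∈ S, ∀ n' ∈ S, (lvl c t : ℝ) * g (fx c j) * (n' - n) =
            lvl c' t' * g (fx c' j') * ((m n' : ℝ) - m n) := by
          intro n hn n' hn'
          have h1 := near n hn n' hn'
          obtain ⟨q, hq⟩ : ∃ q : ℤ, q = τ * ((n' : ℤ) - n) - w * ((m n' : ℤ) - m n) := ⟨_, rfl⟩
          have hqr : (q : ℝ) = τ * ((n' : ℝ) - n) - w * ((m n' : ℝ) - m n) := by rw [hq]; push_cast; ring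
          have h2 : (lvl c t : ℝ) * g (fx c j) * q = τ * ((lvl c t : ℝ) * g (fx c j) * (n' - n) -
              lvl c' t' * g (fx c' j') * ((m n' : ℝ) - m n)) := by
            rw [hqr]
            linear_combination (-((m n' : ℝ) - m n)) * hs
          have h3 : |(lvl c t : ℝ) * g (fx c j) * q| ≤ τ * δ := by
            rw [h2, abs_mul, abs_of_pos hτ0]
            exact mul_le_mul_of_nonneg_left h1 hτ0.le
          have h4 : (τ : ℝ) * δ < 1 / 4 := by
            have : (τ : ℝ) * δ ≤ Real.sqrt (2 * oo c j N0) * δ := mul_le_mul_of_nonneg_right hτR hδ0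
            nlinarith
          have hq0 : q = 0 := by
            by_contra hne0
            have h5 : (1 : ℝ) ≤ |(q : ℝ)| := by
              have : 1 ≤ |q| := Int.one_le_abs hne0
              exact_mod_cast this
            rw [abs_mul, abs_of_pos hpos] at h3
            have h6 : 3 / 4 ≤ (lvl c t : ℝ) * g (fx c j) := by nlinarith
            nlinarith
          have h7 : τ * ((lvl c t : ℝ) * g (fx c j) * (n' - n) - lvl c' t' * g (fx c' j') * ((m n' : ℝ) - m n)) = 0 := by
            rw [← h2, hq0]; simp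
          rcases mul_eq_zero.mp h7 with h8 | h8
          · exact absurd h8 hτ0.ne'
          · linarith
        refine zero_bound ho ho' S m hval hne ?_
        intro a ha b hb
        rw [log_form hL0 hL0', e1, e2]
        have := hall a ha b hb
        push_cast
        linarith
      · rw [hδ]
        have e1 : 4 * (lvl c t : ℝ) / (oo c j n1 : ℝ) ^ 2 ≤ 4 * lvl c t / (oo c j N0 : ℝ) ^ 2 := by
          apply div_le_div_of_nonneg_left (by positivity) (by positivity)
          have : (oo c j N0 : ℝ) ≤ oo c j n1 := by exact_mod_cast oo_mono c j (hN n1 s1).1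
          exact pow_le_pow_left₀ (by linarith) this 2
        have e2 : 2 * (lvl c' t' : ℝ) / (oo c' j' (m n1) : ℝ) ^ 2 ≤ 2 * lvl c' t' / D :=
          div_le_div_of_nonneg_left (by positivity) hD (hDm n1 s1)
        have e3 : 2 * (lvl c' t' : ℝ) / (oo c' j' (m n2) : ℝ) ^ 2 ≤ 2 * lvl c' t' / D :=
          div_le_div_of_nonneg_left (by positivity) hD (hDm n2 s2)
        have e4 : 4 * (lvl c' t' : ℝ) / D = 2 * lvl c' t' / D + 2 * lvl c' t' / D := by ring
        linarith
      · apply Real.le_sqrt_of_sq_le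
        rw [← pow_mul]
        have e1 : lvl c t * (n2 - n1) * 2 ≤ N0 := by
          calc lvl c t * (n2 - n1) * 2 = 2 * (lvl c t * (n2 - n1)) := by ring
            _ ≤ N0 := hw
        have e2 : un c j ^ (lvl c t * (n2 - n1) * 2) ≤ un c j ^ N0 := pow_le_pow_right₀ hL.le e1
        have e3 := kk_oo c j N0
        have e4 := kk_lower c j
        have e5 : 0 < un c j ^ N0 := by positivity
        have e6 : 3 / 2 * un c j ^ N0 ≤ kk c j * un c j ^ N0 := mul_le_mul_of_nonneg_right e4 e5.le
        linarith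
    omega
  · push Not at hblk
    obtain ⟨h, hh⟩ : ∃ h, h = N0 / (2 * lvl c t) + 1 := ⟨_, rfl⟩
    have hpos : 0 < h := by rw [hh]; exact Nat.succ_pos _
    have hlt : N0 < (2 * lvl c t) * h := by
      rw [hh]
      have := Nat.lt_mul_div_succ N0 (show 0 < 2 * lvl c t by omega)
      exact this
    have hle : 2 * lvl c t * (h - 1) ≤ N0 := by
      rw [hh, Nat.add_sub_cancel]
      exact Nat.mul_div_le _ _
    have key := Finset.card_le_mul_card_image_of_maps_to (s := S) (t := Finset.range (2 * lvl c t))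
      (f := fun n => (n - N0) / h) ?_ 1 ?_
    · rw [Finset.card_range] at key; omega
    · intro n hn
      obtain ⟨h1, h2⟩ := hN n hn
      rw [Finset.mem_range]
      rw [Nat.div_lt_iff_lt_mul hpos]
      have h3 : n - N0 < N0 := by omega
      exact h3.trans hlt
    · intro k _
      rw [Finset.card_le_one]
      have main : ∀ n1 ∈ S.filter (fun n => (n - N0) / h = k), ∀ n2 ∈ S.filter (fun n => (n - N0) / h = k),
          n1 < n2 → False := by
        intro n1 h1 n2 h2 h12
        rw [Finset.mem_filter] at h1 h2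
        have a1 := (hN n1 h1.1).1
        have b1 : k * h ≤ n1 - N0 := by rw [← h1.2]; exact Nat.div_mul_le_self _ _
        have b2 : n2 - N0 < k * h + h := by
          have := Nat.lt_mul_div_succ (n2 - N0) hpos
          rw [h2.2] at this
          calc n2 - N0 < h * (k + 1) := this
            _ = k * h + h := by ring
        have b3 : n2 - n1 ≤ h - 1 := by omega
        have b4 := hblk n1 h1.1 n2 h2.1 h12
        have b5 : 2 * (lvl c t * (n2 - n1)) ≤ N0 := by
          calc 2 * (lvl c t * (n2 - n1)) ≤ 2 * (lvl c t * (h - 1)) := by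
                apply Nat.mul_le_mul_left; exact Nat.mul_le_mul_left _ b3
            _ = 2 * lvl c t * (h - 1) := by ring
            _ ≤ N0 := hle
        omega
      intro n1 h1 n2 h2
      rcases lt_trichotomy n1 n2 with h3 | h3 | h3
      · exact (main n1 h1 n2 h2 h3).elim
      · exact h3
      · exact (main n2 h2 n1 h1 h3).elim

lemma len_sz' (l : List Bool) : l.length + 2 ≤ sz l := by
  have := size_ge valid_root l
  rwa [pq_root] at this

/-- stripping the initial letters `c` -/
lemma strip_run (c : Bool) (s : List Bool) : ∃ (m : ℕ) (t : List Bool), s = List.replicate m c ++ t ∧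
    off c t ≤ lvl c t ∧ lvl c t = lvl c s := by
  induction s with
  | nil => exact ⟨0, [], rfl, by cases c <;> exact le_rfl, rfl⟩
  | cons e s ih =>
    by_cases hec : e = c
    · subst hec
      obtain ⟨m, t, h1, h2, h3⟩ := ih
      refine ⟨m + 1, t, ?_, h2, ?_⟩
      · rw [List.replicate_succ, List.cons_append, ← h1]
      · rw [h3]; cases e <;> rfl
    · refine ⟨0, e :: s, rfl, ?_, rfl⟩
      have := pt_pos s
      cases c <;> cases e
      · exact absurd rfl hec
      · simp only [off, lvl, pt, Bool.false_eq_true, if_false]; omega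
      · simp only [off, lvl, pt, if_true]; omega
      · exact absurd rfl hec

/-- words with bounded coordinates -/
lemma small_words (c : Bool) (B : ℕ) : ∃ T : Finset (List Bool), T.card ≤ B ^ 2 ∧
    ∀ t, off c t ≤ lvl c t → lvl c t ≤ B → t ∈ T := by
  classical
  have hfin : {t : List Bool | (pt t).1 ≤ B ∧ (pt t).2 ≤ B}.Finite := by
    apply Set.Finite.of_finite_image (f := pt)
    · apply ((Set.finite_Iic B).prod (Set.finite_Iic B)).subset
      rintro _ ⟨t, ht, rfl⟩
      exact ⟨ht.1, ht.2⟩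
    · intro t _ t' _ h
      exact (em_inj t t' 1 1 one_pos one_pos (by rw [h]) (by rw [h])).1
  refine ⟨hfin.toFinset, ?_, ?_⟩
  · have h1 : (hfin.toFinset.image pt).card = hfin.toFinset.card := by
      apply Finset.card_image_of_injective
      intro t t' h
      exact (em_inj t t' 1 1 one_pos one_pos (by rw [h]) (by rw [h])).1
    rw [← h1]
    calc (hfin.toFinset.image pt).card ≤ (Finset.Icc 1 B ×ˢ Finset.Icc 1 B).card := by
          apply Finset.card_le_card
          intro p hp
          obtain ⟨t, ht, rfl⟩ := Finset.mem_image.mp hp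
          rw [Set.Finite.mem_toFinset] at ht
          have := pt_pos t
          rw [Finset.mem_product, Finset.mem_Icc, Finset.mem_Icc]
          exact ⟨⟨this.1, ht.1⟩, ⟨this.2, ht.2⟩⟩
      _ = B ^ 2 := by rw [Finset.card_product, Nat.card_Icc]; simp; ring
  · intro t h1 h2
    rw [Set.Finite.mem_toFinset]
    cases c <;> simp only [off, lvl, Bool.false_eq_true, if_false, if_true] at h1 h2
    · exact ⟨h2, h1.trans h2⟩
    · exact ⟨h1.trans h2, h2⟩

/-- the partners in a cone -/
theorem cone_bound {c : Bool} {j t : List Bool} (ho : off c t ≤ lvl c t) (J : List Bool) (S : Finset ℕ)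
    (P : ℕ → List Bool) (hP : ∀ n ∈ S, P n ≠ wd c j t n ∧ cc (P n) = cc (wd c j t n) ∧ J <+: P n)
    {N0 : ℕ} (hN : ∀ n ∈ S, N0 ≤ n ∧ n < 2 * N0) {B : ℕ}
    (hF : ∀ n ∈ S, FF (P n) < (B + 1) * (FF J / 2 - 2)) (hJ : 0 < FF J / 2 - 2)
    (hsz : ∀ n ∈ S, (sz (P n) : ℝ) ≤ Real.sqrt (2 * oo c j N0))
    (hc : 4 * (4 * lvl c t / (oo c j N0 : ℝ) ^ 2 + 12 * B / (cc J : ℝ)) * Real.sqrt (2 * oo c j N0) < 1) :
    S.card ≤ (3 * lvl c t + B + 2) * B ^ 2 := by
  classical
  -- the letter keeping the smaller region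
  obtain ⟨c', hc'⟩ : ∃ c' : Bool, fa c' (desc root J) ≤ ob c' (desc root J) := by
    rcases le_total (desc root J).a (desc root J).b with h | h
    · exact ⟨true, h⟩
    · exact ⟨false, h⟩
  have hmt := mt_rel c' J
  have hc'r : (fx c' J : ℝ) ≤ ob c' (desc root J) := by exact_mod_cast hc'
  have hcJ : (cc J : ℝ) ≤ 3 * (ob c' (desc root J) : ℝ) ^ 2 := by
    have h1 := hmt.c_lt
    have h2 : 3 * (fx c' J : ℝ) * (ob c' (desc root J)) ≤ 3 * (ob c' (desc root J) : ℝ) ^ 2 := by
      have := hmt.hb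
      nlinarith
    unfold cc; linarith
  have hcJ1 := cc_one J
  have hob : 0 < (ob c' (desc root J) : ℝ) ^ 2 := by linarith
  have hgJ : FF J / 2 ≤ g (ob c' (desc root J)) := by
    have h1 := deficit_nonneg' hmt
    have h2 := g_le_g _ _ hmt.ha hc'r
    have h3 : FF J = g (desc root J).c := rfl
    rw [h3]; linarith
  have hex : ∀ n, ∃ (m : ℕ) (t' : List Bool), n ∈ S → P n = wd c' J t' m ∧ off c' t' ≤ lvl c' t' ∧ lvl c' t' ≤ B := by
    intro n
    by_cases hn : n ∈ S
    · obtain ⟨p1, p2, s, hs⟩ := hP n hn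
      obtain ⟨m, t', h1, h2, h3⟩ := strip_run c' s
      have h4 : P n = wd c' J t' m := by rw [← hs, h1]; unfold wd; rw [List.append_assoc]
      refine ⟨m, t', fun _ => ⟨h4, h2, ?_⟩⟩
      have h5 := (FF_line c' J t' h2 m).1
      rw [← h4] at h5
      have h6 : g (ob c' (desc root J)) ≤ g (oo c' J m) := by
        apply g_le_g _ _ hmt.hb
        have : oo c' J 0 ≤ oo c' J m := oo_mono c' J (Nat.zero_le m)
        have e : oo c' J 0 = ob c' (desc root J) := by unfold oo; simp
        rw [e] at this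
        exact_mod_cast this
      have h7 := hF n hn
      have h8 := oo_cast c' J m
      have h9 : 2 * (off c' t' : ℝ) / (oo c' J m : ℝ) ^ 2 ≤ 2 * lvl c' t' := by
        have h10 : (off c' t' : ℝ) ≤ lvl c' t' := by exact_mod_cast h2
        rw [div_le_iff₀ (by positivity)]
        have h11 : (1 : ℝ) ≤ (oo c' J m : ℝ) ^ 2 := one_le_pow₀ h8
        have h12 : (0 : ℝ) ≤ lvl c' t' := by positivity
        nlinarith
      have h10 : 0 ≤ (off c' t' : ℝ) * g (fx c' J) := mul_nonneg (by positivity) (g_pos _ hmt.ha).le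
      have h11 : (lvl c' t' : ℝ) * (FF J / 2) ≤ lvl c' t' * g (oo c' J m) :=
        mul_le_mul_of_nonneg_left (by linarith) (by positivity)
      have h12 : (lvl c' t' : ℝ) * (FF J / 2 - 2) < (B + 1) * (FF J / 2 - 2) := by
        have : (lvl c' t' : ℝ) * (FF J / 2 - 2) = lvl c' t' * (FF J / 2) - 2 * lvl c' t' := by ring
        linarith
      have h13 := lt_of_mul_lt_mul_right h12 hJ.le
      have h14 : lvl c' t' < B + 1 := by exact_mod_cast h13
      omega
    · exact ⟨0, [], fun h => absurd h hn⟩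
  choose m t' hmt' using hex
  obtain ⟨T, hT1, hT2⟩ := small_words c' B
  have key := Finset.card_le_mul_card_image_of_maps_to (s := S) (t := T) (f := t') ?_
    (3 * lvl c t + B + 2) ?_
  · exact key.trans (Nat.mul_le_mul_left _ hT1)
  · intro n hn
    obtain ⟨h1, h2, h3⟩ := hmt' n hn
    exact hT2 _ h2 h3
  · intro τ _
    rcases (S.filter (fun n => t' n = τ)).eq_empty_or_nonempty with he | ⟨n0, hn0⟩
    · rw [he]; simp
    · rw [Finset.mem_filter] at hn0
      obtain ⟨q1, q2, q3⟩ := hmt' n0 hn0.1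
      rw [hn0.2] at q2 q3
      refine (class_bound ho q2 (j := j) (j' := J) (S.filter (fun n => t' n = τ)) m ?_ ?_ (N0 := N0) ?_
        (D := (ob c' (desc root J) : ℝ) ^ 2) hob ?_ ?_ ?_).trans ?_
      · intro n hn
        rw [Finset.mem_filter] at hn
        have h1 := (hmt' n hn.1).1
        rw [hn.2] at h1
        rw [← h1]; exact (hP n hn.1).2.1.symm
      · intro n hn
        rw [Finset.mem_filter] at hn
        have h1 := (hmt' n hn.1).1
        rw [hn.2] at h1
        rw [← h1]; exact (hP n hn.1).1.symm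
      · intro n hn
        exact hN n (Finset.mem_filter.mp hn).1
      · intro n _
        have : oo c' J 0 ≤ oo c' J (m n) := oo_mono c' J (Nat.zero_le _)
        have e : oo c' J 0 = ob c' (desc root J) := by unfold oo; simp
        rw [e] at this
        have h2 : (ob c' (desc root J) : ℝ) ≤ oo c' J (m n) := by exact_mod_cast this
        exact pow_le_pow_left₀ (by have := hmt.hb; linarith) h2 2
      · intro n hn
        rw [Finset.mem_filter] at hn
        have h1 := (hmt' n hn.1).1
        have h2 := hsz n hn.1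
        have h3 : m n ≤ sz (P n) := by
          rw [h1]
          have := len_sz' (wd c' J (t' n) (m n))
          unfold wd at this ⊢
          simp only [List.length_append, List.length_replicate] at this
          omega
        have h4 : (m n : ℝ) ≤ sz (P n) := by exact_mod_cast h3
        linarith
      · refine lt_of_le_of_lt ?_ hc
        apply mul_le_mul_of_nonneg_right _ (Real.sqrt_nonneg _)
        apply mul_le_mul_of_nonneg_left _ (by norm_num)
        have h1 : 4 * (lvl c' τ : ℝ) / (ob c' (desc root J) : ℝ) ^ 2 ≤ 12 * B / (cc J : ℝ) := by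
          rw [div_le_div_iff₀ hob (by linarith)]
          have h2 : (lvl c' τ : ℝ) ≤ B := by exact_mod_cast q3
          have h3 : (0 : ℝ) ≤ lvl c' τ := by positivity
          calc 4 * (lvl c' τ : ℝ) * cc J ≤ 4 * lvl c' τ * (3 * (ob c' (desc root J) : ℝ) ^ 2) :=
                mul_le_mul_of_nonneg_left hcJ (by positivity)
            _ ≤ 4 * B * (3 * (ob c' (desc root J) : ℝ) ^ 2) :=
                mul_le_mul_of_nonneg_right (by linarith) (by positivity)
            _ = 12 * B * (ob c' (desc root J) : ℝ) ^ 2 := by ring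
        linarith
      · omega

end

end Pool.Agent.Q185.ML
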