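import Mathlib
import Pool.Agent.H609R3.MB.RB
import Pool.Agent.H973R3.MBTree
import Pool.Agent.Q185.ML.Cone

/-! The tree argument with a general threshold. -/

set_option autoImplicit false

namespace Pool.Agent.Q185.ML

open Pool.Agent.H499R2 Pool.Agent.H609R3.MB Pool.Agent.H253MB

noncomputable section

theorem range_gen (hT : TaskTree) {W : Finset (List Bool)} {N : List Bool → ℤ} {ρ R : ℕ} {γ κ E ε : ℝ} (hρ : 12 ≤ ρ)
    (hR : R = 2 ^ ρ) (hε : ε = 9 / E ^ 2) (hnum : 3 * 1024 * (R : ℝ) ^ 4 ≤ E) (hRg : Rg W N R γ κ ε)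
    (hcc : ∀ w ∈ W, E ≤ 3 * cc w) (hterm : ∀ J, 3 ≤ cn W J → 32 * (R : ℝ) * cc J < E) :
    W.card ≤ (2 * (2 * ρ + 5) + 4) ^ 3 := by
  classical
  have hRr : (R : ℝ) = 2 ^ ρ := by rw [hR]; push_cast; rfl
  have hR4096 : (4096 : ℝ) ≤ R := by
    rw [hRr]
    calc (4096 : ℝ) = 2 ^ 12 := by norm_num
      _ ≤ 2 ^ ρ := pow_le_pow_right₀ (by norm_num) hρ
  have hR1 : (1 : ℝ) ≤ R := by linarith
  have hR2 : (1 : ℝ) ≤ (R : ℝ) ^ 2 := one_le_pow₀ hR1
  have hR4 : (R : ℝ) ^ 4 = (R : ℝ) ^ 2 * (R : ℝ) ^ 2 := by ring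
  have hER : 3072 * (R : ℝ) ^ 2 ≤ E := by nlinarith
  have hE : 0 < E := by nlinarith
  have hR12 : (R : ℝ) ≤ (R : ℝ) ^ 2 := by nlinarith
  have hε0 : 0 < ε := by rw [hε]; positivity
  -- (H1)
  have H1 : ∀ J, 3 ≤ cn W J → ∀ w ∈ W, cc J < cc w := by
    intro J hJ w hw
    have e1 := hterm J hJ
    have e2 := hcc w hw
    have e3 := cc_one J
    have : (cc J : ℝ) < cc w := by nlinarith
    exact_mod_cast this
  -- constants
  have hpow : ((2 : ℝ) ^ (2 * ρ + 5)) = 32 * (R : ℝ) ^ 2 := by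
    rw [hRr, show 2 * ρ + 5 = ρ * 2 + 5 by ring, pow_add, pow_mul]; ring
  -- (H2)
  have H2 : ∀ (J J' w : List Bool) (b : Bool), (2 : ℤ) ^ (2 * (2 * ρ + 5)) ≤ cc J → J ++ [b] <+: J' → w ∈ W →
      J ++ [!b] <+: w → 3 ≤ cn W J' → cc J' ≤ 2 ^ (2 * ρ + 5) * cc J := by
    intro J J' w b hdeep hJJ' hw hJw hJ'
    obtain ⟨x, y, z, hx, hy, hz, jx, jy, jz, hxy, hxz, hyz⟩ := three_of_cn hJ'
    have hc1 := cc_one J
    have hc1' := cc_one J'
    have hJle : J <+: J' := (List.prefix_append J [b]).trans hJJ'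
    have hJheavy : 3 ≤ cn W J := hJ'.trans (cn_mono W hJle)
    have hJE := hterm J hJheavy
    have hdeep' : (1024 : ℝ) * (R : ℝ) ^ 4 ≤ cc J := by
      have h1 : ((2 : ℝ) ^ (2 * (2 * ρ + 5))) ≤ cc J := by exact_mod_cast hdeep
      have h2 : ((2 : ℝ) ^ (2 * (2 * ρ + 5))) = 1024 * (R : ℝ) ^ 4 := by
        rw [hRr, show 2 * (2 * ρ + 5) = ρ * 4 + 10 by ring, pow_add, pow_mul]; ring
      linarith
    have hdl := dl_le' J
    have hsmall : 9 * (R : ℝ) ^ 2 * (2 * dl (desc root J) * R + ε) < 3 / 4 := by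
      have k1 : dl (desc root J) ≤ 9 / (1024 * (R : ℝ) ^ 4) ^ 2 := by
        refine hdl.trans ?_
        apply div_le_div_of_nonneg_left (by norm_num) (by positivity)
        exact pow_le_pow_left₀ (by positivity) hdeep' 2
      have k2 : 9 * (R : ℝ) ^ 2 * (2 * (9 / (1024 * (R : ℝ) ^ 4) ^ 2) * R) ≤ 1 / 4 := by
        have : 9 * (R : ℝ) ^ 2 * (2 * (9 / (1024 * (R : ℝ) ^ 4) ^ 2) * R) = 162 * (R : ℝ) ^ 3 / (1048576 * (R : ℝ) ^ 8) := by
          field_simp; ring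
        rw [this, div_le_iff₀ (by positivity)]
        have e1 : (R : ℝ) ^ 3 ≤ (R : ℝ) ^ 8 := pow_le_pow_right₀ hR1 (by norm_num)
        nlinarith
      have k3 : 9 * (R : ℝ) ^ 2 * ε ≤ 1 / 4 := by
        rw [hε, mul_div_assoc', div_le_iff₀ (by positivity)]
        nlinarith
      have k4 : 9 * (R : ℝ) ^ 2 * (2 * dl (desc root J) * R) ≤ 9 * (R : ℝ) ^ 2 * (2 * (9 / (1024 * (R : ℝ) ^ 4) ^ 2) * R) := by
        gcongr
      have k5 : 9 * (R : ℝ) ^ 2 * (2 * dl (desc root J) * R + ε) = 9 * (R : ℝ) ^ 2 * (2 * dl (desc root J) * R) + 9 * (R : ℝ) ^ 2 * ε := by ring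
      linarith
    -- non collinear
    have hA : co (zz x) (zz y) (zz z) ≠ 0 := by
      intro hA
      obtain ⟨u, v, t, hu, hv, ht, d1, d2, hA'⟩ := sort3 hxy hxz hyz (fun w => w ∈ W ∧ J' <+: w)
        ⟨hx, jx⟩ ⟨hy, jy⟩ ⟨hz, jz⟩ hA
      have d3 := dt_trans d1 d2
      have hut : u ≠ t := by rintro rfl; rw [dt_self] at d3; omega
      have huv : u ≠ v := by rintro rfl; rw [dt_self] at d1; omega
      have hvt : v ≠ t := by rintro rfl; rw [dt_self] at d2; omega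
      -- heavy node containing u and t
      have hheavy : ∀ K, K <+: u → K <+: t → 3 ≤ cn W K := by
        intro K ku kt
        have kv := mid_prefix ku kt d1 d2
        unfold cn
        have hsub : ({u, v, t} : Finset (List Bool)) ⊆ W.filter (fun P => K <+: P) := by
          intro w hw
          simp only [Finset.mem_insert, Finset.mem_singleton] at hw
          rw [Finset.mem_filter]
          rcases hw with rfl | rfl | rfl
          · exact ⟨hu.1, ku⟩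
          · exact ⟨hv.1, kv⟩
          · exact ⟨ht.1, kt⟩
        have h3c : ({u, v, t} : Finset (List Bool)).card = 3 := by
          rw [Finset.card_eq_three]; exact ⟨u, v, t, huv, hut, hvt, rfl⟩
        rw [← h3c]
        exact Finset.card_le_card hsub
      have hfin : ∀ K c, K ++ [c] <+: u → K ++ [!c] <+: t → False := by
        intro K c ku kt
        have kh := hheavy K ((List.prefix_append K [c]).trans ku) ((List.prefix_append K [!c]).trans kt)
        have kE := hterm K kh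
        have kc := cc_one K
        have hpos : 0 < dt (zz u) (zz K) ∧ 0 < dt (zz K) (zz t) := by
          cases c
          · exact (not_both d3 (dt_trans (side_lf (by simpa using kt)) (side_rt ku))).elim
          · exact ⟨side_lf ku, side_rt (by simpa using kt)⟩
        have hcol := col hRg (hJle.trans hu.2) (hJle.trans hv.2) (hJle.trans ht.2) hu.1 hv.1 ht.1 hsmall hA' d1 d2 hpos.1 hpos.2
        have hjp := jp_ge K
        have h5 : 4 / (9 * (cc K : ℝ) ^ 2) ≤ (R : ℝ) ^ 2 * ε := hjp.trans hcol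
        rw [hε, mul_div_assoc', div_le_div_iff₀ (by positivity) (by positivity)] at h5
        have h6 : (32 * (R : ℝ) * cc K) ^ 2 ≤ E ^ 2 := pow_le_pow_left₀ (by positivity) kE.le 2
        have h7 : 0 < (R : ℝ) ^ 2 * (cc K : ℝ) ^ 2 := by positivity
        nlinarith
      rcases position u t with h | ⟨c, h⟩ | ⟨c, h⟩ | ⟨K, c, h5, h6⟩
      · exact hut h
      · have := hheavy t ((List.prefix_append t [c]).trans h) (List.prefix_refl t)
        exact lt_irrefl _ (H1 t this t ht.1)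
      · have := hheavy u (List.prefix_refl u) ((List.prefix_append u [c]).trans h)
        exact lt_irrefl _ (H1 u this u hu.1)
      · exact hfin K c h5 h6
    have hkey := key hRg hJJ' jx jy jz hJw hx hy hz hw hsmall hA
    have hjp := jp_ge J
    have hdl' := dl_le' J'
    have h5 : 4 / (9 * (cc J : ℝ) ^ 2) ≤ 9 * (R : ℝ) ^ 2 * (2 * (9 / (cc J' : ℝ) ^ 2) * R + ε) := by
      refine hjp.trans (hkey.trans ?_)
      gcongr
    -- final inequality
    have h6 : (32 * (R : ℝ) * cc J) ^ 2 ≤ E ^ 2 := pow_le_pow_left₀ (by positivity) hJE.le 2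
    have h7 : 9 * (R : ℝ) ^ 2 * ε ≤ (81 / 1024) / (cc J : ℝ) ^ 2 := by
      rw [hε, mul_div_assoc', div_le_div_iff₀ (by positivity) (by positivity)]
      nlinarith
    have h8 : 4 / (9 * (cc J : ℝ) ^ 2) = (4 / 9) / (cc J : ℝ) ^ 2 := by field_simp
    have h9 : 9 * (R : ℝ) ^ 2 * (2 * (9 / (cc J' : ℝ) ^ 2) * R + ε) = 162 * (R : ℝ) ^ 3 / (cc J' : ℝ) ^ 2 + 9 * (R : ℝ) ^ 2 * ε := by
      ring
    rw [h8, h9] at h5
    have h10 : (1 / 4) / (cc J : ℝ) ^ 2 ≤ 162 * (R : ℝ) ^ 3 / (cc J' : ℝ) ^ 2 := by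
      have : (1 / 4) / (cc J : ℝ) ^ 2 + (81 / 1024) / (cc J : ℝ) ^ 2 ≤ (4 / 9) / (cc J : ℝ) ^ 2 := by
        rw [← add_div]
        apply div_le_div_of_nonneg_right (by norm_num) (by positivity)
      linarith
    rw [div_le_div_iff₀ (by positivity) (by positivity)] at h10
    have h11 : (cc J' : ℝ) ^ 2 ≤ (32 * (R : ℝ) ^ 2 * cc J) ^ 2 := by
      have e1 : (32 * (R : ℝ) ^ 2 * cc J) ^ 2 = 1024 * (R : ℝ) ^ 4 * (cc J : ℝ) ^ 2 := by ring
      rw [e1]
      have e2 : (R : ℝ) ^ 3 ≤ (R : ℝ) ^ 4 := pow_le_pow_right₀ hR1 (by norm_num)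
      have e3 : (R : ℝ) ^ 3 * (cc J : ℝ) ^ 2 ≤ (R : ℝ) ^ 4 * (cc J : ℝ) ^ 2 := mul_le_mul_of_nonneg_right e2 (by positivity)
      nlinarith
    have h12 : (cc J' : ℝ) ≤ 32 * (R : ℝ) ^ 2 * cc J := le_of_sq_le_sq h11 (by positivity)
    have h13 : ((2 : ℝ) ^ (2 * ρ + 5)) * cc J = 32 * (R : ℝ) ^ 2 * cc J := by rw [hpow]
    rw [← h13] at h12
    exact_mod_cast h12
  -- (H3)
  have H3 : ∀ w ∈ W, (2 : ℤ) ^ (2 * (2 * ρ + 5)) ≤ cc w := by
    intro w hw
    have e1 := hcc w hw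
    have h2 : ((2 : ℝ) ^ (2 * (2 * ρ + 5))) = 1024 * (R : ℝ) ^ 4 := by
      rw [hRr, show 2 * (2 * ρ + 5) = ρ * 4 + 10 by ring, pow_add, pow_mul]; ring
    have : ((2 : ℝ) ^ (2 * (2 * ρ + 5))) ≤ cc w := by rw [h2]; linarith
    exact_mod_cast this
  exact hT W (2 * ρ + 5) (by omega) H1 H2 H3

end

end Pool.Agent.Q185.ML
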