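import Mathlib
import Pool.Agent.Q185.ML.Gen

/-! Exceptions on a line in a dyadic range of the index. -/

set_option autoImplicit false

namespace Pool.Agent.Q185.ML

open Pool.Agent.H499R2 Pool.Agent.H609R3.MB Pool.Agent.H253MB

noncomputable section

lemma cc_prefix {i l : List Bool} (h : i <+: l) : cc i ≤ cc l := by
  obtain ⟨s, rfl⟩ := h
  induction s using List.reverseRecOn with
  | nil => simp
  | append_singleton s b ih =>
    rw [← List.append_assoc]
    exact ih.trans (c_step _ _).le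

lemma wd_ge (c : Bool) (j t : List Bool) (n : ℕ) : oo c j n < cc (wd c j t n) :=
  lt_of_lt_of_le (oo_lt c j n).2.1 (cc_prefix (List.prefix_append _ _))

lemma exp_tenth {G : ℝ} (hG : 400 ≤ G) : G ^ 4 ≤ Real.exp (G / 10) := by
  have hx : 40 ≤ G / 10 := by linarith
  have h := Real.pow_div_factorial_le_exp (G / 10) (by linarith) 20
  have h1 : (40 : ℝ) ^ 16 ≤ (G / 10) ^ 16 := pow_le_pow_left₀ (by norm_num) hx 16
  have h2 : (G / 10) ^ 20 = (G / 10) ^ 4 * (G / 10) ^ 16 := by ring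
  have h3 : ((Nat.factorial 20 : ℕ) : ℝ) = 2432902008176640000 := by norm_num [Nat.factorial]
  rw [h2, h3] at h
  have h4 : 0 ≤ (G / 10) ^ 4 := by positivity
  have h5 : (G / 10) ^ 4 * (40 : ℝ) ^ 16 / 2432902008176640000 ≤ (G / 10) ^ 4 * (G / 10) ^ 16 / 2432902008176640000 := by
    apply div_le_div_of_nonneg_right _ (by norm_num)
    exact mul_le_mul_of_nonneg_left h1 h4
  have h6 : G ^ 4 ≤ (G / 10) ^ 4 * (40 : ℝ) ^ 16 / 2432902008176640000 := by
    have : G ^ 4 = (G / 10) ^ 4 * 10000 := by ring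
    rw [this, mul_div_assoc]
    apply mul_le_mul_of_nonneg_left _ h4
    norm_num
  linarith

/-- numerical facts -/
lemma numbers {G o R y : ℝ} (hG : 400 ≤ G) (hy : 1 ≤ y) (hyG : 400 * y ≤ G) (h1 : Real.exp G ≤ 3 * o)
    (hR1 : 10 * y * G ≤ R) (hR2 : R ≤ 20 * y * G) :
    96 * R ^ 2 ≤ Real.exp (G / 10) ∧ 3 * 1024 * R ^ 4 ≤ o / R ∧ 39968 * R ^ 3 < Real.sqrt (2 * o) ∧ y ≤ R ∧
      4000 ≤ R ∧ 0 < o := by
  have hG0 : 0 < G := by linarith
  have hyG2 : y * G ≤ G ^ 2 / 400 := by nlinarith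
  have hR3 : R ≤ G ^ 2 / 20 := by linarith
  have hR4 : 4000 ≤ R := by nlinarith
  have hR0 : 0 < R := by linarith
  have hyR : y ≤ R := by nlinarith
  have hE := exp_tenth hG
  have hRG : R ^ 2 ≤ G ^ 4 / 400 := by
    have : R ^ 2 ≤ (G ^ 2 / 20) ^ 2 := pow_le_pow_left₀ hR0.le hR3 2
    calc R ^ 2 ≤ (G ^ 2 / 20) ^ 2 := this
      _ = G ^ 4 / 400 := by ring
  have h96 : 96 * R ^ 2 ≤ Real.exp (G / 10) := by
    have : 0 ≤ G ^ 4 := by positivity
    linarith
  set x := Real.exp (G / 10) with hx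
  have hx10 : x ^ 10 = Real.exp G := by
    rw [hx, ← Real.exp_nat_mul]; congr 1; push_cast; ring
  have hx1 : 96 * 16000000 ≤ x := by nlinarith
  have ho : x ^ 10 ≤ 3 * o := by rw [hx10]; exact h1
  have hx0 : 0 < x := by linarith
  have hR6 : (96 * R ^ 2) ^ 3 ≤ x ^ 3 := pow_le_pow_left₀ (by positivity) h96 3
  have hR6' : 884736 * R ^ 6 ≤ x ^ 3 := by
    calc 884736 * R ^ 6 = (96 * R ^ 2) ^ 3 := by ring
      _ ≤ x ^ 3 := hR6
  have hx7 : (1 : ℝ) ≤ x ^ 6 := one_le_pow₀ (by linarith)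
  have hx37 : x ^ 3 * x ≤ x ^ 10 := by
    calc x ^ 3 * x = x ^ 4 * 1 := by ring
      _ ≤ x ^ 4 * x ^ 6 := mul_le_mul_of_nonneg_left hx7 (by positivity)
      _ = x ^ 10 := by ring
  have hx3 : 0 < x ^ 3 := by positivity
  have hbig : 96 * 16000000 * x ^ 3 ≤ x ^ 10 := by nlinarith
  have ho0 : 0 < o := by nlinarith
  refine ⟨h96, ?_, ?_, hyR, hR4, ho0⟩
  · rw [le_div_iff₀ hR0]
    have e1 : 3 * 1024 * R ^ 4 * R ≤ 3072 * R ^ 6 := by
      have : R ^ 5 ≤ R ^ 6 := pow_le_pow_right₀ (by linarith) (by norm_num)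
      calc 3 * 1024 * R ^ 4 * R = 3072 * R ^ 5 := by ring
        _ ≤ 3072 * R ^ 6 := by linarith
    nlinarith
  · apply Real.lt_sqrt_of_sq_lt
    have e1 : (39968 * R ^ 3) ^ 2 = 1597441024 * R ^ 6 := by ring
    rw [e1]
    nlinarith

/-- the condition of the cone bound -/
lemma cone_cond {o R y q B : ℝ} (ho : 0 < o) (hR : 4000 ≤ R) (hy : 1 ≤ y) (hyR : y ≤ R) (hB : B = 7 * y)
    (hq : o / R ≤ 32 * R * q) (ho1 : 1 ≤ o) (hs : 39968 * R ^ 3 < Real.sqrt (2 * o)) :
    4 * (4 * y / o ^ 2 + 12 * B / q) * Real.sqrt (2 * o) < 1 := by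
  have hR0 : 0 < R := by linarith
  have hq1 : o ≤ 32 * R ^ 2 * q := by
    rw [div_le_iff₀ hR0] at hq
    calc o ≤ 32 * R * q * R := hq
      _ = 32 * R ^ 2 * q := by ring
  have hq0 : 0 < q := by
    by_contra hcon
    push Not at hcon
    have : 32 * R ^ 2 * q ≤ 0 := mul_nonpos_of_nonneg_of_nonpos (by positivity) hcon
    linarith
  set s := Real.sqrt (2 * o) with hsdef
  have hs2 : s ^ 2 = 2 * o := Real.sq_sqrt (by linarith)
  have hs0 : 0 < s := lt_of_le_of_lt (by positivity) hs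
  have h1 : 4 * y / o ^ 2 ≤ 4 * R ^ 3 / o := by
    rw [div_le_div_iff₀ (by positivity) ho]
    have e1 : y ≤ R ^ 3 := by
      have : R ≤ R ^ 3 := by
        calc R = R ^ 1 := by ring
          _ ≤ R ^ 3 := pow_le_pow_right₀ (by linarith) (by norm_num)
      linarith
    calc 4 * y * o ≤ 4 * R ^ 3 * o := by nlinarith
      _ = 4 * R ^ 3 * o * 1 := by ring
      _ ≤ 4 * R ^ 3 * o * o := mul_le_mul_of_nonneg_left ho1 (by positivity)
      _ = 4 * R ^ 3 * o ^ 2 := by ring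
  have h2 : 12 * B / q ≤ 2688 * R ^ 3 / o := by
    rw [div_le_div_iff₀ hq0 ho, hB]
    calc 12 * (7 * y) * o ≤ 84 * R * o := by nlinarith
      _ ≤ 84 * R * (32 * R ^ 2 * q) := mul_le_mul_of_nonneg_left hq1 (by positivity)
      _ = 2688 * R ^ 3 * q := by ring
  have h3 : 4 * (4 * y / o ^ 2 + 12 * B / q) * s ≤ 4 * (2692 * R ^ 3 / o) * s := by
    apply mul_le_mul_of_nonneg_right _ hs0.le
    apply mul_le_mul_of_nonneg_left _ (by norm_num)
    calc 4 * y / o ^ 2 + 12 * B / q ≤ 4 * R ^ 3 / o + 2688 * R ^ 3 / o := add_le_add h1 h2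
      _ = 2692 * R ^ 3 / o := by ring
  refine lt_of_le_of_lt h3 ?_
  have ho2 : o = s ^ 2 / 2 := by rw [hs2]; ring
  rw [ho2]
  have e : 4 * (2692 * R ^ 3 / (s ^ 2 / 2)) * s = 21536 * R ^ 3 / s := by field_simp; ring
  rw [e, div_lt_one hs0]
  have : 0 < R ^ 3 := by positivity
  linarith

/-- The bound in a dyadic range. -/
theorem dyad {c : Bool} {j t : List Bool} (ho : off c t ≤ lvl c t) {N0 ρ : ℕ} (hN0 : 534 * lvl c t ≤ N0)
    (hρ1 : 10 * (lvl c t : ℝ) * g (oo c j N0) ≤ 2 ^ ρ) (hρ2 : (2 : ℝ) ^ ρ ≤ 20 * lvl c t * g (oo c j N0))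
    (S : Finset ℕ) (P : ℕ → List Bool) (hS : ∀ n ∈ S, P n ≠ wd c j t n ∧ cc (P n) = cc (wd c j t n))
    (hN : ∀ n ∈ S, N0 ≤ n ∧ n < 2 * N0) :
    S.card ≤ 588 * lvl c t ^ 3 * (2 * (2 * ρ + 5) + 4) ^ 3 := by
  classical
  obtain ⟨y1, -⟩ := lvl_pos c t
  obtain ⟨y, hy⟩ : ∃ y, y = lvl c t := ⟨_, rfl⟩
  rw [← hy] at hN0 hρ1 hρ2 y1
  obtain ⟨R, hR⟩ : ∃ R : ℕ, R = 2 ^ ρ := ⟨_, rfl⟩
  have hRr : (R : ℝ) = 2 ^ ρ := by rw [hR]; push_cast; rfl
  rw [← hRr] at hρ1 hρ2
  obtain ⟨o, hodef⟩ : ∃ o : ℝ, o = (oo c j N0 : ℝ) := ⟨_, rfl⟩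
  obtain ⟨G, hGdef⟩ : ∃ G : ℝ, G = g (oo c j N0) := ⟨_, rfl⟩
  rw [← hGdef] at hρ1 hρ2
  have ho1 : 1 ≤ o := by rw [hodef]; exact oo_cast c j N0
  have hyr : (1 : ℝ) ≤ y := by exact_mod_cast y1
  obtain ⟨γ, hγdef⟩ : ∃ γ : ℝ, γ = g (fx c j) := ⟨_, rfl⟩
  have hγ : 3 / 4 ≤ γ := by rw [hγdef]; exact g_lower _ (mt_rel c j).ha
  obtain ⟨gl, gu⟩ := g_oo c j N0
  rw [← hγdef, ← hGdef] at gl gu
  have hkk : 0 ≤ Real.log (kk c j) := Real.log_nonneg (by have := kk_lower c j; linarith)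
  have hN0r : 534 * (y : ℝ) ≤ N0 := by exact_mod_cast hN0
  have hGN : 3 / 4 * (N0 : ℝ) ≤ G := by
    have : 3 / 4 * (N0 : ℝ) ≤ N0 * γ := by
      have h0 : (0 : ℝ) ≤ N0 := by positivity
      nlinarith
    linarith
  have hyG : 400 * (y : ℝ) ≤ G := by linarith
  have hG400 : 400 ≤ G := by linarith
  have hexpG : Real.exp G ≤ 3 * o := by
    rw [hGdef, exp_g _ (oo_cast c j N0), hodef]
    exact lam_upper _ (oo_cast c j N0)
  obtain ⟨n1, n2, n3, n4, n5, n6⟩ := numbers hG400 hyr hyG hexpG hρ1 hρ2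
  have hR0 : (0 : ℝ) < R := by linarith
  -- upper bounds for the values
  have hFub : ∀ n, N0 ≤ n → n < 2 * N0 → FF (wd c j t n) ≤ y * (3 * G + 1) := by
    intro n h1 h2
    have h3 := (FF_line c j t ho n).2
    have h4 := (g_oo c j n).2
    rw [← hγdef] at h3 h4
    rw [← hy] at h3 ho
    have h5 := oo_cast c j n
    have h6 : 1 / (oo c j n : ℝ) ^ 2 ≤ 1 := by
      rw [div_le_one (by positivity)]; exact one_le_pow₀ h5
    have h7 : (n : ℝ) ≤ 2 * N0 := by exact_mod_cast h2.le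
    have h8 : (n : ℝ) * γ ≤ 2 * N0 * γ := mul_le_mul_of_nonneg_right h7 (by linarith)
    have h9 : g (oo c j n) ≤ 2 * G + 1 := by linarith
    have h10 : (off c t : ℝ) ≤ y := by exact_mod_cast ho
    have h11 : γ ≤ G := by
      have : (1 : ℝ) ≤ N0 := by linarith
      nlinarith
    have h12 : (off c t : ℝ) * γ ≤ y * G := mul_le_mul h10 h11 (by linarith) (by linarith)
    have h13 : (y : ℝ) * g (oo c j n) ≤ y * (2 * G + 1) := mul_le_mul_of_nonneg_left h9 (by linarith)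
    nlinarith
  obtain ⟨E, hE⟩ : ∃ E : ℝ, E = o / R := ⟨_, rfl⟩
  rw [← hE] at n2
  have hE0 : 0 < E := by rw [hE]; positivity
  have hEo : E ≤ o := by rw [hE]; exact div_le_self n6.le (by linarith)
  have hoS : ∀ n ∈ S, o ≤ cc (P n) := by
    intro n hn
    rw [(hS n hn).2]
    have h1 : oo c j N0 ≤ oo c j n := oo_mono c j (hN n hn).1
    have h2 := wd_ge c j t n
    have h3 : oo c j N0 ≤ cc (wd c j t n) := by omega
    rw [hodef]; exact_mod_cast h3
  -- non-low nodes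
  set NL : List Bool → Prop := fun J => E ≤ 32 * (R : ℝ) * cc J with hNL
  have hNLP : ∀ n ∈ S, NL (P n) := by
    intro n hn
    have h1 := hoS n hn
    show E ≤ 32 * (R : ℝ) * cc (P n)
    have h2 := cc_one (P n)
    nlinarith
  have hmin : ∀ w : List Bool, ∃ K : List Bool, NL w → K <+: w ∧ NL K ∧ ∀ K', K' <+: w → NL K' → K <+: K' := by
    intro w
    by_cases hw : NL w
    · have hex : ∃ k, NL (w.take k) := ⟨w.length, by rw [List.take_length]; exact hw⟩
      refine ⟨w.take (Nat.find hex), fun _ => ⟨List.take_prefix _ _, Nat.find_spec hex, ?_⟩⟩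
      intro K' hK' hN'
      have h1 : K' = w.take K'.length := List.prefix_iff_eq_take.mp hK'
      have h2 : Nat.find hex ≤ K'.length := Nat.find_min' hex (by rw [← h1]; exact hN')
      rw [h1]
      exact List.take_prefix_take_left h2
    · exact ⟨[], fun h => absurd h hw⟩
  choose p hp using hmin
  -- the fibres
  have hfib : ∀ J ∈ S.image (fun n => p (P n)), (S.filter (fun n => p (P n) = J)).card ≤ 588 * y ^ 3 := by
    intro J hJ
    obtain ⟨n0, hn0, rfl⟩ := Finset.mem_image.mp hJ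
    have hNLJ := (hp (P n0) (hNLP n0 hn0)).2.1
    set J := p (P n0) with hJdef
    have hNLJ' : E ≤ 32 * (R : ℝ) * cc J := hNLJ
    have hccJ := cc_one J
    have hFJ : 9 / 10 * G ≤ FF J := by
      have h1 : FF J = Real.log (lam (cc J)) := rfl
      rw [h1, Real.le_log_iff_exp_le (lam_pos _ hccJ)]
      have h2 := lam_lower _ hccJ
      have h3 : Real.exp (9 / 10 * G) * Real.exp (G / 10) = Real.exp G := by
        rw [← Real.exp_add]; congr 1; ring
      have h4 : o ≤ 32 * (R : ℝ) ^ 2 * cc J := by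
        rw [hE, div_le_iff₀ hR0] at hNLJ'
        calc o ≤ 32 * (R : ℝ) * cc J * R := hNLJ'
          _ = 32 * (R : ℝ) ^ 2 * cc J := by ring
      have h5 : Real.exp G ≤ Real.exp (G / 10) * cc J := by
        calc Real.exp G ≤ 3 * o := hexpG
          _ ≤ 3 * (32 * (R : ℝ) ^ 2 * cc J) := by linarith
          _ = 96 * (R : ℝ) ^ 2 * cc J := by ring
          _ ≤ Real.exp (G / 10) * cc J := mul_le_mul_of_nonneg_right n1 (by linarith)
      rw [← h3, mul_comm] at h5
      have h6 := le_of_mul_le_mul_left h5 (Real.exp_pos _)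
      linarith
    have hcone := cone_bound (c := c) (j := j) (t := t) ho J (S.filter (fun n => p (P n) = J)) P ?_ (N0 := N0) ?_
      (B := 7 * y) ?_ ?_ ?_ ?_
    · rw [← hy] at hcone
      refine hcone.trans ?_
      calc (3 * y + 7 * y + 2) * (7 * y) ^ 2 ≤ (12 * y) * (7 * y) ^ 2 := by
            apply Nat.mul_le_mul_right
            omega
        _ = 588 * y ^ 3 := by ring
    · intro n hn
      rw [Finset.mem_filter] at hn
      refine ⟨(hS n hn.1).1, (hS n hn.1).2, ?_⟩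
      rw [← hn.2]
      exact (hp (P n) (hNLP n hn.1)).1
    · intro n hn
      exact hN n (Finset.mem_filter.mp hn).1
    · intro n hn
      rw [Finset.mem_filter] at hn
      have h1 : FF (P n) = FF (wd c j t n) := by rw [FF_eq, FF_eq, (hS n hn.1).2]
      rw [h1]
      have h2 := hFub n (hN n hn.1).1 (hN n hn.1).2
      push_cast
      nlinarith
    · linarith
    · intro n hn
      rw [Finset.mem_filter] at hn
      rw [← hodef]
      have h0 := FF_size' (P n)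
      have h1 : FF (P n) = FF (wd c j t n) := by rw [FF_eq, FF_eq, (hS n hn.1).2]
      have h2 := hFub n (hN n hn.1).1 (hN n hn.1).2
      have h5 : (sz (P n) : ℝ) ≤ R := by nlinarith
      have h6 : (R : ℝ) ≤ 39968 * (R : ℝ) ^ 3 := by
        have : (R : ℝ) ≤ (R : ℝ) ^ 3 := by
          calc (R : ℝ) = (R : ℝ) ^ 1 := by ring
            _ ≤ (R : ℝ) ^ 3 := pow_le_pow_right₀ (by linarith) (by norm_num)
        have : (0 : ℝ) ≤ (R : ℝ) ^ 3 := by positivity
        linarith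
      linarith
    · rw [← hy, ← hodef]
      push_cast
      exact cone_cond n6 n5 hyr n4 rfl (by rw [← hE]; exact hNLJ') ho1 n3
  -- representatives
  have hsec : ∀ J : List Bool, ∃ n : ℕ, J ∈ S.image (fun n => p (P n)) → n ∈ S ∧ p (P n) = J := by
    intro J
    by_cases hJ : J ∈ S.image (fun n => p (P n))
    · obtain ⟨n, hn, hnJ⟩ := Finset.mem_image.mp hJ
      exact ⟨n, fun _ => ⟨hn, hnJ⟩⟩
    · exact ⟨0, fun h => absurd h hJ⟩
  choose σ hσ using hsec
  set T := S.image (fun n => p (P n)) with hT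
  set W0 := T.image (fun J => P (σ J)) with hW0
  have hcardT : W0.card = T.card := by
    apply Finset.card_image_of_injOn
    intro J hJ J' hJ' h
    have h1 := (hσ J hJ).2
    have h2 := (hσ J' hJ').2
    simp only at h
    rw [← h1, ← h2, h]
  -- the representatives are words of W
  have hW : ∀ w ∈ W0, ∃ n ∈ S, P n = w ∧ ∃ J ∈ T, σ J = n ∧ p w = J := by
    intro w hw
    obtain ⟨J, hJ, rfl⟩ := Finset.mem_image.mp hw
    exact ⟨σ J, (hσ J hJ).1, rfl, J, hJ, rfl, (hσ J hJ).2⟩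
  have hterm : ∀ J, 3 ≤ cn W0 J → 32 * (R : ℝ) * cc J < E := by
    intro J hJ
    by_contra hcon
    push Not at hcon
    obtain ⟨x, x', -, hx, hx', -, jx, jx', -, hxx, -, -⟩ := three_of_cn hJ
    have hNLJ : NL J := hcon
    obtain ⟨n, hn, e1, J1, hJ1, e2, e3⟩ := hW x hx
    obtain ⟨n', hn', e1', J1', hJ1', e2', e3'⟩ := hW x' hx'
    have a1 := hp x (by rw [← e1]; exact hNLP n hn)
    have a2 := hp x' (by rw [← e1']; exact hNLP n' hn')
    have b1 := a1.2.2 J jx hNLJ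
    have b2 := a2.2.2 J jx' hNLJ
    have c1 := a1.2.2 (p x') (b2.trans jx) a2.2.1
    have c2 := a2.2.2 (p x) (b1.trans jx') a1.2.1
    have hpp : p x = p x' := by
      have l1 := c1.length_le
      have l2 := c2.length_le
      first
        | exact List.IsPrefix.eq_of_length c1 (by omega)
        | exact (List.IsPrefix.eq_of_length c1 (by omega)).symm
    apply hxx
    rw [← e1, ← e1', ← e2, ← e2', ← e3, ← e3', hpp]
  -- the index of a word
  have hidx : ∀ w : List Bool, ∃ n : ℕ, w ∈ W0 → n ∈ S ∧ P n = w := by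
    intro w
    by_cases hw : w ∈ W0
    · obtain ⟨n, hn, e, -⟩ := hW w hw
      exact ⟨n, fun _ => ⟨hn, e⟩⟩
    · exact ⟨0, fun h => absurd h hw⟩
  choose ix hix using hidx
  have hFS : ∀ n ∈ S, FF (P n) = FF (wd c j t n) := by
    intro n hn; rw [FF_eq, FF_eq, (hS n hn).2]
  set κ : ℝ := off c t * g (fx c j) + lvl c t * Real.log (kk c j) with hκ
  have hRg : Rg W0 (fun w => (ix w : ℤ)) R (y * γ) (κ - 2 * y / o ^ 2) (9 / E ^ 2) := by
    refine ⟨by nlinarith, ?_, ?_⟩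
    · intro w hw
      obtain ⟨h1, h2⟩ := hix w hw
      have h3 := line_lin c j t ho (ix w)
      rw [← hFS _ h1, h2, ← hκ, ← hy, ← hγdef, abs_le] at h3
      have h4 : (oo c j N0 : ℝ) ≤ oo c j (ix w) := by exact_mod_cast oo_mono c j (hN _ h1).1
      rw [← hodef] at h4
      have h5 : 2 * (y : ℝ) / (oo c j (ix w) : ℝ) ^ 2 ≤ 2 * y / o ^ 2 := by
        apply div_le_div_of_nonneg_left (by positivity) (by positivity)
        exact pow_le_pow_left₀ (by linarith) h4 2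
      have h6 : 2 * (y : ℝ) / o ^ 2 + 2 * y / o ^ 2 ≤ 9 / E ^ 2 := by
        have e1 : 9 / E ^ 2 = 9 * (R : ℝ) ^ 2 / o ^ 2 := by rw [hE]; field_simp
        rw [e1, ← add_div]
        apply div_le_div_of_nonneg_right _ (by positivity)
        have : (R : ℝ) ≤ (R : ℝ) ^ 2 := by nlinarith
        linarith
      push_cast
      have h7 : (y : ℝ) * γ * (ix w : ℝ) = (ix w : ℝ) * (y * γ) := by ring
      rw [h7] at h3
      constructor <;> linarith [h3.1, h3.2]
    · intro w hw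
      obtain ⟨h1, h2⟩ := hix w hw
      have h3 := FF_size' w
      have h4 := hFub _ (hN _ h1).1 (hN _ h1).2
      rw [← hFS _ h1, h2] at h4
      have h5 : (sz w : ℝ) ≤ R := by nlinarith
      exact_mod_cast h5
  have hρ12 : 12 ≤ ρ := by
    by_contra hcon
    push Not at hcon
    have h1 : (2 : ℝ) ^ ρ ≤ 2 ^ 11 := pow_le_pow_right₀ (by norm_num) (by omega)
    have h2 : (2 : ℝ) ^ 11 = 2048 := by norm_num
    rw [← hRr, h2] at h1
    linarith
  have hgen := range_gen Pool.Agent.H973R3.MBTree.taskTree (W := W0) hρ12 hR rfl n2 hRg ?_ hterm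
  · rw [hcardT] at hgen
    have key := Finset.card_le_mul_card_image_of_maps_to (s := S) (t := T) (f := fun n => p (P n)) ?_
      (588 * y ^ 3) hfib
    · rw [← hy]
      exact key.trans (Nat.mul_le_mul_left _ hgen)
    · intro n hn
      exact Finset.mem_image_of_mem _ hn
  · intro w hw
    obtain ⟨h1, h2⟩ := hix w hw
    have h3 := hoS _ h1
    rw [h2] at h3
    have := cc_one w
    linarith

end

end Pool.Agent.Q185.ML
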