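import Mathlib
import Pool.Agent.Q185.ML.Dyad

/-! Exceptions on a line up to a given size. -/

set_option autoImplicit false

namespace Pool.Agent.Q185.ML

open Pool.Agent.H499R2 Pool.Agent.H609R3.MB Pool.Agent.H253MB

noncomputable section

lemma FF_le_sz (l : List Bool) : FF l ≤ 2 * sz l := by
  have hv := valid_root.desc l
  have h := be_size hv.lf
  have e1 : be (lf (desc root l)) = FF l := rfl
  have e2 : (lf (desc root l)).q = (desc root l).p + (desc root l).q := rfl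
  rw [e1, e2, sz_pq] at h
  exact h.2

lemma n_le_sz (c : Bool) (j t : List Bool) (n : ℕ) : n ≤ sz (wd c j t n) := by
  have h := len_sz' (wd c j t n)
  unfold wd at h ⊢
  simp only [List.length_append, List.length_replicate] at h
  omega

lemma pow_near {x : ℝ} (hx : 1 ≤ x) : ∃ ρ : ℕ, x ≤ 2 ^ ρ ∧ (2 : ℝ) ^ ρ ≤ 2 * x := by
  obtain ⟨n, h1, h2⟩ := exists_nat_pow_near hx (by norm_num : (1 : ℝ) < 2)
  refine ⟨n + 1, h2.le, ?_⟩
  rw [pow_succ]; linarith

theorem fam_nat {c : Bool} {j t : List Bool} (ho : off c t ≤ lvl c t) {Q : ℕ} (hQ : 1 ≤ Q) (S : Finset ℕ)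
    (hS : ∀ n ∈ S, sz (wd c j t n) ≤ Q ∧ ∃ l, l ≠ wd c j t n ∧ cc l = cc (wd c j t n)) :
    S.card ≤ 534 * lvl c t + 588 * lvl c t ^ 3 * (2 * (2 * ⌊3 * Real.log Q⌋₊ + 5) + 4) ^ 3 * (Nat.log 2 Q + 1) := by
  classical
  obtain ⟨y1, -⟩ := lvl_pos c t
  have hex : ∀ n, ∃ l, n ∈ S → l ≠ wd c j t n ∧ cc l = cc (wd c j t n) := by
    intro n
    by_cases hn : n ∈ S
    · obtain ⟨l, h1, h2⟩ := (hS n hn).2
      exact ⟨l, fun _ => ⟨h1, h2⟩⟩
    · exact ⟨[], fun h => absurd h hn⟩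
  choose P hP using hex
  set y := lvl c t with hy
  have hQr : (1 : ℝ) ≤ Q := by exact_mod_cast hQ
  have hyr : (1 : ℝ) ≤ y := by exact_mod_cast y1
  have hA : (S.filter (fun n => n < 534 * y)).card ≤ 534 * y := by
    calc (S.filter (fun n => n < 534 * y)).card ≤ (Finset.range (534 * y)).card := by
          apply Finset.card_le_card
          intro n hn
          rw [Finset.mem_filter] at hn
          exact Finset.mem_range.mpr hn.2
      _ = 534 * y := Finset.card_range _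
  have hB : (S.filter (fun n => ¬ n < 534 * y)).card ≤
      588 * y ^ 3 * (2 * (2 * ⌊3 * Real.log Q⌋₊ + 5) + 4) ^ 3 * (Nat.log 2 Q + 1) := by
    have key := Finset.card_le_mul_card_image_of_maps_to (s := S.filter (fun n => ¬ n < 534 * y))
      (t := Finset.range (Nat.log 2 Q + 1)) (f := fun n => Nat.log 2 (n / (534 * y))) ?_
      (588 * y ^ 3 * (2 * (2 * ⌊3 * Real.log Q⌋₊ + 5) + 4) ^ 3) ?_
    · rwa [Finset.card_range] at key
    · intro n hn
      rw [Finset.mem_filter] at hn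
      rw [Finset.mem_range]
      have h1 : n / (534 * y) ≤ Q :=
        (Nat.div_le_self _ _).trans ((n_le_sz c j t n).trans (hS n hn.1).1)
      have := Nat.log_mono_right (b := 2) h1
      omega
    · intro i _
      set F := (S.filter (fun n => ¬ n < 534 * y)).filter (fun n => Nat.log 2 (n / (534 * y)) = i) with hF
      obtain ⟨N0, hN0⟩ : ∃ N0, N0 = 534 * y * 2 ^ i := ⟨_, rfl⟩
      have hFm : ∀ n ∈ F, n ∈ S ∧ N0 ≤ n ∧ n < 2 * N0 := by
        intro n hn
        rw [hF, Finset.mem_filter, Finset.mem_filter] at hn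
        obtain ⟨⟨h1, h2⟩, h3⟩ := hn
        have h534 : 0 < 534 * y := by omega
        have h4 : n / (534 * y) ≠ 0 := by
          have : 1 ≤ n / (534 * y) := (Nat.one_le_div_iff h534).mpr (by omega)
          omega
        have h5 : 2 ^ i ≤ n / (534 * y) := by rw [← h3]; exact Nat.pow_log_le_self 2 h4
        have h6 : n / (534 * y) < 2 ^ (i + 1) := by rw [← h3]; exact Nat.lt_pow_succ_log_self (by norm_num) _
        refine ⟨h1, ?_, ?_⟩
        · rw [hN0]
          calc 534 * y * 2 ^ i ≤ 534 * y * (n / (534 * y)) := Nat.mul_le_mul_left _ h5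
            _ ≤ n := Nat.mul_div_le _ _
        · rw [hN0]
          rw [Nat.div_lt_iff_lt_mul h534] at h6
          calc n < 2 ^ (i + 1) * (534 * y) := h6
            _ = 2 * (534 * y * 2 ^ i) := by ring
      rcases F.eq_empty_or_nonempty with he | ⟨n0, hn0⟩
      · rw [he]; simp
      · obtain ⟨s0, a0, b0⟩ := hFm n0 hn0
        have hN534 : 534 * y ≤ N0 := by
          rw [hN0]; exact Nat.le_mul_of_pos_right _ (by positivity)
        have hG1 : g (oo c j N0) ≤ 2 * Q := by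
          have h1 : (oo c j N0 : ℝ) ≤ cc (wd c j t n0) := by
            have h2 : oo c j N0 ≤ oo c j n0 := oo_mono c j a0
            have h3 := wd_ge c j t n0
            have h4 : oo c j N0 ≤ cc (wd c j t n0) := by omega
            exact_mod_cast h4
          have h5 := g_le_g _ _ (oo_cast c j N0) h1
          rw [← FF_eq] at h5
          have h6 := FF_le_sz (wd c j t n0)
          have h7 : (sz (wd c j t n0) : ℝ) ≤ Q := by exact_mod_cast (hS n0 s0).1
          linarith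
        have hG0 : 3 / 4 * (N0 : ℝ) ≤ g (oo c j N0) := by
          have h1 := (g_oo c j N0).1
          have h2 : 0 ≤ Real.log (kk c j) := Real.log_nonneg (by have := kk_lower c j; linarith)
          have h3 : 3 / 4 ≤ g (fx c j) := g_lower _ (mt_rel c j).ha
          have h4 : (0 : ℝ) ≤ N0 := by positivity
          nlinarith
        have hN534r : 534 * (y : ℝ) ≤ N0 := by exact_mod_cast hN534
        have hyQ : 200 * (y : ℝ) ≤ Q := by linarith
        obtain ⟨ρ, r1, r2⟩ := pow_near (x := 10 * (y : ℝ) * g (oo c j N0)) (by nlinarith)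
        have hρQ : ρ ≤ ⌊3 * Real.log Q⌋₊ := by
          apply Nat.le_floor
          have h1 : (2 : ℝ) ^ ρ ≤ (Q : ℝ) ^ 2 := by
            have h2 : 20 * (y : ℝ) * g (oo c j N0) ≤ 20 * y * (2 * Q) :=
              mul_le_mul_of_nonneg_left hG1 (by positivity)
            nlinarith
          have h2 := Real.log_le_log (by positivity) h1
          rw [Real.log_pow, Real.log_pow] at h2
          have h3 := Real.log_two_gt_d9
          have h4 : (0 : ℝ) ≤ ρ := by positivity
          push_cast at h2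
          nlinarith
        have h1 := dyad (c := c) (j := j) (t := t) ho hN534 (ρ := ρ) (by rw [← hy]; exact r1)
          (by rw [← hy]; linarith) F P
          (fun n hn => hP n (hFm n hn).1) (fun n hn => (hFm n hn).2)
        rw [← hy] at h1
        refine h1.trans (Nat.mul_le_mul_left _ ?_)
        exact Nat.pow_le_pow_left (by omega) 3
  have hsplit := Finset.card_filter_add_card_filter_not (s := S) (fun n => n < 534 * y)
  omega

/-- **Exceptions on a line of words.** -/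
theorem fam_bound : ∃ C : ℝ, 0 < C ∧ ∀ (c : Bool) (j t : List Bool), off c t ≤ lvl c t → ∀ Q : ℕ, 1 ≤ Q →
    ∀ S : Finset ℕ, (∀ n ∈ S, sz (wd c j t n) ≤ Q ∧ ∃ l, l ≠ wd c j t n ∧ cc l = cc (wd c j t n)) →
    (S.card : ℝ) ≤ C * (lvl c t : ℝ) ^ 3 * (1 + Real.log Q) ^ 4 := by
  refine ⟨534 + 588 * 2744 * 2, by norm_num, ?_⟩
  intro c j t ho Q hQ S hS
  have h := fam_nat ho hQ S hS
  obtain ⟨y1, -⟩ := lvl_pos c t
  have hyr : (1 : ℝ) ≤ lvl c t := by exact_mod_cast y1
  have hQr : (1 : ℝ) ≤ Q := by exact_mod_cast hQ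
  have hl : 0 ≤ Real.log Q := Real.log_nonneg hQr
  have h1 : (S.card : ℝ) ≤ 534 * (lvl c t : ℝ) + 588 * (lvl c t : ℝ) ^ 3 *
      (2 * (2 * (⌊3 * Real.log Q⌋₊ : ℝ) + 5) + 4) ^ 3 * ((Nat.log 2 Q : ℝ) + 1) := by exact_mod_cast h
  have h2 : (⌊3 * Real.log Q⌋₊ : ℝ) ≤ 3 * Real.log Q := Nat.floor_le (by linarith)
  have h3 : (Nat.log 2 Q : ℝ) + 1 ≤ 2 * (1 + Real.log Q) := by
    have e1 : (2 : ℝ) ^ Nat.log 2 Q ≤ Q := by exact_mod_cast Nat.pow_log_le_self 2 (by omega)
    have e2 := Real.log_le_log (by positivity) e1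
    rw [Real.log_pow] at e2
    have e3 := Real.log_two_gt_d9
    have e4 : (0 : ℝ) ≤ (Nat.log 2 Q : ℝ) := by positivity
    nlinarith
  have h4 : (2 * (2 * (⌊3 * Real.log Q⌋₊ : ℝ) + 5) + 4) ≤ 14 * (1 + Real.log Q) := by linarith
  have h5 : (2 * (2 * (⌊3 * Real.log Q⌋₊ : ℝ) + 5) + 4) ^ 3 ≤ (14 * (1 + Real.log Q)) ^ 3 :=
    pow_le_pow_left₀ (by positivity) h4 3
  have hL1 : (1 : ℝ) ≤ 1 + Real.log Q := by linarith
  set L := 1 + Real.log Q with hL
  set y := (lvl c t : ℝ) with hy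
  have hy3 : (1 : ℝ) ≤ y ^ 3 := one_le_pow₀ hyr
  have hyy : y ≤ y ^ 3 := by
    calc y = y ^ 1 := by ring
      _ ≤ y ^ 3 := pow_le_pow_right₀ hyr (by norm_num)
  have hL4 : (1 : ℝ) ≤ L ^ 4 := one_le_pow₀ hL1
  have h6 : 588 * y ^ 3 * (2 * (2 * (⌊3 * Real.log Q⌋₊ : ℝ) + 5) + 4) ^ 3 * ((Nat.log 2 Q : ℝ) + 1) ≤
      588 * y ^ 3 * (14 * L) ^ 3 * (2 * L) := by
    apply mul_le_mul _ h3 (by positivity) (by positivity)
    exact mul_le_mul_of_nonneg_left h5 (by positivity)
  have h7 : 534 * y ≤ 534 * y ^ 3 * L ^ 4 := by nlinarith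
  calc (S.card : ℝ) ≤ 534 * y + 588 * y ^ 3 * (14 * L) ^ 3 * (2 * L) := by linarith
    _ ≤ 534 * y ^ 3 * L ^ 4 + 588 * y ^ 3 * (14 * L) ^ 3 * (2 * L) := by linarith
    _ = (534 + 588 * 2744 * 2) * y ^ 3 * L ^ 4 := by ring

end

end Pool.Agent.Q185.ML
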