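import Mathlib
import Pool.Agent.Q185.ML.Fam

/-! Exceptions below a node. -/

set_option autoImplicit false

namespace Pool.Agent.Q185.ML

open Pool.Agent.H499R2 Pool.Agent.H609R3.MB Pool.Agent.H253MB

noncomputable section

/-- the words which are exceptions of the uniqueness -/
def Ex (l : List Bool) : Prop := ∃ l', l' ≠ l ∧ cc l' = cc l

lemma sz_lvl (R s : List Bool) : (pt s).1 * (desc root R).p + (pt s).2 * (desc root R).q = sz (R ++ s) := by
  have hv := valid_root.desc R
  have h := sz_coord hv (R ++ s)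
  obtain ⟨h1, h2⟩ := cu_vec hv s
  rw [zz_append, h1, h2] at h
  exact_mod_cast h.symm

/-- **Exceptions below a node.** -/
theorem below : ∃ C : ℝ, 0 < C ∧ ∀ (R : List Bool) (H B : ℕ), 1 ≤ H → 2 * H ≤ B * sz R → ∀ S : Finset (List Bool),
    (∀ l ∈ S, R <+: l ∧ sz l ≤ H ∧ Ex l) → (S.card : ℝ) ≤ C * (B : ℝ) ^ 5 * (1 + Real.log H) ^ 4 := by
  classical
  obtain ⟨C, hC, hfam⟩ := fam_bound
  refine ⟨C, hC, ?_⟩
  intro R H B hH hHB S hS
  have hszR : 0 < sz R := by have := len_sz' R; omega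
  have hl : 0 ≤ Real.log H := Real.log_nonneg (by exact_mod_cast hH)
  obtain ⟨c, hc⟩ : ∃ c : Bool, ∀ s, sz (R ++ s) ≤ H → lvl c s ≤ B := by
    have hpq := sz_pq R
    rcases le_total (desc root R).p (desc root R).q with h | h
    · refine ⟨true, fun s hs => ?_⟩
      have h1 := sz_lvl R s
      have h2 : (pt s).2 * sz R ≤ 2 * H := by
        calc (pt s).2 * sz R ≤ (pt s).2 * (2 * (desc root R).q) := Nat.mul_le_mul_left _ (by omega)
          _ = 2 * ((pt s).2 * (desc root R).q) := by ring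
          _ ≤ 2 * H := Nat.mul_le_mul_left _ (by omega)
      have h3 := h2.trans hHB
      exact Nat.le_of_mul_le_mul_right h3 hszR
    · refine ⟨false, fun s hs => ?_⟩
      have h1 := sz_lvl R s
      have h2 : (pt s).1 * sz R ≤ 2 * H := by
        calc (pt s).1 * sz R ≤ (pt s).1 * (2 * (desc root R).p) := Nat.mul_le_mul_left _ (by omega)
          _ = 2 * ((pt s).1 * (desc root R).p) := by ring
          _ ≤ 2 * H := Nat.mul_le_mul_left _ (by omega)
      have h3 := h2.trans hHB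
      exact Nat.le_of_mul_le_mul_right h3 hszR
  have hex : ∀ l : List Bool, ∃ (m : ℕ) (t : List Bool), l ∈ S → l = wd c R t m ∧ off c t ≤ lvl c t ∧ lvl c t ≤ B := by
    intro l
    by_cases hlS : l ∈ S
    · obtain ⟨⟨s, hs⟩, h2, h3⟩ := hS l hlS
      obtain ⟨m, t, e1, e2, e3⟩ := strip_run c s
      refine ⟨m, t, fun _ => ⟨?_, e2, ?_⟩⟩
      · rw [← hs, e1]; unfold wd; rw [List.append_assoc]
      · rw [e3]; exact hc s (by rw [hs]; exact h2)
    · exact ⟨0, [], fun h => absurd h hlS⟩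
  choose m t hmt using hex
  obtain ⟨T, hT1, hT2⟩ := small_words c B
  have hK0 : 0 ≤ C * (B : ℝ) ^ 3 * (1 + Real.log H) ^ 4 := by positivity
  have key := Finset.card_le_mul_card_image_of_maps_to (s := S) (t := T) (f := t) ?_
    ⌊C * (B : ℝ) ^ 3 * (1 + Real.log H) ^ 4⌋₊ ?_
  · have h1 : (S.card : ℝ) ≤ (⌊C * (B : ℝ) ^ 3 * (1 + Real.log H) ^ 4⌋₊ : ℝ) * (T.card : ℝ) := by exact_mod_cast key
    have h2 : (T.card : ℝ) ≤ (B : ℝ) ^ 2 := by exact_mod_cast hT1
    calc (S.card : ℝ) ≤ (⌊C * (B : ℝ) ^ 3 * (1 + Real.log H) ^ 4⌋₊ : ℝ) * (T.card : ℝ) := h1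
      _ ≤ (C * (B : ℝ) ^ 3 * (1 + Real.log H) ^ 4) * (B : ℝ) ^ 2 :=
          mul_le_mul (Nat.floor_le hK0) h2 (by positivity) hK0
      _ = C * (B : ℝ) ^ 5 * (1 + Real.log H) ^ 4 := by ring
  · intro l hl'
    obtain ⟨-, h2, h3⟩ := hmt l hl'
    exact hT2 _ h2 h3
  · intro τ _
    apply Nat.le_floor
    rcases (S.filter (fun l => t l = τ)).eq_empty_or_nonempty with he | ⟨l0, hl0⟩
    · rw [he]; simpa using hK0
    · rw [Finset.mem_filter] at hl0
      obtain ⟨-, q2, q3⟩ := hmt l0 hl0.1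
      rw [hl0.2] at q2 q3
      have hmem : ∀ l ∈ S.filter (fun l => t l = τ), l ∈ S ∧ l = wd c R τ (m l) := by
        intro l hl'
        rw [Finset.mem_filter] at hl'
        have := (hmt l hl'.1).1
        rw [hl'.2] at this
        exact ⟨hl'.1, this⟩
      have hinj : Set.InjOn m (S.filter (fun l => t l = τ) : Finset (List Bool)) := by
        intro a ha b hb hab
        rw [(hmem a ha).2, (hmem b hb).2, hab]
      have h1 := hfam c R τ q2 H hH ((S.filter (fun l => t l = τ)).image m) ?_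
      · rw [Finset.card_image_of_injOn hinj] at h1
        refine h1.trans ?_
        apply mul_le_mul_of_nonneg_right _ (by positivity)
        apply mul_le_mul_of_nonneg_left _ hC.le
        exact pow_le_pow_left₀ (by positivity) (by exact_mod_cast q3) 3
      · intro n hn
        obtain ⟨l, hl', rfl⟩ := Finset.mem_image.mp hn
        obtain ⟨a1, a2⟩ := hmem l hl'
        rw [← a2]
        exact ⟨(hS l a1).2.1, (hS l a1).2.2⟩

/-- **Exceptions on a path.** -/
theorem on_path : ∃ C : ℝ, 0 < C ∧ ∀ (P : List Bool) (H : ℕ), 1 ≤ H → ∀ S : Finset (List Bool),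
    (∀ l ∈ S, l <+: P ∧ sz l ≤ H ∧ Ex l) → (S.card : ℝ) ≤ C * (1 + Real.log H) ^ 5 := by
  classical
  obtain ⟨C, hC, hb⟩ := below
  refine ⟨C * 4 ^ 5 * 2, by positivity, ?_⟩
  intro P H hH S hS
  have hHr : (1 : ℝ) ≤ H := by exact_mod_cast hH
  have hl : 0 ≤ Real.log H := Real.log_nonneg hHr
  have hK0 : 0 ≤ C * (4 : ℝ) ^ 5 * (1 + Real.log H) ^ 4 := by positivity
  have key := Finset.card_le_mul_card_image_of_maps_to (s := S) (t := Finset.range (Nat.log 2 H + 1))
    (f := fun l => Nat.log 2 (sz l)) ?_ ⌊C * (4 : ℝ) ^ 5 * (1 + Real.log H) ^ 4⌋₊ ?_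
  · rw [Finset.card_range] at key
    have h1 : (S.card : ℝ) ≤ (⌊C * (4 : ℝ) ^ 5 * (1 + Real.log H) ^ 4⌋₊ : ℝ) * ((Nat.log 2 H : ℝ) + 1) := by exact_mod_cast key
    have h3 : (Nat.log 2 H : ℝ) + 1 ≤ 2 * (1 + Real.log H) := by
      have e1 : (2 : ℝ) ^ Nat.log 2 H ≤ H := by exact_mod_cast Nat.pow_log_le_self 2 (by omega)
      have e2 := Real.log_le_log (by positivity) e1
      rw [Real.log_pow] at e2
      have e3 := Real.log_two_gt_d9
      have e4 : (0 : ℝ) ≤ (Nat.log 2 H : ℝ) := by positivity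
      nlinarith
    calc (S.card : ℝ) ≤ (⌊C * (4 : ℝ) ^ 5 * (1 + Real.log H) ^ 4⌋₊ : ℝ) * ((Nat.log 2 H : ℝ) + 1) := h1
      _ ≤ (C * (4 : ℝ) ^ 5 * (1 + Real.log H) ^ 4) * (2 * (1 + Real.log H)) :=
          mul_le_mul (Nat.floor_le hK0) h3 (by positivity) hK0
      _ = C * 4 ^ 5 * 2 * (1 + Real.log H) ^ 5 := by ring
  · intro l hl'
    rw [Finset.mem_range]
    have := Nat.log_mono_right (b := 2) (hS l hl').2.1
    omega
  · intro i _
    apply Nat.le_floor
    set F := S.filter (fun l => Nat.log 2 (sz l) = i) with hF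
    rcases F.eq_empty_or_nonempty with he | hne
    · rw [he]; simpa using hK0
    · obtain ⟨l0, hl0, hmin⟩ := Finset.exists_min_image F (fun l => l.length) hne
      have hFm : ∀ l ∈ F, l ∈ S ∧ 2 ^ i ≤ sz l ∧ sz l < 2 ^ (i + 1) := by
        intro l hl'
        rw [hF, Finset.mem_filter] at hl'
        have h1 := len_sz' l
        refine ⟨hl'.1, ?_, ?_⟩
        · rw [← hl'.2]; exact Nat.pow_log_le_self 2 (by omega)
        · rw [← hl'.2]; exact Nat.lt_pow_succ_log_self (by norm_num) _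
      obtain ⟨a0, a1, a2⟩ := hFm l0 hl0
      -- use the size `min H (2 ^ (i + 1))`
      have h1 := hb l0 (min H (2 ^ (i + 1))) 4 (by
        have : 0 < 2 ^ (i + 1) := by positivity
        omega) (by
        have h2 : min H (2 ^ (i + 1)) ≤ 2 ^ (i + 1) := min_le_right _ _
        have h3 : 2 ^ (i + 1) = 2 * 2 ^ i := by ring
        omega) F ?_
      · refine h1.trans ?_
        push_cast
        apply mul_le_mul_of_nonneg_left _ (by positivity)
        have e0 : (0 : ℝ) < ((min H (2 ^ (i + 1)) : ℕ) : ℝ) := by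
          have : 0 < min H (2 ^ (i + 1)) := by
            have : 0 < 2 ^ (i + 1) := by positivity
            omega
          exact_mod_cast this
        have e1 : Real.log ((min H (2 ^ (i + 1)) : ℕ) : ℝ) ≤ Real.log H :=
          Real.log_le_log e0 (by exact_mod_cast min_le_left _ _)
        have e2 : 0 ≤ Real.log ((min H (2 ^ (i + 1)) : ℕ) : ℝ) := by
          apply Real.log_nonneg
          have : 1 ≤ min H (2 ^ (i + 1)) := by
            have : 0 < 2 ^ (i + 1) := by positivity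
            omega
          exact_mod_cast this
        push_cast at e1 e2
        exact pow_le_pow_left₀ (by linarith) (by linarith) 4
      · intro l hl'
        obtain ⟨b0, b1, b2⟩ := hFm l hl'
        obtain ⟨c1, c2, c3⟩ := hS l b0
        refine ⟨List.prefix_of_prefix_length_le (hS l0 a0).1 c1 (hmin l hl'), ?_, c3⟩
        exact le_min c2 b2.le

end

end Pool.Agent.Q185.ML
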