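import Mathlib
import Pool.Agent.TH880.MK.M21

/-! Pairs of cones: chains which end in small sets. -/

set_option autoImplicit false

namespace Pool.Agent.Q185.ML

open Pool.Agent.H499R2 Pool.Agent.TH880.MK

noncomputable section

lemma Hg_len {P k k' : List Bool} (h : Hg P k) (h' : Hg P k') (he : k.length = k'.length) : k = k' := by
  obtain ⟨R, b, rfl, h2⟩ := h
  obtain ⟨R', b', rfl, h2'⟩ := h'
  have h6 : (R ++ [!b]) = (R' ++ [!b']) := by
    have h7 : R ++ [!b] <+: R' ++ [!b'] := List.prefix_of_prefix_length_le h2 h2' (by simpa using he.le)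
    exact h7.eq_of_length (by simpa using he)
  have h8 := List.append_inj' h6 rfl
  obtain ⟨rfl, h9⟩ := h8
  have h10 : b = b' := by
    have : (!b) = !b' := by simpa using h9
    simpa using this
  rw [h10]

lemma card_of_length (A : Finset (List Bool)) (n0 : ℕ) (hA : ∀ k ∈ A, k.length ≤ n0)
    (hinj : ∀ k ∈ A, ∀ k' ∈ A, k.length = k'.length → k = k') : A.card ≤ n0 + 1 := by
  classical
  have hsub : A.image List.length ⊆ Finset.range (n0 + 1) := by
    intro n hn
    obtain ⟨l, hl, rfl⟩ := Finset.mem_image.mp hn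
    have := hA l hl
    rw [Finset.mem_range]; omega
  have := Finset.card_le_card hsub
  rw [Finset.card_image_of_injOn (fun a ha b hb hab => hinj a ha b hb hab), Finset.card_range] at this
  exact this

/-- words near the boundary are prefixes of the boundary paths -/
lemma nonBig_path {H ρ : ℕ} {l : List Bool} (hB : ¬ Big ρ l) (hs : sz l ≤ H) : ∃ P ∈ Path1 H ρ, l <+: P := by
  have key : ∀ c : Bool, (c = true → (desc root l).p < ρ) → (c = false → (desc root l).q < ρ) →
      ∃ P ∈ Path1 H ρ, l <+: P := by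
    intro c hc1 hc2
    obtain ⟨R0, m, h1, h2⟩ := strip c l
    have hm : m ≤ H := by
      have h3 := len_sz l
      have h5 : m ≤ l.length := by rw [h1]; simp
      omega
    refine ⟨R0 ++ List.replicate (H + 1) c, ?_, ?_⟩
    · unfold Path1
      rw [Finset.mem_union]
      rcases h2 with h2 | ⟨R1, h2⟩
      · right
        rw [h2, List.nil_append, Finset.mem_insert, Finset.mem_singleton]
        cases c
        · right; rfl
        · left; rfl
      · left
        rw [Finset.mem_image]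
        refine ⟨(R1, c), ?_, by rw [h2]⟩
        rw [Finset.mem_product]
        refine ⟨(mem_SW _ _).mpr ?_, Finset.mem_univ _⟩
        have h4 := pq_prefix (⟨_, h1.symm⟩ : R0 <+: l)
        have h5 := sz_pq R1
        rw [h2, desc_snoc] at h4
        show sz R1 ≤ ρ
        cases c
        · have e3 : (step (desc root R1) (!false)).q = (desc root R1).p + (desc root R1).q := rfl
          rw [e3] at h4
          have := hc2 rfl
          omega
        · have e3 : (step (desc root R1) (!true)).p = (desc root R1).p + (desc root R1).q := rfl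
          rw [e3] at h4
          have := hc1 rfl
          omega
    · refine ⟨List.replicate (H + 1 - m) c, ?_⟩
      conv_lhs => rw [h1]
      rw [List.append_assoc, ← List.replicate_add]
      congr 2
      omega
  by_cases h : ρ ≤ (desc root l).p
  · exact key false (by simp) (fun _ => by
      by_contra h4
      exact hB ⟨h, not_lt.mp h4⟩)
  · exact key true (fun _ => not_le.mp h) (by simp)

lemma chain_ind2 (X : Finset (List Bool)) (H0 T m : ℕ) (k : List Bool) (hX : ∀ i, k <+: i → H0 ≤ sz i → cnt X i ≤ T)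
    (hp : m ≤ (desc root k).p) (hq : m ≤ (desc root k).q) (n : ℕ) :
    ∀ i, k <+: i → H0 ≤ sz i + m * n → cnt X i ≤ (2 * cnt (Bst X) i + 1) * (2 * n + T) := by
  classical
  induction n with
  | zero =>
    intro i hki hi
    have h1 := hX i hki (by simpa using hi)
    have h2 : 1 * (2 * 0 + T) ≤ (2 * cnt (Bst X) i + 1) * (2 * 0 + T) := Nat.mul_le_mul_right _ (by omega)
    omega
  | succ n ih =>
    intro i hki hi
    have hpq := pq_prefix hki
    have h1 := sz_child_ge (hp.trans hpq.1) (hq.trans hpq.2) true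
    have h2 := sz_child_ge (hp.trans hpq.1) (hq.trans hpq.2) false
    have hm : m * (n + 1) = m * n + m := by ring
    rw [hm] at hi
    have i1 := ih (i ++ [true]) (hki.trans (List.prefix_append _ _)) (by omega)
    have i2 := ih (i ++ [false]) (hki.trans (List.prefix_append _ _)) (by omega)
    have hrec := cnt_rec X i
    have hrecB := cnt_rec (Bst X) i
    have hle1 : (if i ∈ X then 1 else 0) ≤ 1 := by split_ifs <;> omega
    obtain ⟨gt, hgt⟩ : ∃ gt, gt = cnt (Bst X) (i ++ [true]) := ⟨_, rfl⟩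
    obtain ⟨gf, hgf⟩ : ∃ gf, gf = cnt (Bst X) (i ++ [false]) := ⟨_, rfl⟩
    obtain ⟨U, hU⟩ : ∃ U, U = 2 * n + T := ⟨_, rfl⟩
    have hU2 : 2 * (n + 1) + T = U + 2 := by omega
    rw [← hgt, ← hU] at i1
    rw [← hgf, ← hU] at i2
    rw [← hgt, ← hgf] at hrecB
    rw [hU2]
    by_cases hbr : BrF X i
    · rw [if_pos (mem_Bst hbr)] at hrecB
      rw [hrecB]
      have e : (2 * (1 + gt + gf) + 1) * (U + 2) = ((2 * gt + 1) * U + (2 * gf + 1) * U) + (U + 4 * gt + 4 * gf + 6) := by ring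
      omega
    · obtain ⟨b, hb⟩ := nonbr X i hbr
      have h4 : ∃ g, g ≤ cnt (Bst X) i ∧ cnt X (i ++ [b]) ≤ (2 * g + 1) * U := by
        cases b
        · exact ⟨gf, by omega, i2⟩
        · exact ⟨gt, by omega, i1⟩
      obtain ⟨g, hg1, hg2⟩ := h4
      have h5 : (2 * g + 1) * U ≤ (2 * cnt (Bst X) i + 1) * U := by
        apply Nat.mul_le_mul_right
        omega
      have h6 : (2 * cnt (Bst X) i + 1) * (U + 2) = (2 * cnt (Bst X) i + 1) * U + 2 * (2 * cnt (Bst X) i + 1) := by ring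
      omega

theorem chain_card2 (X : Finset (List Bool)) (H0 T m : ℕ) (hm : 1 ≤ m) (k : List Bool)
    (hX : ∀ i, k <+: i → H0 ≤ sz i → cnt X i ≤ T)
    (hk : ∀ l ∈ X, k <+: l) (hp : m ≤ (desc root k).p) (hq : m ≤ (desc root k).q) :
    X.card ≤ (2 * cnt (Bst X) k + 1) * (2 * (H0 / m + 1) + T) := by
  have h1 := chain_ind2 X H0 T m k hX hp hq (H0 / m + 1) k (List.prefix_refl k) (by
    have := Nat.lt_mul_div_succ H0 (by omega : 0 < m)
    omega)
  have h2 : cnt X k = X.card := by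
    unfold cnt; rw [Finset.filter_true_of_mem hk]
  rw [h2] at h1
  exact h1

/-- bound for a pair of cones, first side -/
theorem pair_first2 {H : ℕ} (hH : 2 ≤ H) {Λ : ℝ} {k k' : List Bool} (X : Finset (List Bool)) (φ : List Bool → List Bool)
    (h : HypL H Λ k k' (fun l l' => l ∈ X ∧ l' = φ l)) (hne : ∀ l ∈ X, φ l ≠ l) (H0 T m : ℕ) (hm : 1 ≤ m)
    (hX : ∀ i, k <+: i → H0 ≤ sz i → cnt X i ≤ T)
    (hp : m ≤ (desc root k).p) (hq : m ≤ (desc root k).q) :
    ∃ N : ℕ, N ≠ 0 ∧ N ≤ H ^ 4 ∧ X.card ≤ (18 * N.divisors.card + 1) * (2 * (H0 / m + 1) + T) := by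
  classical
  set R : List Bool → List Bool → Prop := fun l l' => l ∈ X ∧ l' = φ l with hR
  have g1 : ∀ l ∈ X, ∃ l', R l l' := fun l hl => ⟨φ l, hl, rfl⟩
  obtain ⟨N, hN0, hN1, hN2⟩ := br_card hH h (by
    rintro l l' ⟨h1, h2⟩ h3
    exact hne l h1 (by rw [← h2, ← h3])) ((Bst X).filter (fun i => k <+: i)) (by
    intro i hi
    rw [Finset.mem_filter] at hi
    exact ⟨hi.2, Br_of_BrF g1 (Bst_br hi.1)⟩)
  refine ⟨N, hN0, hN1, ?_⟩
  have h1 := chain_card2 X H0 T m hm k hX (fun l hl => (h.rel l (φ l) ⟨hl, rfl⟩).1) hp hq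
  have h2 : cnt (Bst X) k = ((Bst X).filter (fun i => k <+: i)).card := by
    unfold cnt; rfl
  rw [← h2] at hN2
  refine h1.trans ?_
  apply Nat.mul_le_mul_right
  omega

/-- bound for a pair of cones, second side -/
theorem pair_second2 {H : ℕ} (hH : 2 ≤ H) {Λ : ℝ} {k k' : List Bool} (X : Finset (List Bool)) (φ : List Bool → List Bool)
    (h : HypL H Λ k k' (fun l l' => l ∈ X ∧ l' = φ l)) (hne : ∀ l ∈ X, φ l ≠ l) (H0 T m : ℕ) (hm : 1 ≤ m)
    (hX : ∀ i, k' <+: i → H0 ≤ sz i → cnt (X.image φ) i ≤ T)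
    (hp : m ≤ (desc root k').p) (hq : m ≤ (desc root k').q) :
    ∃ N : ℕ, N ≠ 0 ∧ N ≤ H ^ 4 ∧ X.card ≤ (18 * N.divisors.card + 1) * (2 * (H0 / m + 1) + T) := by
  classical
  have hinj : ∀ a ∈ X, ∀ b ∈ X, φ a = φ b → a = b := by
    intro a ha b hb hab
    exact h.inj (a := a) (b := b) (c := φ a) ⟨ha, rfl⟩ ⟨hb, hab⟩
  set Y := X.image φ with hY
  have hcard : Y.card = X.card := Finset.card_image_of_injOn (fun a ha b hb hab => hinj a ha b hb hab)
  have hch : ∀ y ∈ Y, ∃ x, x ∈ X ∧ φ x = y := by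
    intro y hy
    obtain ⟨x, hx, hxy⟩ := Finset.mem_image.mp hy
    exact ⟨x, hx, hxy⟩
  choose! ψ hψ1 hψ2 using hch
  have h' : HypL H Λ k' k (fun l l' => l ∈ Y ∧ l' = ψ l) := by
    refine ⟨h.hs, h.ha', h.hb', h.ha, h.hb, h.irr', h.irr, ?_⟩
    rintro l l' ⟨hl, rfl⟩
    obtain ⟨h1, h2, h3, h4, h5⟩ := h.rel (ψ l) l ⟨hψ1 l hl, (hψ2 l hl).symm⟩
    exact ⟨h2, h1, h4, h3, h5.symm⟩
  rw [← hcard]
  apply pair_first2 hH Y ψ h' _ H0 T m hm hX hp hq
  intro l hl heq
  have h1 := hψ2 l hl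
  have h2 := hne (ψ l) (hψ1 l hl)
  rw [heq] at h1 h2
  exact h2 h1

/-- the words outside of all pieces are prefixes of the paths -/
lemma BW_path {H ρ : ℕ} (hH : 1 ≤ H) (hs : (10 : ℝ) ^ 20 * H ^ 20 ≤ 4 ^ ρ) {l : List Bool} (hl : l ∈ BW H ρ) :
    ∃ P ∈ Paths H ρ, l <+: P := by
  obtain ⟨hl1, -⟩ := mem_BW.mp hl
  by_cases hB : Big ρ l
  · obtain ⟨k0, hk0, hm⟩ := Mn_exists ρ l hB
    have hMR : k0 ∈ MR H ρ := by
      refine mem_MR.mpr ⟨(sz_prefix hk0).trans hl1, hm, ?_⟩
      intro h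
      exact BW_noGI hl hk0 ⟨hm.1, h⟩
    obtain ⟨l1, l2, l3⟩ := Lg_spec hl hk0
    have hRL : l <+: Lg H ρ k0 := by
      rcases BW_chain hH hs hm.1 hl l1 hk0 l2 with h | h
      · exact h
      · have := h.eq_of_length (le_antisymm h.length_le l3)
        rw [this]
    refine ⟨Lg H ρ k0 ++ [true], ?_, hRL.trans (List.prefix_append _ _)⟩
    unfold Paths
    rw [Finset.mem_union]
    right
    rw [Finset.mem_image]
    exact ⟨(k0, true), Finset.mem_product.mpr ⟨hMR, Finset.mem_univ _⟩, rfl⟩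
  · obtain ⟨P, hP, h⟩ := nonBig_path hB hl1
    refine ⟨P, ?_, h⟩
    unfold Paths
    exact Finset.mem_union_left _ hP

open scoped Classical in
/-- the sum over the pieces hanging off two paths -/
theorem pair_paths2 {H ρ M : ℕ} (hH : 2 ≤ H) (hρ : 2 ≤ ρ) (hs : (10 : ℝ) ^ 20 * H ^ 20 ≤ 4 ^ ρ)
    (A0 : Finset (List Bool)) (hA0 : ∀ k ∈ A0, k.length ≤ M)
    (Im : Finset (List Bool × List Bool)) (hIm : Im ⊆ A0 ×ˢ A0) (f : List Bool × List Bool → ℝ) {Q w : ℝ}
    (hQ : 0 ≤ Q) (hw0 : 0 ≤ w) (hf0 : ∀ o ∈ Im, 0 ≤ f o) (hf1 : ∀ o ∈ Im, f o ≤ Q * (1 / mm o.1 + w))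
    (hf2 : ∀ o ∈ Im, f o ≤ Q * (1 / mm o.2 + w))
    (hw : ∀ o ∈ Im, ∃ l l', o.1 <+: l ∧ o.2 <+: l' ∧ sz l ≤ H ∧ sz l' ≤ H ∧ FF l' = FF l)
    {P P' : List Bool} (hP : P ∈ Paths H ρ) (hP' : P' ∈ Paths H ρ) :
    ∑ o ∈ Im.filter (fun o => Hg P o.1 ∧ Hg P' o.2), f o ≤
      6 * Q * (4 * ρ + 1) * (8 * Real.log ((2 * ρ * (H + 2) : ℕ) : ℝ) + 2 * (M + 1) * w) := by
  have hlogb : ∀ P ∈ Paths H ρ, 2 * (Real.log (desc root P).p + Real.log (desc root P).q) ≤
      4 * Real.log ((2 * ρ * (H + 2) : ℕ) : ℝ) := by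
    intro P hP
    have h1 := Paths_sz (by omega) hH hP
    have h2 := sz_pq P
    have hv := valid_root.desc P
    have hp : (0 : ℝ) < (desc root P).p := by exact_mod_cast (by have := hv.p1; omega : 0 < (desc root P).p)
    have hq : (0 : ℝ) < (desc root P).q := by exact_mod_cast (by have := hv.q1; omega : 0 < (desc root P).q)
    have h3 : Real.log (desc root P).p ≤ Real.log ((2 * ρ * (H + 2) : ℕ) : ℝ) :=
      Real.log_le_log hp (by exact_mod_cast (by omega : (desc root P).p ≤ 2 * ρ * (H + 2)))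
    have h4 : Real.log (desc root P).q ≤ Real.log ((2 * ρ * (H + 2) : ℕ) : ℝ) :=
      Real.log_le_log hq (by exact_mod_cast (by omega : (desc root P).q ≤ 2 * ρ * (H + 2)))
    linarith
  have hcard : ∀ P : List Bool, ∑ k ∈ A0.filter (Hg P), w ≤ (M + 1) * w := by
    intro P
    rw [Finset.sum_const, nsmul_eq_mul]
    have := card_of_length (A0.filter (Hg P)) M (fun k hk => hA0 k (Finset.mem_filter.mp hk).1)
      (fun k hk k' hk' he => Hg_len (Finset.mem_filter.mp hk).2 (Finset.mem_filter.mp hk').2 he)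
    apply mul_le_mul_of_nonneg_right _ hw0
    exact_mod_cast this
  have hA := hang_weight A0 P
  have hB := hang_weight A0 P'
  have hA' := hcard P
  have hB' := hcard P'
  have hl1 := hlogb P hP
  have hl2 := hlogb P' hP'
  have hρ0 : (0 : ℝ) ≤ ρ := by positivity
  have main := pair_sum (A0.filter (Hg P)) (A0.filter (Hg P')) (fun k => FF k.dropLast)
    (fun k => FF k.dropLast) (fun k => (1 : ℝ) / mm k + w) (fun k => (1 : ℝ) / mm k + w) (ρ := (ρ : ℝ)) (Q := Q)
    (N0 := 4 * ρ + 1) hρ0 hQ (by positivity) (fun k => by positivity) (fun k => by positivity)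
    (fun x => hang_window A0 P hρ0 x) (fun x => hang_window A0 P' hρ0 x)
    (Im.filter (fun o => Hg P o.1 ∧ Hg P' o.2)) (by
      intro o ho
      rw [Finset.mem_filter] at ho
      have := Finset.mem_product.1 (hIm ho.1)
      exact Finset.mem_product.2 ⟨Finset.mem_filter.2 ⟨this.1, ho.2.1⟩, Finset.mem_filter.2 ⟨this.2, ho.2.2⟩⟩)
    f (fun o ho => hf1 o (Finset.mem_filter.1 ho).1) (fun o ho => hf2 o (Finset.mem_filter.1 ho).1)
    (fun o ho => hf0 o (Finset.mem_filter.1 ho).1) (by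
      intro o ho hch
      have hw' : ∀ t : Fin 5, ∃ l l', (o t).1 <+: l ∧ (o t).2 <+: l' ∧ sz l ≤ H ∧ sz l' ≤ H ∧ FF l' = FF l :=
        fun t => hw (o t) (Finset.mem_filter.1 (ho t).1).1
      choose L L' w1 w2 w3 w4 w5 using hw'
      have hg : ∀ t : Fin 5, Real.exp (-2 * min (FF (o t).1.dropLast) (FF (o t).2.dropLast)) / 2 ≤
          |ell (desc root P) (zz (L t)) - ell (desc root P') (zz (L' t))| ∧
          |ell (desc root P) (zz (L t)) - ell (desc root P') (zz (L' t))| ≤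
            81 * H * Real.exp (-2 * min (FF (o t).1.dropLast) (FF (o t).2.dropLast)) := by
        intro t
        have hh := (Finset.mem_filter.1 (ho t).1).2
        have g1 := gap_hg hh.1 (w1 t) (w3 t)
        have g2 := gap_hg hh.2 (w2 t) (w4 t)
        have g3 := two_gaps hs (by omega) g1.1 g1.2 g2.1 g2.2 (ho t).2
        have e : (FF (L t) - ell (desc root P) (zz (L t))) - (FF (L' t) - ell (desc root P') (zz (L' t))) =
            -(ell (desc root P) (zz (L t)) - ell (desc root P') (zz (L' t))) := by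
          rw [w5 t]; ring
        rw [e, abs_neg] at g3
        exact g3
      exact no_chain (by omega) hs (desc root P) (desc root P')
        (fun t => min (FF (o t).1.dropLast) (FF (o t).2.dropLast)) (fun t => zz (L t)) (fun t => zz (L' t))
        (fun t => by rw [nm_zz]; exact_mod_cast w3 t) (fun t => by rw [nm_zz]; exact_mod_cast w4 t)
        (fun t => (hg t).1) (fun t => (hg t).2) hch)
  refine main.trans ?_
  apply mul_le_mul_of_nonneg_left _ (by positivity)
  rw [Finset.sum_add_distrib, Finset.sum_add_distrib]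
  linarith

end

end Pool.Agent.Q185.ML
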