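import Mathlib
import Pool.Agent.Q185.ML.Below
import Pool.Agent.Q185.ML.Pair

/-! The number of exceptional words: a power saving. -/

set_option autoImplicit false

namespace Pool.Agent.Q185.ML

open Pool.Agent.H499R2 Pool.Agent.TH880.MK Pool.Agent.H609R3.MB

noncomputable section

lemma cc_of_FF {l l' : List Bool} (h : FF l' = FF l) : cc l' = cc l := by
  rw [FF_eq, FF_eq] at h
  have h1 : (5 : ℤ) ≤ cc l := (zvd l).c5
  have h2 : (5 : ℤ) ≤ cc l' := (zvd l').c5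
  exact g_inj (by omega) (by omega) h

lemma NU_Ex {H : ℕ} {l : List Bool} (h : l ∈ NU H) : sz l ≤ H ∧ Pool.Agent.Q185.ML.Ex l := by
  obtain ⟨h1, l', -, h3, h4⟩ := mem_NU.mp h
  exact ⟨h1, l', h3, cc_of_FF h4⟩

open scoped Classical in
/-- the main inequality -/
theorem NU_bound3 : ∃ C : ℝ, 0 < C ∧ ∀ (H ρ H0 M B B1 : ℕ), 2 ≤ H → 2 ≤ ρ → (10 : ℝ) ^ 20 * H ^ 20 ≤ 4 ^ ρ →
    1 ≤ H0 → 1 ≤ M → 2 * H ≤ B * H0 → 2 * H ≤ B1 * M →
    ∀ D : ℝ, (∀ N : ℕ, N ≠ 0 → N ≤ H ^ 4 → (N.divisors.card : ℝ) ≤ D) → 0 ≤ D →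
    ((NU H).card : ℝ) ≤ 2 * ((19 * ρ ^ 2 + 6) * (C * (1 + Real.log H) ^ 5 + C * B1 ^ 5 * (1 + Real.log H) ^ 4)) +
      (19 * ρ ^ 2 + 6) ^ 2 * (6 * (4 * ρ + 1) * (18 * D + 1) *
        (16 * H0 * Real.log ((2 * ρ * (H + 2) : ℕ) : ℝ) + 2 * (M + 1) * (C * B ^ 5 * (1 + Real.log H) ^ 4 + 2))) := by
  obtain ⟨C1, hC1, hbelow⟩ := below
  obtain ⟨C2, hC2, hpath⟩ := on_path
  refine ⟨C1 + C2, by positivity, ?_⟩
  intro H ρ H0 M B B1 hH hρ hs hH0 hM hB hB1 D hD hD0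
  have hHr : (2 : ℝ) ≤ H := by exact_mod_cast hH
  have hl : 0 ≤ Real.log H := Real.log_nonneg (by linarith)
  have hH0r : (1 : ℝ) ≤ H0 := by exact_mod_cast hH0
  obtain ⟨T, hT⟩ : ∃ T : ℕ, T = ⌊C1 * (B : ℝ) ^ 5 * (1 + Real.log H) ^ 4⌋₊ := ⟨_, rfl⟩
  obtain ⟨Tr, hTr⟩ : ∃ Tr : ℝ, Tr = (C1 + C2) * (B : ℝ) ^ 5 * (1 + Real.log H) ^ 4 := ⟨_, rfl⟩
  have hTTr : (T : ℝ) ≤ Tr := by
    rw [hT, hTr]
    refine (Nat.floor_le (by positivity)).trans ?_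
    apply mul_le_mul_of_nonneg_right _ (by positivity)
    apply mul_le_mul_of_nonneg_right _ (by positivity)
    linarith
  have hTr0 : 0 ≤ Tr := by rw [hTr]; positivity
  rw [← hTr]
  -- few exceptions below nodes of size at least `H0`
  have hsmall : ∀ X : Finset (List Bool), (∀ l ∈ X, l ∈ NU H) → ∀ i, H0 ≤ sz i → cnt X i ≤ T := by
    intro X hX i hi
    rw [hT]
    apply Nat.le_floor
    unfold cnt
    apply hbelow i H B (by omega) (hB.trans (Nat.mul_le_mul_left _ hi))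
    intro l hl'
    rw [Finset.mem_filter] at hl'
    exact ⟨hl'.2, NU_Ex (hX l hl'.1)⟩
  -- the pieces near the root
  obtain ⟨A0, hA0⟩ : ∃ A0 : Finset (List Bool), A0 = (PN H ρ).filter (fun k => sz k.dropLast < M) := ⟨_, rfl⟩
  have hA0m : ∀ k ∈ A0, k ∈ PN H ρ ∧ sz k.dropLast < M := by
    intro k hk; rw [hA0, Finset.mem_filter] at hk; exact hk
  have hA0l : ∀ k ∈ A0, k.length ≤ M := by
    intro k hk
    have h1 := (hA0m k hk).2
    have h2 := len_sz k.dropLast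
    rw [List.length_dropLast] at h2
    omega
  obtain ⟨Bd, hBd⟩ : ∃ Bd : Finset (List Bool), Bd = (NU H).filter (fun l => ¬ ∃ k, k ∈ A0 ∧ k <+: l) := ⟨_, rfl⟩
  have hBdm : ∀ l, l ∈ Bd ↔ l ∈ NU H ∧ ¬ ∃ k, k ∈ A0 ∧ k <+: l := by
    intro l; rw [hBd, Finset.mem_filter]
  have hBdc : (Bd.card : ℝ) ≤ (19 * ρ ^ 2 + 6) *
      ((C1 + C2) * (1 + Real.log H) ^ 5 + (C1 + C2) * B1 ^ 5 * (1 + Real.log H) ^ 4) := by
    have hcov : Bd ⊆ (Paths H ρ).biUnion (fun P => Bd.filter (fun l => l <+: P) ∪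
        Bd.filter (fun l => ∃ R, R <+: P ∧ M ≤ sz R ∧ R <+: l)) := by
      intro l hl'
      have h1 := (hBdm l).1 hl'
      rw [Finset.mem_biUnion]
      by_cases hBW : l ∈ BW H ρ
      · obtain ⟨P, hP, h⟩ := BW_path (by omega) hs hBW
        exact ⟨P, hP, Finset.mem_union_left _ (Finset.mem_filter.mpr ⟨hl', h⟩)⟩
      · have h2 : ∃ k, k ∈ PN H ρ ∧ k <+: l := by
          by_contra hno
          exact hBW (mem_BW.mpr ⟨(NU_Ex h1.1).1, hno⟩)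
        obtain ⟨k, hk1, hk2⟩ := h2
        have h3 : M ≤ sz k.dropLast := by
          by_contra h3
          exact h1.2 ⟨k, by rw [hA0, Finset.mem_filter]; exact ⟨hk1, by omega⟩, hk2⟩
        obtain ⟨P, hP, hg⟩ := PN_cover hρ (by omega) hs hk1
        refine ⟨P, hP, Finset.mem_union_right _ (Finset.mem_filter.mpr
          ⟨hl', k.dropLast, ?_, h3, (List.dropLast_prefix k).trans hk2⟩)⟩
        obtain ⟨R, b, rfl, h4⟩ := hg
        rw [List.dropLast_concat]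
        exact (List.prefix_append _ _).trans h4
    have hst : ∀ P, ((Bd.filter (fun l => ∃ R, R <+: P ∧ M ≤ sz R ∧ R <+: l)).card : ℝ) ≤
        C1 * (B1 : ℝ) ^ 5 * (1 + Real.log H) ^ 4 := by
      intro P
      obtain ⟨F, hF⟩ : ∃ F, F = Bd.filter (fun l => ∃ R, R <+: P ∧ M ≤ sz R ∧ R <+: l) := ⟨_, rfl⟩
      rw [← hF]
      rcases F.eq_empty_or_nonempty with he | hne
      · rw [he]
        simp only [Finset.card_empty, Nat.cast_zero]
        positivity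
      · have hch : ∀ l ∈ F, ∃ R, R <+: P ∧ M ≤ sz R ∧ R <+: l := by
          intro l hl'
          rw [hF, Finset.mem_filter] at hl'
          exact hl'.2
        choose! R hR1 hR2 hR3 using hch
        obtain ⟨l0, hl0, hmin⟩ := Finset.exists_min_image F (fun l => (R l).length) hne
        apply hbelow (R l0) H B1 (by omega) (hB1.trans (Nat.mul_le_mul_left _ (hR2 l0 hl0)))
        intro l hl'
        have h1 : R l0 <+: R l := List.prefix_of_prefix_length_le (hR1 l0 hl0) (hR1 l hl') (hmin l hl')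
        have h2 : l ∈ NU H := by
          rw [hF, Finset.mem_filter] at hl'
          exact ((hBdm l).1 hl'.1).1
        exact ⟨h1.trans (hR3 l hl'), NU_Ex h2⟩
    have hpt : ∀ P, ((Bd.filter (fun l => l <+: P)).card : ℝ) ≤ C2 * (1 + Real.log H) ^ 5 := by
      intro P
      apply hpath P H (by omega)
      intro l hl'
      rw [Finset.mem_filter] at hl'
      exact ⟨hl'.2, NU_Ex ((hBdm l).1 hl'.1).1⟩
    obtain ⟨Kr, hKr⟩ : ∃ Kr : ℝ, Kr = C2 * (1 + Real.log H) ^ 5 + C1 * (B1 : ℝ) ^ 5 * (1 + Real.log H) ^ 4 := ⟨_, rfl⟩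
    have hKr0 : 0 ≤ Kr := by rw [hKr]; positivity
    have h1 := Finset.card_le_card hcov
    have h2 : ((Paths H ρ).biUnion (fun P => Bd.filter (fun l => l <+: P) ∪
        Bd.filter (fun l => ∃ R, R <+: P ∧ M ≤ sz R ∧ R <+: l))).card ≤ (Paths H ρ).card * ⌊Kr⌋₊ := by
      apply Finset.card_biUnion_le_card_mul
      intro P _
      apply Nat.le_floor
      have e1 := Finset.card_union_le (Bd.filter (fun l => l <+: P)) (Bd.filter (fun l => ∃ R, R <+: P ∧ M ≤ sz R ∧ R <+: l))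
      have e2 := hst P
      have e3 := hpt P
      have e4 : ((Bd.filter (fun l => l <+: P) ∪ Bd.filter (fun l => ∃ R, R <+: P ∧ M ≤ sz R ∧ R <+: l)).card : ℝ) ≤
          (Bd.filter (fun l => l <+: P)).card + (Bd.filter (fun l => ∃ R, R <+: P ∧ M ≤ sz R ∧ R <+: l)).card := by
        exact_mod_cast e1
      rw [hKr]
      linarith
    have h3 := Paths_card hρ (by omega) hs
    have h4 : (Bd.card : ℝ) ≤ ((Paths H ρ).card : ℝ) * (⌊Kr⌋₊ : ℝ) := by exact_mod_cast h1.trans h2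
    have h5 : ((Paths H ρ).card : ℝ) ≤ 19 * ρ ^ 2 + 6 := by exact_mod_cast h3
    calc (Bd.card : ℝ) ≤ ((Paths H ρ).card : ℝ) * (⌊Kr⌋₊ : ℝ) := h4
      _ ≤ (19 * ρ ^ 2 + 6) * Kr := mul_le_mul h5 (Nat.floor_le hKr0) (by positivity) (by positivity)
      _ ≤ _ := by
          apply mul_le_mul_of_nonneg_left _ (by positivity)
          rw [hKr]
          have e1 : C2 * (1 + Real.log H) ^ 5 ≤ (C1 + C2) * (1 + Real.log H) ^ 5 :=
            mul_le_mul_of_nonneg_right (by linarith) (by positivity)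
          have e2 : C1 * (B1 : ℝ) ^ 5 * (1 + Real.log H) ^ 4 ≤ (C1 + C2) * B1 ^ 5 * (1 + Real.log H) ^ 4 := by
            apply mul_le_mul_of_nonneg_right _ (by positivity)
            exact mul_le_mul_of_nonneg_right (by linarith) (by positivity)
          linarith
  obtain ⟨S1, hS1⟩ : ∃ S1 : Finset (List Bool), S1 = (NU H).filter (fun l => l ∉ Bd ∧
    ∃ l', l' ∈ NU H ∧ l' ∉ Bd ∧ l' ≠ l ∧ FF l' = FF l) := ⟨_, rfl⟩
  obtain ⟨S2, hS2⟩ : ∃ S2 : Finset (List Bool), S2 = (NU H).filter (fun l => l ∉ Bd ∧ (∃ l', l' ∈ Bd ∧ FF l' = FF l) ∧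
    ¬ ∃ l', l' ∈ NU H ∧ l' ∉ Bd ∧ l' ≠ l ∧ FF l' = FF l) := ⟨_, rfl⟩
  have hS1m : ∀ l, l ∈ S1 ↔ l ∈ NU H ∧ l ∉ Bd ∧ ∃ l', l' ∈ NU H ∧ l' ∉ Bd ∧ l' ≠ l ∧ FF l' = FF l := by
    intro l; rw [hS1, Finset.mem_filter]
  have hS2m : ∀ l, l ∈ S2 ↔ l ∈ NU H ∧ l ∉ Bd ∧ (∃ l', l' ∈ Bd ∧ FF l' = FF l) ∧
      ¬ ∃ l', l' ∈ NU H ∧ l' ∉ Bd ∧ l' ≠ l ∧ FF l' = FF l := by
    intro l; rw [hS2, Finset.mem_filter]
  have hcover : NU H ⊆ (Bd ∪ S2) ∪ S1 := by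
    intro l hl'
    rw [Finset.mem_union, Finset.mem_union]
    by_cases hb : l ∈ Bd
    · exact Or.inl (Or.inl hb)
    · by_cases hex : ∃ l', l' ∈ NU H ∧ l' ∉ Bd ∧ l' ≠ l ∧ FF l' = FF l
      · exact Or.inr ((hS1m l).2 ⟨hl', hb, hex⟩)
      · obtain ⟨hl1, l', h1, h2, h3⟩ := mem_NU.mp hl'
        have hl'' : l' ∈ NU H := mem_NU.mpr ⟨h1, l, hl1, Ne.symm h2, h3.symm⟩
        refine Or.inl (Or.inr ((hS2m l).2 ⟨hl', hb, ⟨l', ?_, h3⟩, hex⟩))
        by_contra hb'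
        exact hex ⟨l', hl'', hb', h2, h3⟩
  have c2 : S2.card ≤ Bd.card := by
    have hch : ∀ l ∈ S2, ∃ l', l' ∈ Bd ∧ FF l' = FF l := by
      intro l hl'
      exact ((hS2m l).1 hl').2.2.1
    choose! ψ hψ1 hψ2 using hch
    apply Finset.card_le_card_of_injOn ψ (fun l hl => hψ1 l hl)
    intro a ha b hb hab
    by_contra hne
    have hfa := hψ2 a ha
    have hfb := hψ2 b hb
    have ha' := (hS2m a).1 ha
    have hb' := (hS2m b).1 hb
    apply ha'.2.2.2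
    exact ⟨b, hb'.1, hb'.2.1, Ne.symm hne, by rw [← hfb, ← hab, hfa]⟩
  -- the main part
  have hch : ∀ l ∈ S1, ∃ l', l' ∈ NU H ∧ l' ∉ Bd ∧ l' ≠ l ∧ FF l' = FF l := by
    intro l hl'
    exact ((hS1m l).1 hl').2.2
  choose! φ hφ1 hφ2 hφ3 hφ4 using hch
  have hK : ∀ l, l ∈ NU H → l ∉ Bd → ∃ k, k ∈ A0 ∧ k <+: l := by
    intro l h1 h2
    by_contra hno
    exact h2 ((hBdm l).2 ⟨h1, hno⟩)
  choose! K hK1 hK2 using hK
  have hmaps : ∀ l ∈ S1, (K l, K (φ l)) ∈ A0 ×ˢ A0 := by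
    intro l hl'
    have h1 := (hS1m l).1 hl'
    rw [Finset.mem_product]
    exact ⟨hK1 l h1.1 h1.2.1, hK1 (φ l) (hφ1 l hl') (hφ2 l hl')⟩
  obtain ⟨Q, hQ⟩ : ∃ Q : ℝ, Q = 2 * (18 * D + 1) * H0 := ⟨_, rfl⟩
  obtain ⟨w, hw⟩ : ∃ w : ℝ, w = (Tr + 2) / (2 * H0) := ⟨_, rfl⟩
  have hQ0 : 0 ≤ Q := by rw [hQ]; positivity
  have hw0 : 0 ≤ w := by rw [hw]; positivity
  have hQw : Q * w = (18 * D + 1) * (Tr + 2) := by
    rw [hQ, hw]
    have : (H0 : ℝ) ≠ 0 := by positivity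
    field_simp
  have fromN : ∀ (x : ℕ) (k : List Bool),
      (∃ N : ℕ, N ≠ 0 ∧ N ≤ H ^ 4 ∧ x ≤ (18 * N.divisors.card + 1) * (2 * (H0 / mm k + 1) + T)) →
      (x : ℝ) ≤ Q * (1 / mm k + w) := by
    rintro x k ⟨N, hN0, hN1, hN2⟩
    have hmm := mm_pos k
    have hm0 : (0 : ℝ) < mm k := by exact_mod_cast hmm
    have h1 : (x : ℝ) ≤ (18 * N.divisors.card + 1) * (2 * (((H0 / mm k : ℕ) : ℝ) + 1) + T) := by exact_mod_cast hN2
    have h2 : ((H0 / mm k : ℕ) : ℝ) ≤ H0 / mm k := Nat.cast_div_le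
    have h4 := hD N hN0 hN1
    calc (x : ℝ) ≤ (18 * N.divisors.card + 1) * (2 * (((H0 / mm k : ℕ) : ℝ) + 1) + T) := h1
      _ ≤ (18 * D + 1) * (2 * (H0 / mm k + 1) + Tr) := by
          apply mul_le_mul _ (by linarith) (by positivity) (by positivity)
          linarith
      _ = Q * (1 / mm k) + (18 * D + 1) * (Tr + 2) := by rw [hQ]; ring
      _ = Q * (1 / mm k + w) := by rw [← hQw]; ring
  obtain ⟨Im, hImd⟩ : ∃ Im, Im = S1.image (fun l => (K l, K (φ l))) := ⟨_, rfl⟩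
  have hIm : Im ⊆ A0 ×ˢ A0 := by
    intro o ho
    rw [hImd] at ho
    obtain ⟨l, hl', rfl⟩ := Finset.mem_image.mp ho
    exact hmaps l hl'
  obtain ⟨f, hf⟩ : ∃ f : List Bool × List Bool → ℝ,
    f = fun o => ((S1.filter (fun l => (K l, K (φ l)) = o)).card : ℝ) := ⟨_, rfl⟩
  have hf0 : ∀ o ∈ Im, 0 ≤ f o := by
    intro o _; rw [hf]; positivity
  have hf12 : ∀ o ∈ Im, f o ≤ Q * (1 / mm o.1 + w) ∧ f o ≤ Q * (1 / mm o.2 + w) := by
    rintro ⟨k, k'⟩ ho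
    have hkk := hIm ho
    rw [Finset.mem_product] at hkk
    obtain ⟨hk, hk'⟩ := hkk
    simp only at hk hk'
    rw [hf]
    obtain ⟨X, hX⟩ : ∃ X, X = S1.filter (fun l => (K l, K (φ l)) = (k, k')) := ⟨_, rfl⟩
    have hXm : ∀ l ∈ X, l ∈ S1 ∧ (K l, K (φ l)) = (k, k') := by
      intro l hl'
      rw [hX, Finset.mem_filter] at hl'
      exact hl'
    obtain ⟨g1, g2⟩ := mem_PN.mp (hA0m k hk).1
    obtain ⟨g1', g2'⟩ := mem_PN.mp (hA0m k' hk').1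
    have hb := big_sq g2.1.1
    have hb' := big_sq g2'.1.1
    have hyp : HypL H (4 ^ ρ) k k' (fun l l' => l ∈ X ∧ l' = φ l) := by
      refine ⟨hs, hb.1, hb.2, hb'.1, hb'.2, g2.1.2, g2'.1.2, ?_⟩
      rintro l l' ⟨hl', rfl⟩
      obtain ⟨w1, w2⟩ := hXm l hl'
      have w3 := (hS1m l).1 w1
      have ek1 : K l = k := congrArg Prod.fst w2
      have ek1' : K (φ l) = k' := congrArg Prod.snd w2
      refine ⟨?_, ?_, (NU_Ex w3.1).1, (NU_Ex (hφ1 l w1)).1, hφ4 l w1⟩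
      · rw [← ek1]; exact hK2 l w3.1 w3.2.1
      · rw [← ek1']; exact hK2 (φ l) (hφ1 l w1) (hφ2 l w1)
    have hne : ∀ l ∈ X, φ l ≠ l := by
      intro l hl'
      exact hφ3 l (hXm l hl').1
    have f1 := pair_first2 hH X φ hyp hne H0 T (mm k) (mm_pos k) (fun i _ hi => hsmall X
      (fun l hl' => ((hS1m l).1 (hXm l hl').1).1) i hi) (by unfold mm; omega) (by unfold mm; omega)
    have f2 := pair_second2 hH X φ hyp hne H0 T (mm k') (mm_pos k') (fun i _ hi => hsmall (X.image φ)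
      (fun l hl' => by
        obtain ⟨x, hx, rfl⟩ := Finset.mem_image.mp hl'
        exact hφ1 x (hXm x hx).1) i hi) (by unfold mm; omega) (by unfold mm; omega)
    have e : (fun o => ((S1.filter (fun l => (K l, K (φ l)) = o)).card : ℝ)) (k, k') = (X.card : ℝ) := by
      rw [hX]
    rw [e]
    exact ⟨fromN _ k f1, fromN _ k' f2⟩
  have hww : ∀ o ∈ Im, ∃ l l', o.1 <+: l ∧ o.2 <+: l' ∧ sz l ≤ H ∧ sz l' ≤ H ∧ FF l' = FF l := by
    intro o ho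
    rw [hImd] at ho
    obtain ⟨l, hl', rfl⟩ := Finset.mem_image.mp ho
    have w3 := (hS1m l).1 hl'
    exact ⟨l, φ l, hK2 l w3.1 w3.2.1, hK2 (φ l) (hφ1 l hl') (hφ2 l hl'), (NU_Ex w3.1).1, (NU_Ex (hφ1 l hl')).1,
      hφ4 l hl'⟩
  have hlog0 : 0 ≤ Real.log ((2 * ρ * (H + 2) : ℕ) : ℝ) := by
    apply Real.log_nonneg
    have : 1 ≤ 2 * ρ * (H + 2) := by nlinarith
    exact_mod_cast this
  have c1 : (S1.card : ℝ) ≤ (19 * ρ ^ 2 + 6) ^ 2 * (6 * Q * (4 * ρ + 1) *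
      (8 * Real.log ((2 * ρ * (H + 2) : ℕ) : ℝ) + 2 * (M + 1) * w)) := by
    have e1 : (S1.card : ℝ) = ∑ o ∈ Im, f o := by
      have := Finset.card_eq_sum_card_image (fun l => (K l, K (φ l))) S1
      rw [hImd]
      simp only [hf]
      exact_mod_cast this
    have e2 : Im ⊆ (Paths H ρ ×ˢ Paths H ρ).biUnion (fun pp => Im.filter (fun o => Hg pp.1 o.1 ∧ Hg pp.2 o.2)) := by
      intro o ho
      have h1 := Finset.mem_product.1 (hIm ho)
      obtain ⟨P, hP, hP2⟩ := PN_cover hρ (by omega) hs (hA0m _ h1.1).1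
      obtain ⟨P', hP', hP2'⟩ := PN_cover hρ (by omega) hs (hA0m _ h1.2).1
      rw [Finset.mem_biUnion]
      exact ⟨(P, P'), Finset.mem_product.2 ⟨hP, hP'⟩, Finset.mem_filter.2 ⟨ho, hP2, hP2'⟩⟩
    rw [e1]
    calc ∑ o ∈ Im, f o ≤ ∑ o ∈ (Paths H ρ ×ˢ Paths H ρ).biUnion
            (fun pp => Im.filter (fun o => Hg pp.1 o.1 ∧ Hg pp.2 o.2)), f o := by
          refine Finset.sum_le_sum_of_subset_of_nonneg e2 fun o ho _ => ?_
          obtain ⟨x, -, hx⟩ := Finset.mem_biUnion.1 ho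
          exact hf0 o (Finset.mem_filter.1 hx).1
      _ ≤ ∑ pp ∈ Paths H ρ ×ˢ Paths H ρ, ∑ o ∈ Im.filter (fun o => Hg pp.1 o.1 ∧ Hg pp.2 o.2), f o :=
          sum_biUnion_le' _ _ _ (fun x _ o ho => hf0 o (Finset.mem_filter.1 ho).1)
      _ ≤ ∑ pp ∈ Paths H ρ ×ˢ Paths H ρ, 6 * Q * (4 * ρ + 1) *
          (8 * Real.log ((2 * ρ * (H + 2) : ℕ) : ℝ) + 2 * (M + 1) * w) := by
          refine Finset.sum_le_sum fun pp hpp => ?_
          rw [Finset.mem_product] at hpp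
          exact pair_paths2 hH hρ hs A0 hA0l Im hIm f hQ0 hw0 hf0 (fun o ho => (hf12 o ho).1)
            (fun o ho => (hf12 o ho).2) hww hpp.1 hpp.2
      _ = ((Paths H ρ).card : ℝ) ^ 2 * (6 * Q * (4 * ρ + 1) *
          (8 * Real.log ((2 * ρ * (H + 2) : ℕ) : ℝ) + 2 * (M + 1) * w)) := by
          rw [Finset.sum_const, nsmul_eq_mul, Finset.card_product]
          push_cast
          ring
      _ ≤ _ := by
          apply mul_le_mul_of_nonneg_right _ (by positivity)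
          have h1 := Paths_card hρ (by omega) hs
          have h2 : ((Paths H ρ).card : ℝ) ≤ 19 * ρ ^ 2 + 6 := by exact_mod_cast h1
          exact pow_le_pow_left₀ (by positivity) h2 2
  have h6 := Finset.card_le_card hcover
  have h7 := Finset.card_union_le (Bd ∪ S2) S1
  have h8 := Finset.card_union_le Bd S2
  have h9 : (NU H).card ≤ 2 * Bd.card + S1.card := by omega
  have h10 : ((NU H).card : ℝ) ≤ 2 * Bd.card + S1.card := by exact_mod_cast h9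
  have h11 : 6 * Q * (4 * ρ + 1) * (8 * Real.log ((2 * ρ * (H + 2) : ℕ) : ℝ) + 2 * (M + 1) * w) =
      6 * (4 * ρ + 1) * (18 * D + 1) * (16 * H0 * Real.log ((2 * ρ * (H + 2) : ℕ) : ℝ) + 2 * (M + 1) * (Tr + 2)) := by
    have : 6 * Q * (4 * ρ + 1) * (8 * Real.log ((2 * ρ * (H + 2) : ℕ) : ℝ) + 2 * (M + 1) * w) =
        6 * (4 * ρ + 1) * (Q * 8 * Real.log ((2 * ρ * (H + 2) : ℕ) : ℝ) + 2 * (M + 1) * (Q * w)) := by ring
    rw [this, hQw, hQ]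
    ring
  rw [h11] at c1
  linarith

end

end Pool.Agent.Q185.ML
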