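import Mathlib
import Pool.Agent.Q185.ML.Main
import Pool.Agent.TH880.MK.M15

/-! The number of exceptional words: numbers. -/

set_option autoImplicit false

namespace Pool.Agent.Q185.ML

open Pool.Agent.H499R2 Pool.Agent.TH880.MK

noncomputable section

/-- the size of the parameter -/
lemma rho31 {S : ℕ} (hS : 1 ≤ S) {L : ℝ} (hL : L = 2 + Real.log S) :
    (10 : ℝ) ^ 20 * ((S ^ 31 : ℕ) : ℝ) ^ 20 ≤ 4 ^ ⌈620 * L⌉₊ ∧ (⌈620 * L⌉₊ : ℝ) ≤ 621 * L ∧ 2 ≤ ⌈620 * L⌉₊ ∧ 2 ≤ L := by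
  have hSr : (1 : ℝ) ≤ S := by exact_mod_cast hS
  have hS0 : (0 : ℝ) < S := by linarith
  have hlog : 0 ≤ Real.log S := Real.log_nonneg hSr
  have hL2 : 2 ≤ L := by rw [hL]; linarith
  have hle : 620 * L ≤ ⌈620 * L⌉₊ := Nat.le_ceil _
  have hge : (⌈620 * L⌉₊ : ℝ) < 620 * L + 1 := Nat.ceil_lt_add_one (by linarith)
  have hup : (⌈620 * L⌉₊ : ℝ) ≤ 621 * L := by linarith
  refine ⟨?_, hup, ?_, hL2⟩
  · have h4 : (4 : ℝ) ^ ⌈620 * L⌉₊ = Real.exp ((⌈620 * L⌉₊ : ℝ) * Real.log 4) := by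
      rw [Real.exp_nat_mul, Real.exp_log (by norm_num)]
    have hl4 : 1 ≤ Real.log 4 := by
      rw [Real.le_log_iff_exp_le (by norm_num)]
      have := Real.exp_one_lt_d9; linarith
    have h5 : 80 + 620 * Real.log S ≤ (⌈620 * L⌉₊ : ℝ) * Real.log 4 := by
      have : 620 * L * 1 ≤ (⌈620 * L⌉₊ : ℝ) * Real.log 4 := mul_le_mul hle hl4 (by norm_num) (by positivity)
      have e : 620 * L * 1 = 1240 + 620 * Real.log S := by rw [hL]; ring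
      linarith
    have h6 : Real.exp (620 * Real.log S) = (S : ℝ) ^ 620 := by
      have : (620 : ℝ) * Real.log S = ((620 : ℕ) : ℝ) * Real.log S := by norm_num
      rw [this, Real.exp_nat_mul, Real.exp_log hS0]
    have h7 : ((S ^ 31 : ℕ) : ℝ) ^ 20 = (S : ℝ) ^ 620 := by push_cast; rw [← pow_mul]
    rw [h4, h7]
    calc (10 : ℝ) ^ 20 * (S : ℝ) ^ 620 ≤ Real.exp 80 * (S : ℝ) ^ 620 := mul_le_mul_of_nonneg_right exp80 (by positivity)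
      _ = Real.exp (80 + 620 * Real.log S) := by rw [Real.exp_add, h6]
      _ ≤ _ := Real.exp_le_exp.mpr h5
  · have : (2 : ℝ) ≤ ⌈620 * L⌉₊ := by linarith
    exact_mod_cast this

lemma log31 {S : ℕ} (hS : 1 ≤ S) {L : ℝ} (hL : L = 2 + Real.log S) {ρ : ℕ} (hρ : (ρ : ℝ) ≤ 621 * L) (hρ2 : 2 ≤ ρ) :
    Real.log ((2 * ρ * (S ^ 31 + 2) : ℕ) : ℝ) ≤ 32 * L := by
  have hSr : (1 : ℝ) ≤ S := by exact_mod_cast hS
  have hS0 : (0 : ℝ) < S := by linarith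
  have hlog1 : Real.log S ≤ S - 1 := Real.log_le_sub_one_of_pos hS0
  have hL2 : L ≤ 2 * S := by rw [hL]; linarith
  have h31 : (1 : ℝ) ≤ (S : ℝ) ^ 31 := one_le_pow₀ hSr
  have h1 : ((2 * ρ * (S ^ 31 + 2) : ℕ) : ℝ) ≤ 7452 * (S : ℝ) ^ 32 := by
    push_cast
    calc (2 : ℝ) * ρ * ((S : ℝ) ^ 31 + 2) ≤ 2 * (621 * (2 * S)) * (3 * (S : ℝ) ^ 31) := by
          apply mul_le_mul _ (by linarith) (by positivity) (by positivity)
          linarith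
      _ = _ := by ring
  have h0 : (0 : ℝ) < ((2 * ρ * (S ^ 31 + 2) : ℕ) : ℝ) := by
    have : 0 < 2 * ρ * (S ^ 31 + 2) := by positivity
    exact_mod_cast this
  have h2 := Real.log_le_log h0 h1
  rw [Real.log_mul (by norm_num) (by positivity), Real.log_pow] at h2
  have h3 : Real.log 7452 ≤ 10 := by
    rw [Real.log_le_iff_le_exp (by norm_num)]
    have h5 : (2.7 : ℝ) ≤ Real.exp 1 := by have := Real.exp_one_gt_d9; linarith
    have h6 : Real.exp 10 = (Real.exp 1) ^ 10 := by rw [← Real.exp_nat_mul]; norm_num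
    rw [h6]
    calc (7452 : ℝ) ≤ 2.7 ^ 10 := by norm_num
      _ ≤ _ := pow_le_pow_left₀ (by norm_num) h5 _
  rw [hL]
  push_cast at h2 ⊢
  linarith

/-- the numerical part -/
lemma num31 {C s L ρ D nu y l1 : ℝ} (hC : 0 < C) (hs : 1 ≤ s) (hL : 2 ≤ L) (hρ0 : 0 ≤ ρ) (hρ : ρ ≤ 621 * L) (hD : 0 ≤ D)
    (hy0 : 0 ≤ y) (hy : y ≤ 31 * L) (hl0 : 0 ≤ l1) (hl1 : l1 ≤ 32 * L)
    (hnu : nu ≤ 2 * ((19 * ρ ^ 2 + 6) * (C * y ^ 5 + C * (s ^ 6) ^ 5 * y ^ 4)) +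
      (19 * ρ ^ 2 + 6) ^ 2 * (6 * (4 * ρ + 1) * (18 * D + 1) *
        (16 * (2 * s ^ 30) * l1 + 2 * (2 * s ^ 25 + 1) * (C * s ^ 5 * y ^ 4 + 2)))) :
    nu ≤ 10 ^ 27 * (C + 1) * ((18 * D + 1) * L ^ 9 * s ^ 30) := by
  have hL0 : 0 < L := by linarith
  have hL1 : 1 ≤ L := by linarith
  have hs0 : 0 < s := by linarith
  have hρ2 : ρ ^ 2 ≤ 385641 * L ^ 2 := by
    calc ρ ^ 2 ≤ (621 * L) ^ 2 := pow_le_pow_left₀ hρ0 hρ 2
      _ = _ := by ring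
  have hL2 : 4 ≤ L ^ 2 := by nlinarith
  have bA : 19 * ρ ^ 2 + 6 ≤ 10 ^ 7 * L ^ 2 := by linarith
  have bA2 : (19 * ρ ^ 2 + 6) ^ 2 ≤ 10 ^ 14 * L ^ 4 := by
    calc (19 * ρ ^ 2 + 6) ^ 2 ≤ (10 ^ 7 * L ^ 2) ^ 2 := pow_le_pow_left₀ (by positivity) bA 2
      _ = _ := by ring
  have bF : 4 * ρ + 1 ≤ 10 ^ 4 * L := by linarith
  have y4 : y ^ 4 ≤ 10 ^ 6 * L ^ 4 := by
    calc y ^ 4 ≤ (31 * L) ^ 4 := pow_le_pow_left₀ hy0 hy 4
      _ = 923521 * L ^ 4 := by ring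
      _ ≤ _ := mul_le_mul_of_nonneg_right (by norm_num) (by positivity)
  have y5 : y ^ 5 ≤ 10 ^ 8 * L ^ 5 := by
    calc y ^ 5 ≤ (31 * L) ^ 5 := pow_le_pow_left₀ hy0 hy 5
      _ = 28629151 * L ^ 5 := by ring
      _ ≤ _ := mul_le_mul_of_nonneg_right (by norm_num) (by positivity)
  have hD1 : 1 ≤ 18 * D + 1 := by linarith
  have p30 : 1 ≤ s ^ 30 := one_le_pow₀ hs
  have p25 : 1 ≤ s ^ 25 := one_le_pow₀ hs
  have p5 : 1 ≤ s ^ 5 := one_le_pow₀ hs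
  have L4 : 1 ≤ L ^ 4 := one_le_pow₀ hL1
  have L79 : L ^ 7 ≤ L ^ 9 := pow_le_pow_right₀ hL1 (by norm_num)
  have L69 : L ^ 6 ≤ L ^ 9 := pow_le_pow_right₀ hL1 (by norm_num)
  obtain ⟨G, hG⟩ : ∃ G : ℝ, G = (18 * D + 1) * L ^ 9 * s ^ 30 := ⟨_, rfl⟩
  rw [← hG]
  have t1 : 2 * ((19 * ρ ^ 2 + 6) * (C * y ^ 5 + C * (s ^ 6) ^ 5 * y ^ 4)) ≤ 10 ^ 16 * C * G := by
    have e1 : C * y ^ 5 + C * (s ^ 6) ^ 5 * y ^ 4 ≤ 2 * 10 ^ 8 * C * (L ^ 5 * s ^ 30) := by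
      have a1 : C * y ^ 5 ≤ 10 ^ 8 * C * (L ^ 5 * s ^ 30) := by
        calc C * y ^ 5 ≤ C * (10 ^ 8 * L ^ 5) := mul_le_mul_of_nonneg_left y5 hC.le
          _ = 10 ^ 8 * C * (L ^ 5 * 1) := by ring
          _ ≤ _ := by
            apply mul_le_mul_of_nonneg_left _ (by positivity)
            exact mul_le_mul_of_nonneg_left p30 (by positivity)
      have a2 : C * (s ^ 6) ^ 5 * y ^ 4 ≤ 10 ^ 8 * C * (L ^ 5 * s ^ 30) := by
        calc C * (s ^ 6) ^ 5 * y ^ 4 ≤ C * (s ^ 6) ^ 5 * (10 ^ 6 * L ^ 4) := mul_le_mul_of_nonneg_left y4 (by positivity)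
          _ = 10 ^ 6 * C * (L ^ 4 * s ^ 30) := by ring
          _ ≤ 10 ^ 8 * C * (L ^ 5 * s ^ 30) := by
            apply mul_le_mul _ _ (by positivity) (by positivity)
            · exact mul_le_mul_of_nonneg_right (by norm_num) hC.le
            · apply mul_le_mul_of_nonneg_right _ (by positivity)
              exact pow_le_pow_right₀ hL1 (by norm_num)
      linarith
    calc 2 * ((19 * ρ ^ 2 + 6) * (C * y ^ 5 + C * (s ^ 6) ^ 5 * y ^ 4))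
        ≤ 2 * ((10 ^ 7 * L ^ 2) * (2 * 10 ^ 8 * C * (L ^ 5 * s ^ 30))) := by
          apply mul_le_mul_of_nonneg_left _ (by norm_num)
          exact mul_le_mul bA e1 (by positivity) (by positivity)
      _ = 4 * 10 ^ 15 * C * (1 * L ^ 7 * s ^ 30) := by ring
      _ ≤ 10 ^ 16 * C * ((18 * D + 1) * L ^ 9 * s ^ 30) := by
          apply mul_le_mul _ _ (by positivity) (by positivity)
          · exact mul_le_mul_of_nonneg_right (by norm_num) hC.le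
          · apply mul_le_mul_of_nonneg_right _ (by positivity)
            exact mul_le_mul hD1 L79 (by positivity) (by positivity)
      _ = 10 ^ 16 * C * G := by rw [hG]
  have t2 : 16 * (2 * s ^ 30) * l1 + 2 * (2 * s ^ 25 + 1) * (C * s ^ 5 * y ^ 4 + 2) ≤ 10 ^ 8 * (C + 1) * (L ^ 4 * s ^ 30) := by
    have a1 : 16 * (2 * s ^ 30) * l1 ≤ 1024 * (L ^ 4 * s ^ 30) := by
      calc 16 * (2 * s ^ 30) * l1 ≤ 16 * (2 * s ^ 30) * (32 * L) := mul_le_mul_of_nonneg_left hl1 (by positivity)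
        _ = 1024 * (L ^ 1 * s ^ 30) := by ring
        _ ≤ _ := by
          apply mul_le_mul_of_nonneg_left _ (by norm_num)
          apply mul_le_mul_of_nonneg_right _ (by positivity)
          exact pow_le_pow_right₀ hL1 (by norm_num)
    have a2 : C * s ^ 5 * y ^ 4 + 2 ≤ (10 ^ 6 * C + 2) * (L ^ 4 * s ^ 5) := by
      have b1 : C * s ^ 5 * y ^ 4 ≤ C * s ^ 5 * (10 ^ 6 * L ^ 4) := mul_le_mul_of_nonneg_left y4 (by positivity)
      have b2 : 1 ≤ L ^ 4 * s ^ 5 := by nlinarith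
      have b3 : (10 ^ 6 * C + 2) * (L ^ 4 * s ^ 5) = C * s ^ 5 * (10 ^ 6 * L ^ 4) + 2 * (L ^ 4 * s ^ 5) := by ring
      rw [b3]
      linarith
    have a3 : 2 * (2 * s ^ 25 + 1) * (C * s ^ 5 * y ^ 4 + 2) ≤ 6 * (10 ^ 6 * C + 2) * (L ^ 4 * s ^ 30) := by
      calc 2 * (2 * s ^ 25 + 1) * (C * s ^ 5 * y ^ 4 + 2) ≤ 2 * (3 * s ^ 25) * ((10 ^ 6 * C + 2) * (L ^ 4 * s ^ 5)) := by
            apply mul_le_mul _ a2 (by positivity) (by positivity)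
            linarith
        _ = _ := by ring
    have a4 : 0 < L ^ 4 * s ^ 30 := by positivity
    have a5 : 1024 * (L ^ 4 * s ^ 30) + 6 * (10 ^ 6 * C + 2) * (L ^ 4 * s ^ 30) ≤ 10 ^ 8 * (C + 1) * (L ^ 4 * s ^ 30) := by
      rw [← add_mul]
      apply mul_le_mul_of_nonneg_right _ a4.le
      linarith
    linarith
  have t3 : (19 * ρ ^ 2 + 6) ^ 2 * (6 * (4 * ρ + 1) * (18 * D + 1) *
        (16 * (2 * s ^ 30) * l1 + 2 * (2 * s ^ 25 + 1) * (C * s ^ 5 * y ^ 4 + 2))) ≤ 6 * 10 ^ 26 * (C + 1) * G := by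
    calc (19 * ρ ^ 2 + 6) ^ 2 * (6 * (4 * ρ + 1) * (18 * D + 1) *
        (16 * (2 * s ^ 30) * l1 + 2 * (2 * s ^ 25 + 1) * (C * s ^ 5 * y ^ 4 + 2)))
        ≤ (10 ^ 14 * L ^ 4) * (6 * (10 ^ 4 * L) * (18 * D + 1) * (10 ^ 8 * (C + 1) * (L ^ 4 * s ^ 30))) := by
          apply mul_le_mul bA2 _ (by positivity) (by positivity)
          apply mul_le_mul _ t2 (by positivity) (by positivity)
          apply mul_le_mul_of_nonneg_right _ (by positivity)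
          apply mul_le_mul_of_nonneg_left bF (by norm_num)
      _ = 6 * 10 ^ 26 * (C + 1) * ((18 * D + 1) * L ^ 9 * s ^ 30) := by ring
      _ = _ := by rw [hG]
  have hG0 : 0 < G := by rw [hG]; positivity
  have hfin : 10 ^ 16 * C * G + 6 * 10 ^ 26 * (C + 1) * G ≤ 10 ^ 27 * (C + 1) * G := by
    rw [← add_mul]
    apply mul_le_mul_of_nonneg_right _ hG0.le
    linarith
  linarith

theorem NU_pow31 (ε : ℝ) (hε : 0 < ε) : ∃ C : ℝ, 0 < C ∧ ∀ S : ℕ, 1 ≤ S →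
    ((NU (S ^ 31)).card : ℝ) ≤ C * (S : ℝ) ^ (30 + ε) := by
  obtain ⟨C0, hC0, hb⟩ := NU_bound3
  obtain ⟨δ, hδ⟩ : ∃ δ : ℝ, δ = ε / 133 := ⟨_, rfl⟩
  have hδ0 : 0 < δ := by rw [hδ]; positivity
  obtain ⟨Cd, hCd, hdiv⟩ := div_bound δ hδ0
  refine ⟨10 ^ 27 * (C0 + 1) * ((18 * Cd + 1) * (2 + 1 / δ) ^ 9) + 1, by positivity, ?_⟩
  intro S hS1
  have hSr : (1 : ℝ) ≤ S := by exact_mod_cast hS1
  have hS0 : (0 : ℝ) < S := by linarith
  have hpow0 : 0 ≤ (S : ℝ) ^ (30 + ε) := Real.rpow_nonneg hS0.le _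
  have hpow1 : 1 ≤ (S : ℝ) ^ (30 + ε) := Real.one_le_rpow hSr (by linarith)
  have hK0 : 0 ≤ 10 ^ 27 * (C0 + 1) * ((18 * Cd + 1) * (2 + 1 / δ) ^ 9) := by positivity
  by_cases hS : 2 ≤ S
  · obtain ⟨L, hL⟩ : ∃ L : ℝ, L = 2 + Real.log S := ⟨_, rfl⟩
    obtain ⟨r1, r2, r3, r5⟩ := rho31 hS1 hL
    obtain ⟨ρ, hρ⟩ : ∃ ρ : ℕ, ρ = ⌈620 * L⌉₊ := ⟨_, rfl⟩
    rw [← hρ] at r1 r2 r3
    have hlog0 : 0 ≤ Real.log S := Real.log_nonneg hSr
    have hH2 : 2 ≤ S ^ 31 := hS.trans (Nat.le_self_pow (by norm_num) S)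
    have hD : ∀ N : ℕ, N ≠ 0 → N ≤ (S ^ 31) ^ 4 → (N.divisors.card : ℝ) ≤ Cd * (S : ℝ) ^ (124 * δ) := by
      intro N hN hN4
      refine (hdiv N hN).trans ?_
      apply mul_le_mul_of_nonneg_left _ hCd.le
      have h1 : (N : ℝ) ≤ (S : ℝ) ^ (124 : ℕ) := by
        have : N ≤ S ^ 124 := by
          calc N ≤ (S ^ 31) ^ 4 := hN4
            _ = S ^ 124 := by rw [← pow_mul]
        exact_mod_cast this
      calc (N : ℝ) ^ δ ≤ ((S : ℝ) ^ (124 : ℕ)) ^ δ := Real.rpow_le_rpow (by positivity) h1 hδ0.le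
        _ = (S : ℝ) ^ (124 * δ) := by
          rw [← Real.rpow_natCast, ← Real.rpow_mul hS0.le]; norm_num
    have hnu := hb (S ^ 31) ρ (2 * S ^ 30) (2 * S ^ 25) S (S ^ 6) hH2 r3 r1
      (by have : 0 < S ^ 30 := by positivity
          omega) (by have : 0 < S ^ 25 := by positivity
                     omega) (by apply le_of_eq; ring) (by apply le_of_eq; ring)
      (Cd * (S : ℝ) ^ (124 * δ)) hD (by positivity)
    have hy : 1 + Real.log ((S ^ 31 : ℕ) : ℝ) ≤ 31 * L := by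
      push_cast
      rw [Real.log_pow, hL]
      push_cast
      linarith
    have hy0 : 0 ≤ 1 + Real.log ((S ^ 31 : ℕ) : ℝ) := by
      push_cast
      rw [Real.log_pow]
      positivity
    have hl1 := log31 hS1 hL r2 r3
    have hl0 : 0 ≤ Real.log ((2 * ρ * (S ^ 31 + 2) : ℕ) : ℝ) := by
      apply Real.log_nonneg
      have : 1 ≤ 2 * ρ * (S ^ 31 + 2) := by
        have : 0 < 2 * ρ * (S ^ 31 + 2) := by positivity
        omega
      exact_mod_cast this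
    have hn := num31 (C := C0) (s := (S : ℝ)) (L := L) (ρ := (ρ : ℝ)) (D := Cd * (S : ℝ) ^ (124 * δ))
      (nu := ((NU (S ^ 31)).card : ℝ)) (y := 1 + Real.log ((S ^ 31 : ℕ) : ℝ))
      (l1 := Real.log ((2 * ρ * (S ^ 31 + 2) : ℕ) : ℝ)) hC0 hSr r5 (by positivity) r2 (by positivity)
      hy0 hy hl0 hl1 (by
        have e1 : ((2 * S ^ 30 : ℕ) : ℝ) = 2 * (S : ℝ) ^ 30 := by push_cast; ring
        have e2 : ((2 * S ^ 25 : ℕ) : ℝ) = 2 * (S : ℝ) ^ 25 := by push_cast; ring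
        have e3 : ((S ^ 6 : ℕ) : ℝ) = (S : ℝ) ^ 6 := by push_cast; ring
        rw [e1, e2, e3] at hnu
        exact hnu)
    have hLd : L ≤ (2 + 1 / δ) * (S : ℝ) ^ δ := by
      have h1 := Real.log_le_rpow_div hS0.le hδ0
      have h2 : 1 ≤ (S : ℝ) ^ δ := Real.one_le_rpow hSr hδ0.le
      have h3 : (S : ℝ) ^ δ / δ = 1 / δ * (S : ℝ) ^ δ := by ring
      rw [hL]
      rw [h3] at h1
      linarith
    have hL9 : L ^ 9 ≤ (2 + 1 / δ) ^ 9 * (S : ℝ) ^ (9 * δ) := by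
      calc L ^ 9 ≤ ((2 + 1 / δ) * (S : ℝ) ^ δ) ^ 9 := pow_le_pow_left₀ (by linarith) hLd 9
        _ = (2 + 1 / δ) ^ 9 * ((S : ℝ) ^ δ) ^ 9 := mul_pow _ _ _
        _ = _ := by
          congr 1
          rw [← Real.rpow_natCast ((S : ℝ) ^ δ), ← Real.rpow_mul hS0.le]
          congr 1
          push_cast
          ring
    have hD1 : 18 * (Cd * (S : ℝ) ^ (124 * δ)) + 1 ≤ (18 * Cd + 1) * (S : ℝ) ^ (124 * δ) := by
      have h2 : 1 ≤ (S : ℝ) ^ (124 * δ) := Real.one_le_rpow hSr (by positivity)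
      linarith
    have hcomb : (S : ℝ) ^ (124 * δ) * (S : ℝ) ^ (9 * δ) * (S : ℝ) ^ 30 = (S : ℝ) ^ (30 + ε) := by
      rw [← Real.rpow_natCast (S : ℝ) 30, ← Real.rpow_add hS0, ← Real.rpow_add hS0]
      congr 1
      rw [hδ]
      push_cast
      ring
    calc ((NU (S ^ 31)).card : ℝ) ≤ 10 ^ 27 * (C0 + 1) * ((18 * (Cd * (S : ℝ) ^ (124 * δ)) + 1) * L ^ 9 * (S : ℝ) ^ 30) := hn
      _ ≤ 10 ^ 27 * (C0 + 1) * (((18 * Cd + 1) * (S : ℝ) ^ (124 * δ)) * ((2 + 1 / δ) ^ 9 * (S : ℝ) ^ (9 * δ)) * (S : ℝ) ^ 30) := by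
        apply mul_le_mul_of_nonneg_left _ (by positivity)
        apply mul_le_mul_of_nonneg_right _ (by positivity)
        exact mul_le_mul hD1 hL9 (by positivity) (by positivity)
      _ = 10 ^ 27 * (C0 + 1) * ((18 * Cd + 1) * (2 + 1 / δ) ^ 9) *
          ((S : ℝ) ^ (124 * δ) * (S : ℝ) ^ (9 * δ) * (S : ℝ) ^ 30) := by ring
      _ = 10 ^ 27 * (C0 + 1) * ((18 * Cd + 1) * (2 + 1 / δ) ^ 9) * (S : ℝ) ^ (30 + ε) := by rw [hcomb]
      _ ≤ _ := by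
        apply mul_le_mul_of_nonneg_right _ hpow0
        linarith
  · have hS' : S = 1 := by omega
    subst hS'
    have h1 := NU_triv (1 ^ 31)
    rw [one_pow] at h1
    rw [one_pow]
    calc ((NU 1).card : ℝ) ≤ ((1 : ℕ) : ℝ) ^ 2 := h1
      _ = 0 + 1 * 1 := by norm_num
      _ ≤ _ := by
        rw [Nat.cast_one] at hpow1 ⊢
        rw [Real.one_rpow]
        linarith

/-- **The number of exceptional words.** -/
theorem NU_final (ε : ℝ) (hε : 0 < ε) : ∃ C : ℝ, 0 < C ∧ ∀ H : ℕ, 1 ≤ H →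
    ((NU H).card : ℝ) ≤ C * (H : ℝ) ^ (30 / 31 + ε) := by
  obtain ⟨C, hC, h⟩ := NU_pow31 (31 * ε) (by positivity)
  refine ⟨C * 2 ^ (30 + 31 * ε), by positivity, ?_⟩
  intro H hH
  have hHr : (1 : ℝ) ≤ H := by exact_mod_cast hH
  have hH0 : (0 : ℝ) < H := by linarith
  obtain ⟨r, hr⟩ : ∃ r : ℝ, r = (H : ℝ) ^ ((1 : ℝ) / 31) := ⟨_, rfl⟩
  have hr1 : 1 ≤ r := by rw [hr]; exact Real.one_le_rpow hHr (by norm_num)
  have hr31 : r ^ 31 = H := by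
    rw [hr, ← Real.rpow_natCast, ← Real.rpow_mul hH0.le]
    norm_num
  obtain ⟨S, hS⟩ : ∃ S : ℕ, S = ⌈r⌉₊ := ⟨_, rfl⟩
  have f1 : r ≤ S := by rw [hS]; exact Nat.le_ceil _
  have f2 : (S : ℝ) < r + 1 := by rw [hS]; exact Nat.ceil_lt_add_one (by positivity)
  have hS1 : 1 ≤ S := by
    have : (1 : ℝ) ≤ S := by linarith
    exact_mod_cast this
  have hHS : H ≤ S ^ 31 := by
    have h1 : r ^ 31 ≤ (S : ℝ) ^ 31 := pow_le_pow_left₀ (by positivity) f1 31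
    rw [hr31] at h1
    exact_mod_cast h1
  have h1 := Finset.card_le_card (NU_mono hHS)
  have h2 := h S hS1
  have h3 : (S : ℝ) ≤ 2 * r := by linarith
  have h4 : (S : ℝ) ^ (30 + 31 * ε) ≤ 2 ^ (30 + 31 * ε) * (H : ℝ) ^ (30 / 31 + ε) := by
    calc (S : ℝ) ^ (30 + 31 * ε) ≤ (2 * r) ^ (30 + 31 * ε) := Real.rpow_le_rpow (by positivity) h3 (by positivity)
      _ = 2 ^ (30 + 31 * ε) * r ^ (30 + 31 * ε) := Real.mul_rpow (by norm_num) (by positivity)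
      _ = _ := by
        congr 1
        rw [hr, ← Real.rpow_mul hH0.le]
        congr 1
        ring
  calc ((NU H).card : ℝ) ≤ (NU (S ^ 31)).card := by exact_mod_cast h1
    _ ≤ C * (S : ℝ) ^ (30 + 31 * ε) := h2
    _ ≤ C * (2 ^ (30 + 31 * ε) * (H : ℝ) ^ (30 / 31 + ε)) := mul_le_mul_of_nonneg_left h4 hC.le
    _ = _ := by ring

end

end Pool.Agent.Q185.ML
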